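import Pool.Agent.Lib.MP_4e5fcd_ag.CB.Base
import Pool.Agent.Lib.MP_4e5fcd_ag.TV.YDefs

/-!
# CX-A0: the tuple `(f_1, …, f_r, z)`
-/

open MvPolynomial

namespace MotMono
namespace CX

variable {n r : ℕ}

/-- the tuple `(f_1, …, f_r, z)` -/
noncomputable def adjT (f : Fin r → MvPolynomial (Fin n) ℂ) :
    Fin (r + 1) → MvPolynomial (Fin (n + 1)) ℂ :=
  Fin.snoc (α := fun _ => MvPolynomial (Fin (n + 1)) ℂ) (fun j => rename Fin.castSucc (f j))
    (X (Fin.last n))

theorem adjT_castSucc (f : Fin r → MvPolynomial (Fin n) ℂ) (j : Fin r) :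
    adjT f j.castSucc = rename Fin.castSucc (f j) := by
  rw [adjT, Fin.snoc_castSucc]

theorem adjT_last (f : Fin r → MvPolynomial (Fin n) ℂ) :
    adjT f (Fin.last r) = X (Fin.last n) := by
  rw [adjT, Fin.snoc_last]

theorem span_adjT (f : Fin r → MvPolynomial (Fin n) ℂ) :
    Ideal.span (Set.range (adjT f)) = adjVar (Ideal.span (Set.range f)) := by
  apply le_antisymm
  · rw [Ideal.span_le]
    rintro _ ⟨k, rfl⟩
    induction k using Fin.lastCases with
    | last =>
      rw [adjT_last]
      exact Ideal.subset_span (Or.inr rfl)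
    | cast j =>
      rw [adjT_castSucc]
      exact Ideal.subset_span (Or.inl ⟨f j, Ideal.subset_span ⟨j, rfl⟩, rfl⟩)
  · rw [adjVar, Ideal.span_le]
    rintro _ (⟨g, hg, rfl⟩ | rfl)
    · have h1 : Ideal.span (Set.range f) ≤ Ideal.comap (rename (Fin.castSucc (n := n))).toRingHom
          (Ideal.span (Set.range (adjT f))) := by
        rw [Ideal.span_le]
        rintro _ ⟨j, rfl⟩
        show rename Fin.castSucc (f j) ∈ Ideal.span (Set.range (adjT f))
        rw [← adjT_castSucc]
        exact Ideal.subset_span ⟨_, rfl⟩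
      exact h1 hg
    · exact Ideal.subset_span ⟨Fin.last r, adjT_last f⟩

end CX
end MotMono
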