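import Pool.Agent.Lib.MP_4e5fcd_ag.CB.B7
import Pool.Agent.Lib.MP_4e5fcd_ag.HY.E1

/-!
# CX-A1: a new variable as a generator: the zeta function at the origin, both directions

`zmot_adj_eq`. Copy the private lemmas of HY/E1 (for the single family `Γ = {0}`, `σ = Empty`): with
`P = mk (e1g I {0})`, `P' = mk (e1g (adjVar I) {0})`:
`(1 - X) P = C (L^(-N)) - Zmot I` (`e1_tel`), `(1 - X) P' = C (L^(-(N+1))) - Zmot (adjVar I)`,
`P' = C L⁻¹ * rescale L⁻¹ P` (`e1_g`). Apply `rescale L⁻¹` to the first equation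
(`rescale L⁻¹ (1 - X) = 1 - C L⁻¹ * X`) and multiply the second one by `1 - C L⁻¹ X`.

`polar_adj_iff`, `s₀ ∉ ℤ`. `→`: `zmot_adj` with `s₀ - 1` (`s₀ - 1 + 1 = s₀ ≠ 0`).
`←`: by `zmot_adj_eq`, `(1 - X) C L⁻¹ rescale L⁻¹ (Zmot I) ∈ polarRing (s₀ - 1)`, so
`rescale L⁻¹ (Zmot I) ∈ polarRing (s₀ - 1)` (`mem_polar_of_mul` with `a = 0`, `b = 1`, `0 ≠ s₀ - 1`; `L⁻¹` is a
unit), and `Zmot I = rescale L (rescale L⁻¹ (Zmot I)) ∈ polarRing s₀` (`polar_rescale`, CB/B1;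
`PowerSeries.rescale_rescale`, `Lu * Lu⁻¹ = 1`, `PowerSeries.rescale_one`).
-/

open MvPolynomial

namespace MotMono
namespace CX

open CN HY TV

/-- the jets of the family `Γ` along which `I` vanishes to order `m` -/
private def ca1S {σ : Type} {N : ℕ} (I : Ideal (MvPolynomial (Fin N) ℂ))
    (Γ : Set (σ ⊕ Fin N → ℂ)) (m k : ℕ) : Set (σ ⊕ (Fin N × Fin (k + 1)) → ℂ) :=
  {z | Sum.elim (fun s => z (Sum.inl s)) (fun i => z (Sum.inr (i, 0))) ∈ Γ ∧
    OrdGe I m (fun q => z (Sum.inr q))}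

private theorem ca1_constr {σ : Type} {N : ℕ} (I : Ideal (MvPolynomial (Fin N) ℂ))
    {Γ : Set (σ ⊕ Fin N → ℂ)} (hΓ : Constr Γ) (m k : ℕ) : Constr (ca1S I Γ m k) := by
  have h1 := hΓ.comp (σ := σ ⊕ (Fin N × Fin (k + 1)))
    (Sum.elim Sum.inl fun i => Sum.inr (i, 0))
  have h2 := (constr_ordGe (n := k + 1) I m).comp (σ := σ ⊕ (Fin N × Fin (k + 1))) Sum.inr
  have e : {x : σ ⊕ (Fin N × Fin (k + 1)) → ℂ |
      (fun j => x (Sum.elim Sum.inl (fun i => Sum.inr (i, 0)) j)) ∈ Γ} ∩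
      {x | (fun j => x (Sum.inr j)) ∈ {γ : Fin N × Fin (k + 1) → ℂ | OrdGe I m γ}} =
      ca1S I Γ m k := by
    ext z
    simp only [Set.mem_inter_iff, Set.mem_ofPred_eq, ca1S]
    have : (fun j => z (Sum.elim Sum.inl (fun i => Sum.inr (i, 0)) j)) =
        Sum.elim (fun s => z (Sum.inl s)) (fun i => z (Sum.inr (i, 0))) := by
      funext j
      rcases j with s | i <;> rfl
    rw [this]
  have h3 := h1.inter h2
  rwa [e] at h3

private theorem ca1_sub {σ : Type} {N : ℕ} (I : Ideal (MvPolynomial (Fin N) ℂ))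
    (Γ : Set (σ ⊕ Fin N → ℂ)) (k : ℕ) : ca1S I Γ (k + 1) k ⊆ ca1S I Γ k k := by
  rintro z ⟨h1, h2⟩
  exact ⟨h1, fun f hf l hl => h2 f hf l (by omega)⟩

private theorem ca1_fam {σ : Type} {N : ℕ} (I : Ideal (MvPolynomial (Fin N) ℂ))
    (Γ : Set (σ ⊕ Fin N → ℂ)) (k : ℕ) : fam I Γ k = ca1S I Γ k k \ ca1S I Γ (k + 1) k := by
  ext z
  constructor
  · rintro ⟨h1, h2, f, hf, h3⟩
    refine ⟨⟨h1, h2⟩, ?_⟩
    rintro ⟨-, h4⟩
    exact h3 (h4 f hf k (Nat.lt_succ_self k))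
  · rintro ⟨⟨h1, h2⟩, h3⟩
    refine ⟨h1, h2, ?_⟩
    by_contra hc
    push Not at hc
    apply h3
    refine ⟨h1, fun f hf l hl => ?_⟩
    rcases Nat.lt_succ_iff_lt_or_eq.mp hl with h | h
    · exact h2 f hf l h
    · rw [h]
      exact hc f hf

private theorem ca1_step {σ : Type} {N : ℕ} (I : Ideal (MvPolynomial (Fin N) ℂ))
    (Γ : Set (σ ⊕ Fin N → ℂ)) (k : ℕ) :
    ca1S I Γ (k + 1) (k + 1) = {z | tr (Nat.le_succ k) z ∈ ca1S I Γ (k + 1) k} := by
  ext z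
  have e1 : (Sum.elim (fun s => tr (Nat.le_succ k) z (Sum.inl s))
      (fun i => tr (Nat.le_succ k) z (Sum.inr (i, 0))) : σ ⊕ Fin N → ℂ) =
      Sum.elim (fun s => z (Sum.inl s)) (fun i => z (Sum.inr (i, 0))) := by
    funext j
    rcases j with s | i
    · rfl
    · rfl
  constructor
  · rintro ⟨h1, h2⟩
    refine ⟨?_, fun f hf l hl => ?_⟩
    · rw [e1]
      exact h1
    · rw [along_tr (Nat.le_succ k) z f l (by omega)]
      exact h2 f hf l hl
  · rintro ⟨h1, h2⟩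
    rw [e1] at h1
    refine ⟨h1, fun f hf l hl => ?_⟩
    rw [← along_tr (Nat.le_succ k) z f l (by omega)]
    exact h2 f hf l hl

private theorem ca1_zero {σ : Type} [Finite σ] {N : ℕ} (I : Ideal (MvPolynomial (Fin N) ℂ))
    {Γ : Set (σ ⊕ Fin N → ℂ)} (hΓ : Constr Γ) : cls (ca1S I Γ 0 0) = cls Γ := by
  refine (cls_iso hΓ (ca1_constr I hΓ 0 0) ?_).symm
  refine ⟨fun x s => Sum.elim (fun t => x (Sum.inl t)) (fun q => x (Sum.inr q.1)) s,
    fun z s => Sum.elim (fun t => z (Sum.inl t)) (fun i => z (Sum.inr (i, 0))) s, ?_, ?_, ?_, ?_,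
    ?_, ?_⟩
  · rintro (t | q)
    · exact regFun_coord _ (Sum.inl t)
    · exact regFun_coord _ (Sum.inr q.1)
  · rintro (t | i)
    · exact regFun_coord _ (Sum.inl t)
    · exact regFun_coord _ (Sum.inr (i, 0))
  · intro x hx
    have e1 : (Sum.elim (fun s => x (Sum.inl s)) (fun i => x (Sum.inr i)) : σ ⊕ Fin N → ℂ) = x := by
      funext s
      rcases s with t | i <;> rfl
    refine ⟨?_, ?_⟩
    · show (Sum.elim (fun s => x (Sum.inl s)) (fun i => x (Sum.inr i)) : σ ⊕ Fin N → ℂ) ∈ Γ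
      rw [e1]; exact hx
    · intro f _ l hl
      exact absurd hl (Nat.not_lt_zero l)
  · intro z hz
    exact hz.1
  · intro x _
    funext s
    rcases s with t | i <;> rfl
  · intro z _
    funext s
    rcases s with t | ⟨i, j⟩
    · rfl
    · have hj : j = 0 := Fin.ext (by have := j.2; omega)
      rw [hj]
      rfl

private theorem ca1_LL (k : ℕ) : algebraMap K0 MC (LL ^ k) = ((Lu ^ (k : ℤ) : MCˣ) : MC) := by
  rw [map_pow, zpow_natCast, Units.val_pow_eq_pow_val]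
  rfl

private noncomputable def ca1g {σ : Type} {N : ℕ} [Finite σ] (I : Ideal (MvPolynomial (Fin N) ℂ))
    (Γ : Set (σ ⊕ Fin N → ℂ)) (k : ℕ) : MC :=
  algebraMap K0 MC (cls (ca1S I Γ (k + 1) k)) * ((Lu ^ (-(N * (k + 1) : ℤ)) : MCˣ) : MC)

private theorem ca1_tel {σ : Type} {N : ℕ} [Finite σ] (I : Ideal (MvPolynomial (Fin N) ℂ))
    {Γ : Set (σ ⊕ Fin N → ℂ)} (hΓ : Constr Γ) :
    (1 - PowerSeries.X) * PowerSeries.mk (ca1g I Γ) =
      PowerSeries.C (algebraMap K0 MC (cls Γ) * ((Lu ^ (-(N : ℤ)) : MCˣ) : MC)) - Zf I Γ := by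
  have hcls : ∀ k, cls (fam I Γ k) = cls (ca1S I Γ k k) - cls (ca1S I Γ (k + 1) k) := by
    intro k
    rw [ca1_fam, cls_diff (ca1_constr I hΓ k k) (ca1_constr I hΓ (k + 1) k) (ca1_sub I Γ k)]
  ext k
  rw [sub_mul, one_mul, map_sub, map_sub, PowerSeries.coeff_mk, PowerSeries.coeff_C]
  unfold Zf
  rw [PowerSeries.coeff_mk, hcls, map_sub]
  rcases k with _ | k
  · rw [PowerSeries.coeff_zero_X_mul, if_pos rfl, ca1_zero I hΓ]
    unfold ca1g
    have e : (-(N * ((0 : ℕ) + 1) : ℤ)) = -(N : ℤ) := by push_cast; ring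
    rw [e]
    ring
  · rw [PowerSeries.coeff_succ_X_mul, PowerSeries.coeff_mk, if_neg (Nat.succ_ne_zero k), ca1_step,
      cls_trunc (Nat.le_succ k) (ca1_constr I hΓ (k + 1) k), map_mul, ca1_LL]
    unfold ca1g
    have e1 : ((Lu ^ ((N * (k + 1 - k) : ℕ) : ℤ) : MCˣ) : MC) *
        ((Lu ^ (-(N * ((k + 1 : ℕ) + 1) : ℤ)) : MCˣ) : MC) =
        ((Lu ^ (-(N * (k + 1) : ℤ)) : MCˣ) : MC) := by
      rw [← Units.val_mul, ← zpow_add]
      congr 2
      rw [Nat.add_sub_cancel_left]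
      push_cast
      ring
    rw [sub_mul, mul_assoc _ ((Lu ^ ((N * (k + 1 - k) : ℕ) : ℤ) : MCˣ) : MC), e1]
    ring

/-- the point with last coordinate `0` -/
private noncomputable def ca1e {σ : Type} {N : ℕ} (w : σ ⊕ Fin N → ℂ) : σ ⊕ Fin (N + 1) → ℂ :=
  Sum.elim (fun s => w (Sum.inl s)) (Fin.snoc (α := fun _ => ℂ) (fun i => w (Sum.inr i)) 0)

private noncomputable def ca1r {σ : Type} {N : ℕ} (z : σ ⊕ Fin (N + 1) → ℂ) : σ ⊕ Fin N → ℂ :=
  Sum.elim (fun s => z (Sum.inl s)) (fun i => z (Sum.inr i.castSucc))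

private theorem ca1_re {σ : Type} {N : ℕ} (w : σ ⊕ Fin N → ℂ) : ca1r (ca1e w) = w := by
  funext s
  rcases s with s | i
  · rfl
  · show (Fin.snoc (α := fun _ => ℂ) (fun i => w (Sum.inr i)) 0 : Fin (N + 1) → ℂ) i.castSucc = _
    rw [Fin.snoc_castSucc]

private theorem ca1_er {σ : Type} {N : ℕ} (z : σ ⊕ Fin (N + 1) → ℂ)
    (hz : z (Sum.inr (Fin.last N)) = 0) : ca1e (ca1r z) = z := by
  funext s
  rcases s with s | i
  · rfl
  · show (Fin.snoc (α := fun _ => ℂ) (fun i => z (Sum.inr i.castSucc)) 0 : Fin (N + 1) → ℂ) i = _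
    induction i using Fin.lastCases with
    | last => rw [Fin.snoc_last, hz]
    | cast i => rw [Fin.snoc_castSucc]

private theorem ca1_constr' {σ : Type} {N : ℕ} {Γ : Set (σ ⊕ Fin (N + 1) → ℂ)} (hΓ : Constr Γ) :
    Constr {w : σ ⊕ Fin N → ℂ | ca1e w ∈ Γ} := by
  have h := hΓ.preimage (Sum.elim (fun s => (X (Sum.inl s) : MvPolynomial (σ ⊕ Fin N) ℂ))
    (Fin.snoc (α := fun _ => MvPolynomial (σ ⊕ Fin N) ℂ) (fun i => X (Sum.inr i)) 0))
  have e : ∀ w : σ ⊕ Fin N → ℂ, (fun j => eval w (Sum.elim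
      (fun s => (X (Sum.inl s) : MvPolynomial (σ ⊕ Fin N) ℂ))
      (Fin.snoc (α := fun _ => MvPolynomial (σ ⊕ Fin N) ℂ) (fun i => X (Sum.inr i)) 0) j)) =
      ca1e w := by
    intro w
    funext j
    rcases j with s | i
    · show eval w (X (Sum.inl s)) = w (Sum.inl s)
      rw [eval_X]
    · show eval w ((Fin.snoc (α := fun _ => MvPolynomial (σ ⊕ Fin N) ℂ)
        (fun i => X (Sum.inr i)) 0 : Fin (N + 1) → _) i) =
        (Fin.snoc (α := fun _ => ℂ) (fun i => w (Sum.inr i)) 0 : Fin (N + 1) → ℂ) i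
      induction i using Fin.lastCases with
      | last => rw [Fin.snoc_last, Fin.snoc_last, map_zero]
      | cast i => rw [Fin.snoc_castSucc, Fin.snoc_castSucc, eval_X]
  simp only [e] at h
  exact h

private theorem ca1_clsΓ {σ : Type} [Finite σ] {N : ℕ} {Γ : Set (σ ⊕ Fin (N + 1) → ℂ)}
    (hΓ : Constr Γ) (h0 : ∀ z ∈ Γ, z (Sum.inr (Fin.last N)) = 0) :
    cls Γ = cls {w : σ ⊕ Fin N → ℂ | ca1e w ∈ Γ} := by
  refine cls_iso hΓ (ca1_constr' hΓ) ?_
  refine ⟨ca1r, ca1e, ?_, ?_, ?_, ?_, ?_, ?_⟩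
  · rintro (s | i)
    · exact regFun_coord _ (Sum.inl s)
    · exact regFun_coord _ (Sum.inr i.castSucc)
  · rintro (s | i)
    · exact regFun_coord _ (Sum.inl s)
    · induction i using Fin.lastCases with
      | last =>
        have e : (fun w : σ ⊕ Fin N → ℂ => ca1e w (Sum.inr (Fin.last N))) = fun _ => 0 := by
          funext w
          show (Fin.snoc (α := fun _ => ℂ) (fun i => w (Sum.inr i)) 0 : Fin (N + 1) → ℂ) _ = _
          rw [Fin.snoc_last]
        rw [e]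
        exact regFun_const _ 0
      | cast i =>
        have e : (fun w : σ ⊕ Fin N → ℂ => ca1e w (Sum.inr i.castSucc)) =
            fun w => w (Sum.inr i) := by
          funext w
          show (Fin.snoc (α := fun _ => ℂ) (fun i => w (Sum.inr i)) 0 : Fin (N + 1) → ℂ) _ = _
          rw [Fin.snoc_castSucc]
        rw [e]
        exact regFun_coord _ (Sum.inr i)
  · intro z hz
    show ca1e (ca1r z) ∈ Γ
    rw [ca1_er z (h0 z hz)]
    exact hz
  · intro w hw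
    exact hw
  · intro z hz
    exact ca1_er z (h0 z hz)
  · intro w _
    exact ca1_re w

private theorem ca1_ord {N k : ℕ} (I : Ideal (MvPolynomial (Fin N) ℂ))
    (γ : Fin (N + 1) × Fin (k + 1) → ℂ) :
    OrdGe (adjVar I) (k + 1) γ ↔
      OrdGe I (k + 1) (fun q => γ (q.1.castSucc, q.2)) ∧ ∀ l, γ (Fin.last N, l) = 0 := by
  unfold adjVar
  rw [ordGe_span]
  constructor
  · intro h
    refine ⟨fun f hf l hl => ?_, fun l => ?_⟩
    · have h1 := h (rename Fin.castSucc f) (Or.inl ⟨f, hf, rfl⟩) l hl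
      rw [along_castSucc] at h1
      exact h1
    · have h1 := h (X (Fin.last N)) (Or.inr rfl) l l.2
      unfold along at h1
      rw [aeval_X, a1_arc_coeff, dif_pos l.2] at h1
      exact h1
  · rintro ⟨h1, h2⟩ f (⟨g, hg, rfl⟩ | rfl) l hl
    · rw [along_castSucc]
      exact h1 g hg l hl
    · unfold along
      rw [aeval_X, a1_arc_coeff, dif_pos hl]
      exact h2 _

private theorem ca1_clsG {σ : Type} [Finite σ] {N : ℕ} (I : Ideal (MvPolynomial (Fin N) ℂ))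
    {Γ : Set (σ ⊕ Fin (N + 1) → ℂ)} (hΓ : Constr Γ) (k : ℕ) :
    cls (ca1S (adjVar I) Γ (k + 1) k) =
      cls (ca1S I {w : σ ⊕ Fin N → ℂ | ca1e w ∈ Γ} (k + 1) k) := by
  have key : ∀ w : σ ⊕ (Fin N × Fin (k + 1)) → ℂ,
      (Sum.elim (fun s => w (Sum.inl s)) (fun q : Fin (N + 1) × Fin (k + 1) =>
        (Fin.snoc (α := fun _ => ℂ) (fun i => w (Sum.inr (i, q.2))) 0 : Fin (N + 1) → ℂ) q.1) :
        σ ⊕ (Fin (N + 1) × Fin (k + 1)) → ℂ) ∈ ca1S (adjVar I) Γ (k + 1) k ↔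
      w ∈ ca1S I {w : σ ⊕ Fin N → ℂ | ca1e w ∈ Γ} (k + 1) k := by
    intro w
    refine and_congr ?_ ?_
    · have e : (Sum.elim (fun s => w (Sum.inl s)) (fun i : Fin (N + 1) =>
          (Fin.snoc (α := fun _ => ℂ) (fun i => w (Sum.inr (i, 0))) 0 : Fin (N + 1) → ℂ) i) :
          σ ⊕ Fin (N + 1) → ℂ) =
          ca1e (Sum.elim (fun s => w (Sum.inl s)) (fun i => w (Sum.inr (i, 0)))) := by
        funext j
        rcases j with s | i <;> rfl
      exact Eq.to_iff (congrArg (· ∈ Γ) e)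
    · rw [ca1_ord]
      have e : (fun q : Fin N × Fin (k + 1) => (Sum.elim (fun s => w (Sum.inl s))
          (fun q : Fin (N + 1) × Fin (k + 1) =>
          (Fin.snoc (α := fun _ => ℂ) (fun i => w (Sum.inr (i, q.2))) 0 : Fin (N + 1) → ℂ) q.1) :
          σ ⊕ (Fin (N + 1) × Fin (k + 1)) → ℂ) (Sum.inr (q.1.castSucc, q.2))) =
          fun q => w (Sum.inr q) := by
        funext q
        show (Fin.snoc (α := fun _ => ℂ) (fun i => w (Sum.inr (i, q.2))) 0 : Fin (N + 1) → ℂ)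
          q.1.castSucc = _
        rw [Fin.snoc_castSucc]
      rw [e]
      refine and_iff_left ?_
      intro l
      show (Fin.snoc (α := fun _ => ℂ) (fun i => w (Sum.inr (i, l))) 0 : Fin (N + 1) → ℂ)
          (Fin.last N) = 0
      rw [Fin.snoc_last]
  have hinv : ∀ z ∈ ca1S (adjVar I) Γ (k + 1) k,
      (Sum.elim (fun s => z (Sum.inl s)) (fun q : Fin (N + 1) × Fin (k + 1) =>
        (Fin.snoc (α := fun _ => ℂ) (fun i : Fin N => z (Sum.inr (i.castSucc, q.2))) 0 :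
          Fin (N + 1) → ℂ) q.1) : σ ⊕ (Fin (N + 1) × Fin (k + 1)) → ℂ) = z := by
    rintro z ⟨-, h2⟩
    rw [ca1_ord] at h2
    funext s
    rcases s with s | ⟨i, l⟩
    · rfl
    · show (Fin.snoc (α := fun _ => ℂ) (fun i : Fin N => z (Sum.inr (i.castSucc, l))) 0 :
          Fin (N + 1) → ℂ) i = _
      induction i using Fin.lastCases with
      | last =>
        rw [Fin.snoc_last]
        exact (h2.2 l).symm
      | cast i => rw [Fin.snoc_castSucc]
  refine cls_iso (ca1_constr _ hΓ _ _) (ca1_constr I (ca1_constr' hΓ) _ _) ?_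
  refine ⟨fun z => Sum.elim (fun s => z (Sum.inl s)) (fun q => z (Sum.inr (q.1.castSucc, q.2))),
    fun w => Sum.elim (fun s => w (Sum.inl s)) (fun q : Fin (N + 1) × Fin (k + 1) =>
        (Fin.snoc (α := fun _ => ℂ) (fun i => w (Sum.inr (i, q.2))) 0 : Fin (N + 1) → ℂ) q.1),
    ?_, ?_, ?_, ?_, ?_, ?_⟩
  · rintro (s | q)
    · exact regFun_coord _ (Sum.inl s)
    · exact regFun_coord _ (Sum.inr (q.1.castSucc, q.2))
  · rintro (s | ⟨i, l⟩)
    · exact regFun_coord _ (Sum.inl s)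
    · induction i using Fin.lastCases with
      | last =>
        have e : (fun w : σ ⊕ (Fin N × Fin (k + 1)) → ℂ =>
            (Fin.snoc (α := fun _ => ℂ) (fun i => w (Sum.inr (i, l))) 0 : Fin (N + 1) → ℂ)
              (Fin.last N)) = fun _ => 0 := by
          funext w
          rw [Fin.snoc_last]
        show RegFun _ (fun w : σ ⊕ (Fin N × Fin (k + 1)) → ℂ =>
            (Fin.snoc (α := fun _ => ℂ) (fun i => w (Sum.inr (i, l))) 0 : Fin (N + 1) → ℂ)
              (Fin.last N))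
        rw [e]
        exact regFun_const _ 0
      | cast i =>
        have e : (fun w : σ ⊕ (Fin N × Fin (k + 1)) → ℂ =>
            (Fin.snoc (α := fun _ => ℂ) (fun i => w (Sum.inr (i, l))) 0 : Fin (N + 1) → ℂ)
              i.castSucc) = fun w => w (Sum.inr (i, l)) := by
          funext w
          rw [Fin.snoc_castSucc]
        show RegFun _ (fun w : σ ⊕ (Fin N × Fin (k + 1)) → ℂ =>
            (Fin.snoc (α := fun _ => ℂ) (fun i => w (Sum.inr (i, l))) 0 : Fin (N + 1) → ℂ)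
              i.castSucc)
        rw [e]
        exact regFun_coord _ (Sum.inr (i, l))
  · intro z hz
    rw [← key]
    have h := hinv z hz
    have e : (Sum.elim (fun s => z (Sum.inl s)) (fun q : Fin (N + 1) × Fin (k + 1) =>
        (Fin.snoc (α := fun _ => ℂ) (fun i : Fin N => z (Sum.inr (i.castSucc, q.2))) 0 :
          Fin (N + 1) → ℂ) q.1) : σ ⊕ (Fin (N + 1) × Fin (k + 1)) → ℂ) ∈
          ca1S (adjVar I) Γ (k + 1) k := by
      rw [h]
      exact hz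
    exact e
  · intro w hw
    exact (key w).2 hw
  · intro z hz
    exact hinv z hz
  · intro w _
    funext s
    rcases s with s | ⟨i, l⟩
    · rfl
    · show (Fin.snoc (α := fun _ => ℂ) (fun i => w (Sum.inr (i, l))) 0 : Fin (N + 1) → ℂ)
        i.castSucc = _
      rw [Fin.snoc_castSucc]

private theorem ca1_g {σ : Type} [Finite σ] {N : ℕ} (I : Ideal (MvPolynomial (Fin N) ℂ))
    {Γ : Set (σ ⊕ Fin (N + 1) → ℂ)} (hΓ : Constr Γ) :
    PowerSeries.mk (ca1g (adjVar I) Γ) = PowerSeries.C ((Lu⁻¹ : MCˣ) : MC) *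
      PowerSeries.rescale ((Lu⁻¹ : MCˣ) : MC)
        (PowerSeries.mk (ca1g I {w : σ ⊕ Fin N → ℂ | ca1e w ∈ Γ})) := by
  ext k
  rw [PowerSeries.coeff_mk, PowerSeries.coeff_C_mul, PowerSeries.coeff_rescale,
    PowerSeries.coeff_mk]
  unfold ca1g
  rw [ca1_clsG I hΓ k]
  have e : ((Lu ^ (-(((N + 1 : ℕ) : ℤ) * (k + 1))) : MCˣ) : MC) =
      ((Lu⁻¹ : MCˣ) : MC) * (((Lu⁻¹ : MCˣ) : MC) ^ k *
        ((Lu ^ (-(N * (k + 1) : ℤ)) : MCˣ) : MC)) := by
    rw [← Units.val_pow_eq_pow_val, ← Units.val_mul, ← Units.val_mul]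
    congr 1
    have h1 : (Lu⁻¹ : MCˣ) ^ k = Lu ^ (-(k : ℤ)) := by
      rw [inv_pow, zpow_neg, zpow_natCast]
    have h2 : (Lu⁻¹ : MCˣ) = Lu ^ (-(1 : ℤ)) := by
      rw [zpow_neg, zpow_one]
    rw [h1, h2, ← zpow_add, ← zpow_add]
    congr 1
    push_cast
    ring
  rw [e]
  ring



private theorem ca1_rescale_C (a b : MC) :
    PowerSeries.rescale a (PowerSeries.C b) = PowerSeries.C b := by
  ext k
  rw [PowerSeries.coeff_rescale, PowerSeries.coeff_C]
  split_ifs with h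
  · rw [h, pow_zero, one_mul]
  · rw [mul_zero]

theorem zmot_adj_eq {N : ℕ} (I : Ideal (MvPolynomial (Fin N) ℂ)) :
    (1 - PowerSeries.C ((Lu⁻¹ : MCˣ) : MC) * PowerSeries.X) * Zmot (adjVar I) =
      (1 - PowerSeries.C ((Lu⁻¹ : MCˣ) : MC) * PowerSeries.X) *
        PowerSeries.C ((Lu ^ (-((N + 1 : ℕ) : ℤ)) : MCˣ) : MC) -
      (1 - PowerSeries.X) * (PowerSeries.C ((Lu⁻¹ : MCˣ) : MC) *
        (PowerSeries.C ((Lu ^ (-(N : ℤ)) : MCˣ) : MC) -
          PowerSeries.rescale ((Lu⁻¹ : MCˣ) : MC) (Zmot I))) := by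
  obtain ⟨Γ₀, hΓ₀⟩ : ∃ Γ₀ : Set (Empty ⊕ Fin (N + 1) → ℂ), Γ₀ = {0} := ⟨_, rfl⟩
  have hΓ0 : Constr Γ₀ := by
    rw [hΓ₀]
    exact constr_singleton _
  have hw : {w : Empty ⊕ Fin N → ℂ | ca1e w ∈ Γ₀} = {0} := by
    ext w
    rw [hΓ₀]
    simp only [Set.mem_ofPred_eq, Set.mem_singleton_iff]
    constructor
    · intro hw
      rw [← ca1_re w, hw]
      funext s
      rcases s with s | i
      · rfl
      · rfl
    · rintro rfl
      funext s
      rcases s with s | i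
      · rfl
      · show (Fin.snoc (α := fun _ => ℂ) (fun _ => (0 : ℂ)) 0 : Fin (N + 1) → ℂ) i = 0
        induction i using Fin.lastCases with
        | last => rw [Fin.snoc_last]
        | cast i => rw [Fin.snoc_castSucc]
  have hZ0 : Zf (adjVar I) Γ₀ = Zmot (adjVar I) := by
    rw [Zf_zero (adjVar I) hΓ0 (by
      rw [hΓ₀]
      intro z hz i
      rw [Set.mem_singleton_iff.mp hz]
      rfl), hΓ₀, cls_singleton, map_one, map_one, one_mul]
  have hZ1 : Zf I {w : Empty ⊕ Fin N → ℂ | ca1e w ∈ Γ₀} = Zmot I := by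
    rw [Zf_zero I (ca1_constr' hΓ0) (by
      rw [hw]
      intro z hz i
      rw [Set.mem_singleton_iff.mp hz]
      rfl), hw, cls_singleton, map_one, map_one, one_mul]
  have h1 := ca1_tel I (ca1_constr' hΓ0)
  have h2 := ca1_tel (adjVar I) hΓ0
  rw [hZ1, hw, cls_singleton, map_one, one_mul] at h1
  rw [hZ0, hΓ₀, cls_singleton, map_one, one_mul] at h2
  have h3 := ca1_g I hΓ0
  rw [hw, hΓ₀] at h3
  rw [h3] at h2
  have h4 := congrArg (PowerSeries.rescale ((Lu⁻¹ : MCˣ) : MC)) h1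
  rw [map_mul, map_sub, map_sub, map_one, PowerSeries.rescale_X, ca1_rescale_C] at h4
  linear_combination (1 - PowerSeries.C ((Lu⁻¹ : MCˣ) : MC) * PowerSeries.X) * h2 -
    (1 - PowerSeries.X) * PowerSeries.C ((Lu⁻¹ : MCˣ) : MC) * h4

theorem polar_adj_iff {N : ℕ} (I : Ideal (MvPolynomial (Fin N) ℂ)) {s₀ : ℚ}
    (hs : ∀ z : ℤ, s₀ ≠ z) : Zmot I ∈ polarRing s₀ ↔ Zmot (adjVar I) ∈ polarRing (s₀ - 1) := by
  have hs0 : s₀ ≠ 0 := by exact_mod_cast hs 0
  have hs1 : s₀ ≠ 1 := by exact_mod_cast hs 1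
  constructor
  · intro h
    refine zmot_adj (s₀ := s₀ - 1) ?_ I ?_
    · rw [sub_add_cancel]
      exact hs0
    · rw [sub_add_cancel]
      exact h
  · intro h
    have hX : (PowerSeries.X : PowerSeries MC) ∈ polarRing (s₀ - 1) := by
      have h1 := X_pow_mem_polar (s₀ - 1) 1
      rwa [pow_one] at h1
    have hLi := C_mem_polar (s₀ - 1) ((Lu⁻¹ : MCˣ) : MC)
    have hA : (1 - PowerSeries.C ((Lu⁻¹ : MCˣ) : MC) * PowerSeries.X : PowerSeries MC) ∈
        polarRing (s₀ - 1) := sub_mem (one_mem _) (mul_mem hLi hX)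
    have hB : (1 - PowerSeries.X : PowerSeries MC) ∈ polarRing (s₀ - 1) :=
      sub_mem (one_mem _) hX
    have e1 := zmot_adj_eq I
    have hinv : PowerSeries.C ((Lu : MCˣ) : MC) * PowerSeries.C ((Lu⁻¹ : MCˣ) : MC) =
        (1 : PowerSeries MC) := by
      rw [← map_mul, Units.mul_inv, map_one]
    have e2 : PowerSeries.rescale ((Lu⁻¹ : MCˣ) : MC) (Zmot I) *
        (1 - PowerSeries.C ((Lu ^ (-(0 : ℤ)) : MCˣ) : MC) * PowerSeries.X ^ 1) =
        PowerSeries.C ((Lu : MCˣ) : MC) *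
          ((1 - PowerSeries.C ((Lu⁻¹ : MCˣ) : MC) * PowerSeries.X) * Zmot (adjVar I) -
          (1 - PowerSeries.C ((Lu⁻¹ : MCˣ) : MC) * PowerSeries.X) *
            PowerSeries.C ((Lu ^ (-((N + 1 : ℕ) : ℤ)) : MCˣ) : MC) +
          (1 - PowerSeries.X) * (PowerSeries.C ((Lu⁻¹ : MCˣ) : MC) *
            PowerSeries.C ((Lu ^ (-(N : ℤ)) : MCˣ) : MC))) := by
      rw [e1, neg_zero, zpow_zero, Units.val_one, map_one, one_mul, pow_one]
      linear_combination (-(PowerSeries.rescale ((Lu⁻¹ : MCˣ) : MC) (Zmot I) *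
        (1 - PowerSeries.X))) * hinv
    have h1 : PowerSeries.rescale ((Lu⁻¹ : MCˣ) : MC) (Zmot I) ∈ polarRing (s₀ - 1) := by
      refine mem_polar_of_mul (s₀ - 1) 0 1 Nat.one_pos ?_ _ ?_
      · rw [Int.cast_zero, neg_zero, zero_div]
        intro h2
        exact hs1 (by linarith)
      · rw [e2]
        refine mul_mem (C_mem_polar _ _) (add_mem (sub_mem (mul_mem hA h)
          (mul_mem hA (C_mem_polar _ _))) (mul_mem hB (mul_mem hLi (C_mem_polar _ _))))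
    have h2 := CB.polar_rescale h1
    rw [PowerSeries.rescale_rescale, Units.inv_mul, PowerSeries.rescale_one] at h2
    exact h2

end CX
end MotMono
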