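import Pool.Agent.Lib.MP_4e5fcd_ag.CX.A0
import Pool.Agent.Lib.MP_4e5fcd_ag.HY.B2
import Pool.Agent.Lib.MP_4e5fcd_ag.HY.A4
import Pool.Agent.Lib.MP_4e5fcd_ag.TV.Y1

/-!
# CX-A2: the contact jets of the tuple `(f_1, …, f_r, z)`

`chi_CT_adj`: for `d ≥ 1` the jets of `CT (adjT f) P w d` are the pairs of a jet of
`CT f (P ∘ castSucc) (w ∘ castSucc) d` and the jet `w_r t ^ d` of the last variable
(`adjT_castSucc`, `adjT_last`, `TV.along_castSucc`; the coefficients of `along (X (last n)) z` are the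
`z (last n, l)`, see the private lemma `y1_coeff_X` in TV/Y1), if `P (last n) = 0` (as `d ≥ 1`); so
`cls_iso` (`constr_CT`; projection; inverse: add the coordinates `if (l : ℕ) = d then w (last r) else 0`;
compare `y1_cls` in TV/Y1 and `chi_CT_hyp` in CB/A4).

`chi_CT_zero`: `E = CT f p 0 d` is stable under `γ ↦ c^l γ(·, l)` (`vec_scale`, `to_scale`, HY/B2) and
contains the constant jet `fun q => if q.2 = 0 then p q.1 else 0` (for `d > 0` by `vec_const`-like
computation: `vec f l` of it is `0` for `l > 0` and `eval p (f j) = 0` for `l = 0`). `E \ {constant jet}`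
has `χ = 0` by `chi_scale` (HY/B2), so `χ (cls E) = χ (cls {constant jet}) = 1` (`cls_diff`, `constr_CT`,
`constr_singleton`, `cls_singleton`).
-/

open MvPolynomial

namespace MotMono
namespace CX

open CN HY CB

variable {n r : ℕ}

/-- the jet with the last coordinate `w t ^ d` -/
private def a2ext (w : ℂ) {d : ℕ} (γ : Fin n × Fin (d + 1) → ℂ) : Fin (n + 1) × Fin (d + 1) → ℂ :=
  fun q => Fin.snoc (α := fun _ => ℂ) (fun i => γ (i, q.2)) (if (q.2 : ℕ) = d then w else 0) q.1

private theorem a2ext_castSucc (w : ℂ) {d : ℕ} (γ : Fin n × Fin (d + 1) → ℂ) (i : Fin n)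
    (l : Fin (d + 1)) : a2ext w γ (i.castSucc, l) = γ (i, l) := by
  simp [a2ext]

private theorem a2ext_last (w : ℂ) {d : ℕ} (γ : Fin n × Fin (d + 1) → ℂ) (l : Fin (d + 1)) :
    a2ext w γ (Fin.last n, l) = if (l : ℕ) = d then w else 0 := by
  simp [a2ext]

private theorem a2_coeff_X {N n : ℕ} (γ : Fin (N + 1) × Fin n → ℂ) (l : ℕ) (hl : l < n) :
    (along (X (Fin.last N)) γ).coeff l = γ (Fin.last N, ⟨l, hl⟩) := by
  unfold along arc
  rw [aeval_X, Polynomial.finsetSum_coeff, Finset.sum_eq_single ⟨l, hl⟩]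
  · rw [Polynomial.coeff_C_mul, Polynomial.coeff_X_pow]
    simp
  · intro b _ hb
    rw [Polynomial.coeff_C_mul, Polynomial.coeff_X_pow, if_neg, mul_zero]
    intro h
    exact hb (Fin.ext h.symm)
  · intro h
    exact absurd (Finset.mem_univ _) h

private theorem a2_mem (f : Fin r → MvPolynomial (Fin n) ℂ) (P : Fin (n + 1) → ℂ)
    (hP : P (Fin.last n) = 0) (w : Fin (r + 1) → ℂ) {d : ℕ} (hd : 0 < d)
    (z : Fin (n + 1) × Fin (d + 1) → ℂ) :
    z ∈ CT (adjT f) P w d ↔
      (fun q : Fin n × Fin (d + 1) => z (q.1.castSucc, q.2)) ∈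
        CT f (fun i => P i.castSucc) (fun j => w j.castSucc) d ∧
        ∀ l, z (Fin.last n, l) = if (l : ℕ) = d then w (Fin.last r) else 0 := by
  constructor
  · rintro ⟨h1, h2, h3⟩
    refine ⟨⟨?_, ?_, ?_⟩, ?_⟩
    · funext i
      exact congrFun h1 i.castSucc
    · intro j l hl
      have h4 := h2 j.castSucc l hl
      rwa [adjT_castSucc, TV.along_castSucc] at h4
    · funext j
      have h4 := congrFun h3 j.castSucc
      unfold vec at h4 ⊢
      rwa [adjT_castSucc, TV.along_castSucc] at h4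
    · intro l
      have h4 := a2_coeff_X z l l.2
      split_ifs with h5
      · have h6 := congrFun h3 (Fin.last r)
        unfold vec at h6
        rw [adjT_last] at h6
        have h7 : (along (X (Fin.last n)) z).coeff (l : ℕ) = (along (X (Fin.last n)) z).coeff d := by
          rw [h5]
        exact h4.symm.trans (h7.trans h6)
      · have h6 := h2 (Fin.last r) l (by have := l.2; omega)
        rw [adjT_last, h4] at h6
        exact h6
  · rintro ⟨⟨h1, h2, h3⟩, h4⟩
    refine ⟨?_, ?_, ?_⟩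
    · funext i
      refine Fin.lastCases ?_ (fun j => ?_) i
      · rw [hP]
        have h5 := h4 0
        rw [if_neg (by simp; omega)] at h5
        exact h5
      · exact congrFun h1 j
    · intro j l hl
      refine Fin.lastCases ?_ (fun j => ?_) j
      · rw [adjT_last, a2_coeff_X z l (by omega), h4, if_neg (by simp; omega)]
      · rw [adjT_castSucc, TV.along_castSucc]
        exact h2 j l hl
    · funext j
      refine Fin.lastCases ?_ (fun j => ?_) j
      · unfold vec
        rw [adjT_last, a2_coeff_X z d (by omega), h4, if_pos rfl]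
      · unfold vec
        rw [adjT_castSucc, TV.along_castSucc]
        exact congrFun h3 j

theorem chi_CT_adj (χ : K0 →+* ℤ) (f : Fin r → MvPolynomial (Fin n) ℂ) (P : Fin (n + 1) → ℂ)
    (hP : P (Fin.last n) = 0) (w : Fin (r + 1) → ℂ) {d : ℕ} (hd : 0 < d) :
    χ (cls (CT (adjT f) P w d)) =
      χ (cls (CT f (fun i => P i.castSucc) (fun j => w j.castSucc) d)) := by
  congr 1
  refine cls_iso (constr_CT _ _ _ _) (constr_CT _ _ _ _) ?_
  refine ⟨fun z q => z (q.1.castSucc, q.2), fun y => a2ext (w (Fin.last r)) y, fun j => ?_,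
    fun j => ?_, fun x hx => ?_, fun y hy => ?_, fun x hx => ?_, fun y hy => ?_⟩
  · exact regFun_coord _ (j.1.castSucc, j.2)
  · obtain ⟨i, l⟩ := j
    refine Fin.lastCases ?_ (fun k => ?_) i
    · have h1 : (fun y : Fin n × Fin (d + 1) → ℂ => a2ext (w (Fin.last r)) y (Fin.last n, l)) =
          fun _ => if (l : ℕ) = d then w (Fin.last r) else 0 := by
        funext y
        exact a2ext_last _ y l
      rw [h1]
      exact regFun_const _ _
    · have h1 : (fun y : Fin n × Fin (d + 1) → ℂ => a2ext (w (Fin.last r)) y (k.castSucc, l)) =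
          fun y => y (k, l) := by
        funext y
        exact a2ext_castSucc _ y k l
      rw [h1]
      exact regFun_coord _ (k, l)
  · exact ((a2_mem f P hP w hd x).1 hx).1
  · refine (a2_mem f P hP w hd _).2 ⟨?_, fun l => a2ext_last _ y l⟩
    have h1 : (fun q : Fin n × Fin (d + 1) => a2ext (w (Fin.last r)) y (q.1.castSucc, q.2)) = y := by
      funext q
      exact a2ext_castSucc _ y q.1 q.2
    rw [h1]
    exact hy
  · have h1 := ((a2_mem f P hP w hd x).1 hx).2
    funext q
    obtain ⟨i, l⟩ := q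
    refine Fin.lastCases ?_ (fun k => ?_) i
    · exact (a2ext_last _ _ l).trans (h1 l).symm
    · exact a2ext_castSucc _ _ k l
  · funext q
    exact a2ext_castSucc _ y q.1 q.2

/-- the constant jet -/
private def a2c (p : Fin n → ℂ) (d : ℕ) : Fin n × Fin (d + 1) → ℂ :=
  fun q => if q.2 = 0 then p q.1 else 0

private theorem a2_const (f : Fin r → MvPolynomial (Fin n) ℂ) (p : Fin n → ℂ)
    (hp : ∀ j, eval p (f j) = 0) (d l : ℕ) (j : Fin r) : (along (f j) (a2c p d)).coeff l = 0 := by
  rcases Nat.eq_zero_or_pos l with hl | hl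
  · rw [hl, LF.coeff_along_zero]
    have h1 : (fun i => a2c p d (i, 0)) = p := by
      funext i
      exact if_pos rfl
    rw [h1]
    exact hp j
  · exact congrFun (vec_const (n := d) hl f p) j

private theorem a2_scale {d : ℕ} {c : ℂ} (hc : c ≠ 0) {γ : Fin n × Fin (d + 1) → ℂ} {p : Fin n → ℂ}
    (h : (fun q : Fin n × Fin (d + 1) => c ^ (q.2 : ℕ) * γ q) = a2c p d) : γ = a2c p d := by
  funext q
  have h1 := congrFun h q
  simp only [a2c] at h1 ⊢
  by_cases hq : q.2 = 0
  · rw [if_pos hq] at h1 ⊢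
    rw [hq] at h1
    simpa using h1
  · rw [if_neg hq] at h1 ⊢
    rcases mul_eq_zero.1 h1 with h2 | h2
    · exact absurd h2 (pow_ne_zero _ hc)
    · exact h2

theorem chi_CT_zero {χ : K0 →+* ℤ} (hχ : IsEulerCharF χ) (f : Fin r → MvPolynomial (Fin n) ℂ)
    (p : Fin n → ℂ) (hp : ∀ j, eval p (f j) = 0) (d : ℕ) : χ (cls (CT f p 0 d)) = 1 := by
  have hsub : ({a2c p d} : Set (Fin n × Fin (d + 1) → ℂ)) ⊆ CT f p 0 d := by
    intro γ hγ
    rw [Set.mem_singleton_iff.1 hγ]
    refine ⟨?_, fun j l _ => a2_const f p hp d l j, ?_⟩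
    · funext i
      show (if (0 : Fin (d + 1)) = 0 then p i else 0) = p i
      exact if_pos rfl
    · funext j
      exact a2_const f p hp d d j
  have h1 : χ (cls (CT f p 0 d \ {a2c p d})) = 0 := by
    refine chi_scale hχ (p := p) ((constr_CT _ _ _ _).diff (constr_singleton _))
      (fun γ hγ => hγ.1.1) ?_ ?_
    · rintro c hc γ ⟨⟨h2, h3, h4⟩, h5⟩
      refine ⟨⟨?_, to_scale f c h3, ?_⟩, fun h6 => h5 ?_⟩
      · rw [← h2]
        funext i
        show c ^ ((0 : Fin (d + 1)) : ℕ) * γ (i, 0) = γ (i, 0)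
        simp
      · rw [vec_scale, h4, smul_zero]
      · exact a2_scale hc h6
    · rintro ⟨-, h2⟩
      exact h2 rfl
  rw [cls_diff (constr_CT _ _ _ _) (constr_singleton _) hsub, map_sub, cls_singleton, map_one] at h1
  exact sub_eq_zero.1 h1

end CX
end MotMono
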