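import Pool.Agent.Lib.MP_4e5fcd_ag.CX.A2
import Pool.Agent.Lib.MP_4e5fcd_ag.CB.A1
import Pool.Agent.Lib.MP_4e5fcd_ag.CB.A3

/-!
# CX-A2b: a new variable as a generator: visible values, both directions

`I` is the span of a finite tuple `f` (as in `nearK_of_near`, CB/P1); `adjVar I` is the span of `adjT f`
(`span_adjT`, CX/A0); `visK_iff_vt` (CB/A1).
`nearK_adj`: given `ε`, the `K₀` of `hn`; for `K` the point `p` and the vector `v ≠ 0`; the point
`Fin.snoc p 0` and the vector `Fin.snoc v 0`, `chi_CT_adj` (see `near_adj` in TV/Y1 for the norm;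
`Fin.snoc_castSucc`, `Fin.snoc_last`).
`nearK_of_adj`: given `ε`, `K₀` of `hn`, use `K₀ * M`; `lam ^ K = 1`; the point `P` and the vector
`w ≠ 0` with `∑ lam ^ d χ (CT (adjT f) P w d) ≠ 0`. Some `CT (adjT f) P w d` with `1 ≤ d ≤ K` is not empty
(`cls_empty`), so (coefficient `0`, `LF.coeff_along_zero`) `P (last n) = 0` and
`eval (P ∘ castSucc) (f j) = 0`. If `w ∘ castSucc ≠ 0`: the point `P ∘ castSucc` (norm:
`pi_norm_lt_iff`) and the vector `w ∘ castSucc`, `chi_CT_adj`. If `w ∘ castSucc = 0`, the sum is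
`∑ lam ^ d = 0` (`chi_CT_adj`, `chi_CT_zero`, `sum_Icc_pow_eq_zero`, CB/A3).
-/

open MvPolynomial

namespace MotMono
namespace CX

open CN HY CB

variable {n : ℕ}

private theorem A2b_tuple (I : Ideal (MvPolynomial (Fin n) ℂ)) :
    ∃ (r : ℕ) (f : Fin r → MvPolynomial (Fin n) ℂ), Ideal.span (Set.range f) = I := by
  classical
  obtain ⟨S, hS⟩ := (isNoetherianRing_iff_ideal_fg (MvPolynomial (Fin n) ℂ)).1 inferInstance I
  refine ⟨S.card, fun j => (S.equivFin.symm j : MvPolynomial (Fin n) ℂ), ?_⟩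
  rw [← hS]
  congr 1
  ext g
  constructor
  · rintro ⟨j, rfl⟩
    exact (S.equivFin.symm j).2
  · intro hg
    exact ⟨S.equivFin ⟨g, hg⟩, by simp⟩

private theorem A2b_exists {N : ℕ} {χ : K0 →+* ℤ} (S : (d : ℕ) → Set (Fin N × Fin (d + 1) → ℂ))
    (lam : ℂ) (K : ℕ)
    (h : ∑ d ∈ Finset.Icc 1 K, lam ^ d * ((χ (cls (S d)) : ℤ) : ℂ) ≠ 0) :
    ∃ d, 1 ≤ d ∧ (S d).Nonempty := by
  by_contra hcon
  push Not at hcon
  apply h
  refine Finset.sum_eq_zero fun d hd => ?_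
  rw [hcon d (Finset.mem_Icc.1 hd).1, cls_empty, map_zero, Int.cast_zero, mul_zero]

theorem nearK_adj {χ : K0 →+* ℤ} (hχ : IsEulerCharF χ) (I : Ideal (MvPolynomial (Fin n) ℂ))
    {lam : ℂ} (hn : NearK χ I 0 lam) : NearK χ (adjVar I) 0 lam := by
  obtain ⟨r, f, rfl⟩ := A2b_tuple I
  intro ε hε
  obtain ⟨K₀, hK₀, h⟩ := hn ε hε
  refine ⟨K₀, hK₀, fun K hK hd => ?_⟩
  obtain ⟨p, hp, hv⟩ := h K hK hd
  refine ⟨Fin.snoc (α := fun _ => ℂ) p 0, ?_, ?_⟩
  · rw [sub_zero] at hp ⊢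
    rw [pi_norm_lt_iff hε] at hp ⊢
    intro i
    refine Fin.lastCases ?_ (fun j => ?_) i
    · rw [Fin.snoc_last, norm_zero]
      exact hε
    · rw [Fin.snoc_castSucc]
      exact hp j
  · rw [visK_iff_vt] at hv
    rw [← span_adjT, visK_iff_vt]
    obtain ⟨v, hv0, hs⟩ := hv
    refine ⟨Fin.snoc (α := fun _ => ℂ) v 0, ?_, ?_⟩
    · intro h0
      apply hv0
      funext j
      have := congrFun h0 j.castSucc
      rw [Fin.snoc_castSucc] at this
      exact this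
    · intro h0
      apply hs
      rw [← h0]
      refine Finset.sum_congr rfl fun d hd => ?_
      rw [chi_CT_adj χ f _ (by rw [Fin.snoc_last]) _ (Finset.mem_Icc.1 hd).1]
      simp only [Fin.snoc_castSucc]

theorem nearK_of_adj {χ : K0 →+* ℤ} (hχ : IsEulerCharF χ) (I : Ideal (MvPolynomial (Fin n) ℂ))
    {lam : ℂ} (h1 : lam ≠ 1) {M : ℕ} (hM : 0 < M) (hl : lam ^ M = 1)
    (hn : NearK χ (adjVar I) 0 lam) : NearK χ I 0 lam := by
  obtain ⟨r, f, rfl⟩ := A2b_tuple I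
  intro ε hε
  obtain ⟨K₀, hK₀, h⟩ := hn ε hε
  refine ⟨K₀ * M, Nat.mul_pos hK₀ hM, fun K hK hd => ?_⟩
  obtain ⟨P, hP, hv⟩ := h K hK ((Dvd.intro _ rfl).trans hd)
  have hlK : lam ^ K = 1 := by
    obtain ⟨c, rfl⟩ := (Dvd.intro_left K₀ rfl : M ∣ K₀ * M).trans hd
    rw [pow_mul, hl, one_pow]
  rw [← span_adjT, visK_iff_vt] at hv
  obtain ⟨w, hw0, hs⟩ := hv
  obtain ⟨d₀, hd₀, γ, hγ⟩ := A2b_exists _ _ _ hs
  obtain ⟨hbp, hto, -⟩ := hγ
  have hc : ∀ k, eval P (adjT f k) = 0 := by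
    intro k
    rw [← hto k 0 (by omega), LF.coeff_along_zero, ← hbp]
    rfl
  have hPl : P (Fin.last n) = 0 := by
    have := hc (Fin.last r)
    rw [adjT_last, eval_X] at this
    exact this
  have hPc : ∀ j, eval (fun i => P i.castSucc) (f j) = 0 := by
    intro j
    have := hc j.castSucc
    rw [adjT_castSucc, eval_rename] at this
    exact this
  have hsum : ∑ d ∈ Finset.Icc 1 K, lam ^ d *
      ((χ (cls (CT f (fun i => P i.castSucc) (fun j => w j.castSucc) d)) : ℤ) : ℂ) ≠ 0 := by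
    intro h0
    apply hs
    rw [← h0]
    refine Finset.sum_congr rfl fun d hd => ?_
    rw [chi_CT_adj χ f _ hPl _ (Finset.mem_Icc.1 hd).1]
  by_cases hw : (fun j : Fin r => w j.castSucc) = 0
  · exfalso
    apply hsum
    rw [hw, ← sum_Icc_pow_eq_zero h1 hlK]
    refine Finset.sum_congr rfl fun d _ => ?_
    rw [chi_CT_zero hχ f _ hPc d, Int.cast_one, mul_one]
  · refine ⟨fun i => P i.castSucc, ?_, ?_⟩
    · rw [sub_zero] at hP ⊢
      rw [pi_norm_lt_iff hε] at hP ⊢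
      exact fun i => hP i.castSucc
    · rw [visK_iff_vt]
      exact ⟨_, hw, hsum⟩

end CX
end MotMono
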