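import Pool.Agent.Lib.MP_4e5fcd_ag.CB.A1
import Pool.Agent.Lib.MP_4e5fcd_ag.HY.C3

/-!
# CX-A3: visible values of the hypersurface `∑ j, Y_j f_j` at the origin

Given `ε`, take the `K₀` of `hn ε`; for `K` let `p`, `‖p‖ < ε`, `VisK χ (span (range f)) p lam K`, i.e.
(`visK_iff_vt`, CB/A1) `v₀ ≠ 0` with `∑_{d ∈ Icc 1 K} lam ^ d χ (CT f p v₀ d) ≠ 0`. Some `CT f p v₀ d`, `d ≥ 1`, is not
empty, so `eval p (f j) = 0` for all `j` (coefficient `0` of `along (f j) γ`, `LF.coeff_along_zero`).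
By contraposition of `radon` (HY/B4) with `s = 1`, `w = fun _ => 1`, `S = Icc 1 K`, `W d = lam ^ d` there is
`C` with `∑ lam ^ d χ (RR f p C w d) ≠ 0`. As in the proof of `vis_gen` (HY/C3): choose `c ≠ 0` with
`‖(c • C) i j‖ < ε`; `RR f p (c • C) (c • w) d = RR f p C w d` (`RR_smul`), and
`χ (CT (gen f 1) (pt p (c • C)) (c • w) d) = χ (RR f p (c • C) (c • w) d)` (`chi_CT_gen_zero`, HY/B2). So
`VT χ (gen f 1) (pt p (c • C)) lam K` with the vector `c • w ≠ 0`, and `visK_iff_vt`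
(`linGen f 1 = span (range (gen f 1))`, `rfl`); `norm_pt_lt` (HY/A1).
-/

open MvPolynomial Matrix

namespace MotMono
namespace CX

open CN HY CB

theorem nearK_lin {N r : ℕ} {χ : K0 →+* ℤ} (hχ : IsEulerCharF χ)
    (f : Fin r → MvPolynomial (Fin N) ℂ) {lam : ℂ}
    (hn : NearK χ (Ideal.span (Set.range f)) 0 lam) : NearK χ (linGen f 1) 0 lam := by
  intro ε hε
  obtain ⟨K₀, hK₀, h⟩ := hn ε hε
  refine ⟨K₀, hK₀, fun K hK hd => ?_⟩
  obtain ⟨p, hpn, hv⟩ := h K hK hd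
  rw [sub_zero] at hpn
  rw [visK_iff_vt] at hv
  obtain ⟨v₀, hv₀, hne⟩ := hv
  have hp : ∀ j, eval p (f j) = 0 := by
    have h1 : ∃ d, 1 ≤ d ∧ (CT f p v₀ d).Nonempty := by
      by_contra hcon
      push Not at hcon
      apply hne
      refine Finset.sum_eq_zero fun d hd => ?_
      rw [hcon d (Finset.mem_Icc.1 hd).1, cls_empty, map_zero, Int.cast_zero, mul_zero]
    obtain ⟨d, hd, γ, hb, hT, _⟩ := h1
    intro j
    have h2 := hT j 0 (by omega)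
    rw [LF.coeff_along_zero] at h2
    rw [← hb]
    exact h2
  have hw : (fun _ : Fin 1 => (1 : ℂ)) ≠ 0 := fun h => one_ne_zero (congrFun h 0)
  obtain ⟨C, hC⟩ : ∃ C : Matrix (Fin 1) (Fin r) ℂ, ∑ e ∈ Finset.Icc 1 K, lam ^ e *
      ((χ (cls (RR f p C (fun _ : Fin 1 => (1 : ℂ)) e)) : ℤ) : ℂ) ≠ 0 := by
    by_contra hcon
    push Not at hcon
    exact hne (radon hχ f p hv₀ hw (Finset.Icc 1 K) (fun e he => (Finset.mem_Icc.1 he).1)
      (fun m => lam ^ m) hcon)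
  obtain ⟨c, hc0, hcC⟩ : ∃ c : ℂ, c ≠ 0 ∧ ∀ i j, ‖(c • C) i j‖ < ε := by
    have hB : 0 < (∑ i, ∑ j, ‖C i j‖) + 1 :=
      add_pos_of_nonneg_of_pos (Finset.sum_nonneg fun i _ => Finset.sum_nonneg fun j _ =>
        norm_nonneg _) one_pos
    have hc : 0 < ε / ((∑ i, ∑ j, ‖C i j‖) + 1) := div_pos hε hB
    refine ⟨((ε / ((∑ i, ∑ j, ‖C i j‖) + 1) : ℝ) : ℂ), ?_, fun i j => ?_⟩
    · exact_mod_cast hc.ne'
    · have h1 : ‖C i j‖ ≤ ∑ i, ∑ j, ‖C i j‖ :=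
        (Finset.single_le_sum (f := fun j => ‖C i j‖) (fun j _ => norm_nonneg _)
          (Finset.mem_univ j)).trans
        (Finset.single_le_sum (f := fun i => ∑ j, ‖C i j‖) (fun i _ => Finset.sum_nonneg
          fun j _ => norm_nonneg _) (Finset.mem_univ i))
      rw [Matrix.smul_apply, smul_eq_mul, norm_mul, Complex.norm_real, Real.norm_eq_abs,
        abs_of_pos hc, div_mul_eq_mul_div, div_lt_iff₀ hB]
      exact mul_lt_mul_of_pos_left (by linarith) hε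
  refine ⟨pt p (c • C), ?_, ?_⟩
  · rw [sub_zero]
    exact (norm_pt_lt p (c • C) hε).2 ⟨hpn, hcC⟩
  · have e1 : linGen f 1 = Ideal.span (Set.range (gen f 1)) := rfl
    rw [e1, visK_iff_vt]
    refine ⟨c • fun _ : Fin 1 => (1 : ℂ), smul_ne_zero hc0 hw, ?_⟩
    intro h0
    apply hC
    rw [← h0]
    refine Finset.sum_congr rfl fun m _ => ?_
    rw [chi_CT_gen_zero hχ f p _ _ hp, RR_smul f p C _ m hc0]

end CX
end MotMono
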