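import Pool.Agent.Lib.MP_4e5fcd_ag.CX.A1
import Pool.Agent.Lib.MP_4e5fcd_ag.CB.B6
import Pool.Agent.Lib.MP_4e5fcd_ag.HY.A9

/-!
# CX-A4: multiples of zeta functions
-/

open MvPolynomial

namespace MotMono
namespace CX

open CN HY TV CB

private theorem a4_rescale_C (q a : MC) : PowerSeries.rescale q (PowerSeries.C a) = PowerSeries.C a := by
  ext k
  rw [PowerSeries.coeff_rescale, PowerSeries.coeff_C]
  split_ifs with h
  · rw [h, pow_zero, one_mul]
  · rw [mul_zero]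

theorem polar_adj_mul {N : ℕ} (I : Ideal (MvPolynomial (Fin N) ℂ)) (a : MC) {s₀ : ℚ}
    (hs : ∀ z : ℤ, s₀ ≠ z) : PowerSeries.C a * Zmot I ∈ polarRing s₀ ↔
      PowerSeries.C a * Zmot (adjVar I) ∈ polarRing (s₀ - 1) := by
  have hs0 : s₀ ≠ 0 := by exact_mod_cast hs 0
  have hs1 : s₀ ≠ 1 := by exact_mod_cast hs 1
  have hX : (PowerSeries.X : PowerSeries MC) ∈ polarRing (s₀ - 1) := by
    have h1 := X_pow_mem_polar (s₀ - 1) 1
    rwa [pow_one] at h1
  have hLi := C_mem_polar (s₀ - 1) ((Lu⁻¹ : MCˣ) : MC)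
  have ha := C_mem_polar (s₀ - 1) a
  have hA : (1 - PowerSeries.C ((Lu⁻¹ : MCˣ) : MC) * PowerSeries.X : PowerSeries MC) ∈
      polarRing (s₀ - 1) := sub_mem (one_mem _) (mul_mem hLi hX)
  have hB : (1 - PowerSeries.X : PowerSeries MC) ∈ polarRing (s₀ - 1) :=
    sub_mem (one_mem _) hX
  have e1 := zmot_adj_eq I
  have hinv : PowerSeries.C ((Lu : MCˣ) : MC) * PowerSeries.C ((Lu⁻¹ : MCˣ) : MC) =
      (1 : PowerSeries MC) := by
    rw [← map_mul, Units.mul_inv, map_one]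
  constructor
  · intro h
    have h1 := CB.polar_rescale_inv h
    rw [map_mul, a4_rescale_C] at h1
    refine mem_polar_of_mul (s₀ - 1) 1 1 Nat.one_pos ?_ _ ?_
    · rw [Int.cast_one, Nat.cast_one, div_one]
      intro h2
      exact hs0 (by linarith)
    · have e2 : PowerSeries.C a * Zmot (adjVar I) *
          (1 - PowerSeries.C ((Lu ^ (-(1 : ℤ)) : MCˣ) : MC) * PowerSeries.X ^ 1) =
          (1 - PowerSeries.C ((Lu⁻¹ : MCˣ) : MC) * PowerSeries.X) *
            (PowerSeries.C a * PowerSeries.C ((Lu ^ (-((N + 1 : ℕ) : ℤ)) : MCˣ) : MC)) -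
          (1 - PowerSeries.X) * (PowerSeries.C ((Lu⁻¹ : MCˣ) : MC) *
            (PowerSeries.C a * PowerSeries.C ((Lu ^ (-(N : ℤ)) : MCˣ) : MC) -
              PowerSeries.C a * PowerSeries.rescale ((Lu⁻¹ : MCˣ) : MC) (Zmot I))) := by
        rw [zpow_neg, zpow_one, pow_one]
        linear_combination PowerSeries.C a * e1
      rw [e2]
      exact sub_mem (mul_mem hA (mul_mem ha (C_mem_polar _ _)))
        (mul_mem hB (mul_mem hLi (sub_mem (mul_mem ha (C_mem_polar _ _)) h1)))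
  · intro h
    have e2 : PowerSeries.C a * PowerSeries.rescale ((Lu⁻¹ : MCˣ) : MC) (Zmot I) *
        (1 - PowerSeries.C ((Lu ^ (-(0 : ℤ)) : MCˣ) : MC) * PowerSeries.X ^ 1) =
        PowerSeries.C ((Lu : MCˣ) : MC) *
          ((1 - PowerSeries.C ((Lu⁻¹ : MCˣ) : MC) * PowerSeries.X) *
            (PowerSeries.C a * Zmot (adjVar I)) -
          (1 - PowerSeries.C ((Lu⁻¹ : MCˣ) : MC) * PowerSeries.X) *
            (PowerSeries.C a * PowerSeries.C ((Lu ^ (-((N + 1 : ℕ) : ℤ)) : MCˣ) : MC)) +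
          (1 - PowerSeries.X) * (PowerSeries.C ((Lu⁻¹ : MCˣ) : MC) *
            (PowerSeries.C a * PowerSeries.C ((Lu ^ (-(N : ℤ)) : MCˣ) : MC)))) := by
      rw [neg_zero, zpow_zero, Units.val_one, map_one, one_mul, pow_one]
      linear_combination (-(PowerSeries.C a *
        PowerSeries.rescale ((Lu⁻¹ : MCˣ) : MC) (Zmot I) *
        (1 - PowerSeries.X))) * hinv - PowerSeries.C ((Lu : MCˣ) : MC) * PowerSeries.C a * e1
    have h1 : PowerSeries.C a * PowerSeries.rescale ((Lu⁻¹ : MCˣ) : MC) (Zmot I) ∈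
        polarRing (s₀ - 1) := by
      refine mem_polar_of_mul (s₀ - 1) 0 1 Nat.one_pos ?_ _ ?_
      · rw [Int.cast_zero, neg_zero, zero_div]
        intro h2
        exact hs1 (by linarith)
      · rw [e2]
        refine mul_mem (C_mem_polar _ _) (add_mem (sub_mem (mul_mem hA h)
          (mul_mem hA (mul_mem ha (C_mem_polar _ _)))) (mul_mem hB (mul_mem hLi
            (mul_mem ha (C_mem_polar _ _)))))
    have h2 := CB.polar_rescale h1
    rw [map_mul, a4_rescale_C, PowerSeries.rescale_rescale, Units.inv_mul,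
      PowerSeries.rescale_one] at h2
    exact h2

theorem polar_of_X_mul {s₀ : ℚ} {Z : PowerSeries MC} (h : PowerSeries.X * Z ∈ polarRing s₀) :
    Z ∈ polarRing s₀ := by
  obtain ⟨D, hD, K, hK⟩ := exists_ubd h
  refine mem_of_ubd (K := K) hD fun k hk => ?_
  have h1 := hK (k + 1) (by omega)
  have e : D * (PowerSeries.X * Z) = PowerSeries.X * (D * Z) := by ring
  rw [e, PowerSeries.coeff_succ_X_mul] at h1
  exact h1

theorem polar_locPull_mul {N k : ℕ} {s₀ : ℚ} (a : MC) (I : Ideal (MvPolynomial (Fin N) ℂ))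
    (G : Ideal (MvPolynomial (Fin k) ℂ)) (h : LocPull I 0 G) :
    PowerSeries.C a * Zmot I ∈ polarRing s₀ ↔ PowerSeries.C a * Zmot G ∈ polarRing s₀ := by
  obtain ⟨u, hu⟩ := zmot_locPull_eq I G h
  constructor
  · intro h1
    have e : PowerSeries.C a * Zmot G = PowerSeries.C ((u⁻¹ : MCˣ) : MC) *
        (PowerSeries.C a * Zmot I) := by
      have e1 : PowerSeries.C ((u⁻¹ : MCˣ) : MC) * PowerSeries.C ((u : MCˣ) : MC) =
          (1 : PowerSeries MC) := by
        rw [← map_mul, Units.inv_mul, map_one]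
      rw [hu]
      linear_combination (-(PowerSeries.C a * Zmot G)) * e1
    rw [e]
    exact Subring.mul_mem _ (C_mem_polar s₀ _) h1
  · intro h1
    have e : PowerSeries.C a * Zmot I = PowerSeries.C ((u : MCˣ) : MC) *
        (PowerSeries.C a * Zmot G) := by
      rw [hu]
      ring
    rw [e]
    exact Subring.mul_mem _ (C_mem_polar s₀ _) h1

/-- the poles of the hypersurface `∑ j, Y_j f_j` -/
theorem polar_lin_iff {N r : ℕ} (f : Fin r → MvPolynomial (Fin N) ℂ) {s₀ : ℚ}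
    (hs : ∀ z : ℤ, s₀ ≠ z) : Zmot (linGen f 1) ∈ polarRing s₀ ↔
      PowerSeries.C (((Lu : MCˣ) : MC) - 1) * Zmot (Ideal.span (Set.range f)) ∈ polarRing s₀ := by
  have e1 := zmot_gen f 1
  rw [Nat.cast_one] at e1
  have hs1 : -((1 : ℤ) : ℚ) / ((1 : ℕ) : ℚ) ≠ s₀ := by
    have := hs (-1)
    intro h
    apply this
    rw [← h]
    norm_num
  obtain ⟨v, hv⟩ : ∃ v : MCˣ, v = Lu ^ (-((1 * r : ℕ) : ℤ)) * Lu ^ (-(1 : ℤ)) := ⟨_, rfl⟩
  have e2 : (((Lu ^ (-((1 * r : ℕ) : ℤ)) : MCˣ) : MC) * (1 - ((Lu ^ (-(1 : ℤ)) : MCˣ) : MC))) =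
      (v : MC) * (((Lu : MCˣ) : MC) - 1) := by
    rw [hv, Units.val_mul]
    have e3 : ((Lu ^ (-(1 : ℤ)) : MCˣ) : MC) * ((Lu : MCˣ) : MC) = 1 := by
      rw [← Units.val_mul, zpow_neg, zpow_one, inv_mul_cancel, Units.val_one]
    linear_combination (-((Lu ^ (-((1 * r : ℕ) : ℤ)) : MCˣ) : MC)) * e3
  rw [e2, map_mul] at e1
  have hX : (PowerSeries.X : PowerSeries MC) ∈ polarRing s₀ := by
    have h1 := X_pow_mem_polar s₀ 1
    rwa [pow_one] at h1
  constructor
  · intro h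
    apply polar_of_X_mul
    have e4 : PowerSeries.C ((v⁻¹ : MCˣ) : MC) * PowerSeries.C (v : MC) = (1 : PowerSeries MC) := by
      rw [← map_mul, Units.inv_mul, map_one]
    have e5 : PowerSeries.X * (PowerSeries.C (((Lu : MCˣ) : MC) - 1) *
        Zmot (Ideal.span (Set.range f))) = PowerSeries.C ((v⁻¹ : MCˣ) : MC) *
          (Zmot (linGen f 1) * (1 - PowerSeries.C ((Lu ^ (-(1 : ℤ)) : MCˣ) : MC) *
            PowerSeries.X)) := by
      rw [e1]
      linear_combination (-(PowerSeries.C (((Lu : MCˣ) : MC) - 1) * PowerSeries.X *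
        Zmot (Ideal.span (Set.range f)))) * e4
    rw [e5]
    exact mul_mem (C_mem_polar _ _) (mul_mem h (sub_mem (one_mem _)
      (mul_mem (C_mem_polar _ _) hX)))
  · intro h
    refine mem_polar_of_mul s₀ 1 1 Nat.one_pos hs1 _ ?_
    rw [pow_one, e1]
    have e6 : PowerSeries.C (v : MC) * PowerSeries.C (((Lu : MCˣ) : MC) - 1) * PowerSeries.X *
        Zmot (Ideal.span (Set.range f)) = PowerSeries.C (v : MC) * PowerSeries.X *
          (PowerSeries.C (((Lu : MCˣ) : MC) - 1) * Zmot (Ideal.span (Set.range f))) := by ring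
    rw [e6]
    exact mul_mem (mul_mem (C_mem_polar _ _) hX) h

end CX
end MotMono
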