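import Pool.Agent.Lib.MP_4e5fcd_ag.CX.A0

/-!
# CX-C1: changing a tuple by means of a new variable

As `locPull_stp` (CB/C1), with one new variable. `φ (castSucc i) = X (castSucc i)`,
`φ (last n) = X (last n) - rename castSucc Q` (`Fin.snoc`). `aeval φ` fixes the polynomials
`rename castSucc P`. `LocPull` with `u = φ`, `e = id`, `h = 1`. By `hlast`, `aeval φ (g (last r)) = X (last n)`;
by `hg`, `g (castSucc j) = rename castSucc (f j) + a_j * g (last r)`, so
`aeval φ (g (castSucc j)) = rename castSucc (f j) + (aeval φ a_j) * X (last n)`.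
`push`: for `G` in the span of the `g k`: induction on the span, every `aeval φ (g k)` is in
`adjVar (span (range f)) = span (range (adjT f))` (`span_adjT`, CX/A0). `pull`: `rename castSucc (f j)` and `X (last n)`
are in the span of the `aeval φ (g k)`; use `span_adjT` and `Ideal.span_le`, with `h = 1`. Jacobian `1`
(lower triangular, as in CB/C1), `φ` vanishes at `0` as `Q (0) = 0`.
-/

open MvPolynomial

namespace MotMono
namespace CX

open CN HY CB

/-- the coordinate change -/
private noncomputable def cx1phi {n : ℕ} (Q : MvPolynomial (Fin n) ℂ) :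
    Fin (n + 1) → MvPolynomial (Fin (n + 1)) ℂ :=
  Fin.snoc (α := fun _ => MvPolynomial (Fin (n + 1)) ℂ) (fun i => X i.castSucc)
    (X (Fin.last n) - rename Fin.castSucc Q)

private theorem cx1phi_cast {n : ℕ} (Q : MvPolynomial (Fin n) ℂ) (i : Fin n) :
    cx1phi Q i.castSucc = X i.castSucc := by
  rw [cx1phi, Fin.snoc_castSucc]

private theorem cx1phi_last {n : ℕ} (Q : MvPolynomial (Fin n) ℂ) :
    cx1phi Q (Fin.last n) = X (Fin.last n) - rename Fin.castSucc Q := by
  rw [cx1phi, Fin.snoc_last]

private theorem cx1_rename {n : ℕ} (Q P : MvPolynomial (Fin n) ℂ) :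
    aeval (cx1phi Q) (rename Fin.castSucc P) = rename Fin.castSucc P := by
  rw [aeval_rename]
  have : cx1phi Q ∘ Fin.castSucc = X ∘ (Fin.castSucc : Fin n → Fin (n + 1)) := by
    funext i
    exact cx1phi_cast Q i
  rw [this, ← aeval_rename, aeval_X_left_apply]

private theorem cx1_pderiv {n : ℕ} (Q : MvPolynomial (Fin n) ℂ) :
    pderiv (Fin.last n) (rename Fin.castSucc Q) = 0 := by
  apply pderiv_eq_zero_of_notMem_vars
  intro h
  have h1 := vars_rename Fin.castSucc Q h
  rw [Finset.mem_image] at h1
  obtain ⟨a, _, ha⟩ := h1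
  exact (Fin.castSucc_lt_last a).ne ha

private theorem cx1_jac {n : ℕ} (Q : MvPolynomial (Fin n) ℂ) : jacDet (cx1phi Q) = 1 := by
  unfold jacDet
  rw [Matrix.det_of_isLowerTriangular]
  · apply Finset.prod_eq_one
    intro i _
    rw [Matrix.of_apply]
    induction i using Fin.lastCases with
    | last => rw [cx1phi_last, map_sub, pderiv_X_self, cx1_pderiv, sub_zero]
    | cast i => rw [cx1phi_cast, pderiv_X_self]
  · intro i j hij
    have hij' : i < j := hij
    rw [Matrix.of_apply]
    induction i using Fin.lastCases with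
    | last => exact absurd (Fin.le_last j) (not_le.2 hij')
    | cast i => rw [cx1phi_cast, pderiv_X_of_ne hij'.ne]

private theorem cx1_gLast {n : ℕ} (Q : MvPolynomial (Fin n) ℂ) :
    aeval (cx1phi Q) (X (Fin.last n) + rename Fin.castSucc Q) = X (Fin.last n) := by
  rw [map_add, aeval_X, cx1_rename, cx1phi_last, sub_add_cancel]

theorem locPull_tuple {n r : ℕ} (f : Fin r → MvPolynomial (Fin n) ℂ)
    (g : Fin (r + 1) → MvPolynomial (Fin (n + 1)) ℂ) (Q : MvPolynomial (Fin n) ℂ)
    (hQ : eval 0 Q = 0) (hlast : g (Fin.last r) = X (Fin.last n) + rename Fin.castSucc Q)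
    (hg : ∀ j : Fin r, ∃ a, g j.castSucc = rename Fin.castSucc (f j) + a * g (Fin.last r)) :
    LocPull (adjVar (Ideal.span (Set.range f))) 0 (Ideal.span (Set.range g)) := by
  have hl : aeval (cx1phi Q) (g (Fin.last r)) = X (Fin.last n) := by rw [hlast, cx1_gLast]
  have hXmem : (X (Fin.last n) : MvPolynomial (Fin (n + 1)) ℂ) ∈
      Ideal.span (Set.range (adjT f)) := Ideal.subset_span ⟨Fin.last r, adjT_last f⟩
  have hFmem : ∀ j, rename Fin.castSucc (f j) ∈ Ideal.span (Set.range (adjT f)) :=
    fun j => Ideal.subset_span ⟨j.castSucc, adjT_castSucc f j⟩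
  rw [← span_adjT]
  refine ⟨cx1phi Q, id, 1, Function.injective_id, ?_, ?_, ?_, ?_, ?_⟩
  · rw [map_one]
    exact one_ne_zero
  · rw [cx1_jac, map_one]
    exact one_ne_zero
  · intro i
    simp only [id]
    induction i using Fin.lastCases with
    | last =>
      rw [cx1phi_last, map_sub, eval_X, eval_rename]
      have h0 : (0 : Fin (n + 1) → ℂ) ∘ Fin.castSucc = 0 := rfl
      rw [h0, hQ]
      simp
    | cast i => rw [cx1phi_cast, eval_X]; rfl
  · intro G hG
    rw [one_mul]
    simp only [id]
    have h1 : Ideal.span (Set.range g) ≤ Ideal.comap (aeval (cx1phi Q)).toRingHom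
        (Ideal.span (Set.range (adjT f))) := by
      rw [Ideal.span_le]
      rintro _ ⟨k, rfl⟩
      show aeval (cx1phi Q) (g k) ∈ Ideal.span (Set.range (adjT f))
      induction k using Fin.lastCases with
      | last =>
        rw [hl]
        exact hXmem
      | cast j =>
        obtain ⟨a, ha⟩ := hg j
        rw [ha, map_add, map_mul, hl, cx1_rename]
        exact Ideal.add_mem _ (hFmem j) (Ideal.mul_mem_left _ _ hXmem)
    exact h1 hG
  · intro F hF
    rw [one_mul]
    simp only [id]
    have h1 : Ideal.span (Set.range (adjT f)) ≤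
        Ideal.span {f' | ∃ G ∈ Ideal.span (Set.range g), f' = aeval (cx1phi Q) G} := by
      rw [Ideal.span_le]
      rintro _ ⟨k, rfl⟩
      apply Ideal.subset_span
      induction k using Fin.lastCases with
      | last =>
        refine ⟨g (Fin.last r), Ideal.subset_span ⟨_, rfl⟩, ?_⟩
        rw [adjT_last, hl]
      | cast j =>
        obtain ⟨a, ha⟩ := hg j
        refine ⟨g j.castSucc - a * g (Fin.last r),
          Ideal.sub_mem _ (Ideal.subset_span ⟨_, rfl⟩)
            (Ideal.mul_mem_left _ _ (Ideal.subset_span ⟨_, rfl⟩)), ?_⟩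
        rw [adjT_castSucc, ha, add_sub_cancel_right, cx1_rename]
    exact h1 hF

end CX
end MotMono
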