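import Pool.Agent.Lib.MP_4e5fcd_ag.CX.Defs
import Pool.Agent.Lib.MP_4e5fcd_ag.CB.Base

/-!
# CX-C2: from a tuple of polynomials with coloured variables to bilinear forms

The proof of `homogenize` (CB/C2) with two colours instead of three and a tuple instead of one
polynomial; all private lemmas can be copied. For every `k`:
`B k = ∑_{m ∈ supp (f k)} (f k)_m x^m ∏_{a : no variable of colour a in x^m} s_a`, `s_a = X (natAdd n a)`, `a : Fin 2`;
`c = 0` on the old variables and `1` on the two new ones. `aeval u (aeval (X i + C (c i)) (B k)) = U * rename (castAdd 2) (f k)`,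
`U = (1 + s_0) (1 + s_1)`, `u (castAdd 2 i) = X (castAdd 2 i) * (1 + s_{κ i})`, `u (natAdd n a) = s_a`.
The point is `c = Fin.addCases (fun _ => 0) (fun _ => 1)`.
`LocPull` with `e = id`, `h = U`: `push`: `germ (span (range B)) c` is the span of the `aeval (X i + C (c i)) b`,
`b ∈ span (range B)`; induction on the two spans. `pull`: `f ∈ span (range (rename ∘ f))` by
induction on the span (`Submodule.span_induction`).
`locPull_rename_tuple`: as `locPull_rename` (CB/B6), `u = X`, `e = castAdd k`, `h = 1`.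
-/

open MvPolynomial

namespace MotMono
namespace CX

open CN HY CB

/-- the exponent of the bilinear monomial -/
noncomputable def c2E {n : ℕ} (κ : Fin n → Fin 2) (m : Fin n →₀ ℕ) : Fin (n + 2) →₀ ℕ :=
  Finsupp.equivFunOnFinite.symm (Fin.addCases (fun i => m i)
    (fun a => 1 - ∑ i with κ i = a, m i) : Fin (n + 2) → ℕ)

theorem c2E_l {n : ℕ} (κ : Fin n → Fin 2) (m : Fin n →₀ ℕ) (i : Fin n) :
    c2E κ m (Fin.castAdd 2 i) = m i := by
  simp [c2E]

theorem c2E_r {n : ℕ} (κ : Fin n → Fin 2) (m : Fin n →₀ ℕ) (a : Fin 2) :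
    c2E κ m (Fin.natAdd n a) = 1 - ∑ i with κ i = a, m i := by
  simp [c2E]

/-- the trilinear form -/
noncomputable def c2T {n : ℕ} (κ : Fin n → Fin 2) (F : MvPolynomial (Fin n) ℂ) :
    MvPolynomial (Fin (n + 2)) ℂ :=
  ∑ m ∈ F.support, monomial (c2E κ m) (coeff m F)

/-- the point -/
def c2c (n : ℕ) : Fin (n + 2) → ℂ := Fin.addCases (fun _ => 0) (fun _ => 1)

theorem c2c_l {n : ℕ} (i : Fin n) : c2c n (Fin.castAdd 2 i) = 0 := by
  simp [c2c]

theorem c2c_r {n : ℕ} (a : Fin 2) : c2c n (Fin.natAdd n a) = 1 := by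
  simp [c2c]

/-- the coordinates -/
noncomputable def c2u {n : ℕ} (κ : Fin n → Fin 2) :
    Fin (n + 2) → MvPolynomial (Fin (n + 2)) ℂ :=
  Fin.addCases (fun i => X (Fin.castAdd 2 i) * (1 + X (Fin.natAdd n (κ i))))
    (fun a => X (Fin.natAdd n a))

theorem c2u_l {n : ℕ} (κ : Fin n → Fin 2) (i : Fin n) :
    c2u κ (Fin.castAdd 2 i) = X (Fin.castAdd 2 i) * (1 + X (Fin.natAdd n (κ i))) := by
  simp [c2u]

theorem c2u_r {n : ℕ} (κ : Fin n → Fin 2) (a : Fin 2) :
    c2u κ (Fin.natAdd n a) = X (Fin.natAdd n a) := by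
  simp [c2u]

/-- the unit -/
noncomputable def c2U (n : ℕ) : MvPolynomial (Fin (n + 2)) ℂ :=
  ∏ a : Fin 2, (1 + X (Fin.natAdd n a))

theorem c2_bil {n r : ℕ} (f : Fin r → MvPolynomial (Fin n) ℂ) (κ : Fin n → Fin 2)
    (hκ : ∀ k, ∀ m ∈ (f k).support, ∀ a : Fin 2, ∑ i with κ i = a, m i ≤ 1) :
    IsBilinear (fun k => c2T κ (f k)) := by
  classical
  refine ⟨Fin.addCases κ id, fun k m' hm' a => ?_⟩
  have h1 := MvPolynomial.support_sum hm'
  rw [Finset.mem_biUnion] at h1
  obtain ⟨m, hm, h2⟩ := h1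
  have h3 : m' = c2E κ m := by
    have := MvPolynomial.support_monomial_subset h2
    simpa using this
  subst h3
  rw [Finset.sum_filter, Fin.sum_univ_add]
  simp only [Fin.addCases_left, Fin.addCases_right, c2E_l, c2E_r, id]
  rw [Finset.sum_ite_eq' Finset.univ a, if_pos (Finset.mem_univ a), ← Finset.sum_filter]
  have := hκ k m hm a
  omega

theorem c2_card {n : ℕ} (F : MvPolynomial (Fin n) ℂ) (κ : Fin n → Fin 2) :
    (c2T κ F).support.card ≤ F.support.card := by
  classical
  unfold c2T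
  refine (Finset.card_le_card support_sum).trans (Finset.card_biUnion_le.trans ?_)
  rw [Finset.card_eq_sum_ones]
  refine Finset.sum_le_sum fun m _ => ?_
  exact (Finset.card_le_card support_monomial_subset).trans (Finset.card_singleton _).le

theorem c2_eval {n : ℕ} (F : MvPolynomial (Fin n) ℂ) (h0 : eval 0 F = 0)
    (κ : Fin n → Fin 2) : eval (c2c n) (c2T κ F) = 0 := by
  classical
  unfold c2T
  rw [map_sum]
  refine Finset.sum_eq_zero fun m hm => ?_
  rw [eval_monomial]
  have hm0 : m ≠ 0 := by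
    rintro rfl
    rw [mem_support_iff] at hm
    apply hm
    have h1 : eval (0 : Fin n → ℂ) F = constantCoeff F := by
      rw [MvPolynomial.eval_zero]
    rw [← constantCoeff_eq, ← h1, h0]
  obtain ⟨i, hi⟩ : ∃ i, m i ≠ 0 := by
    by_contra hcon
    push Not at hcon
    exact hm0 (Finsupp.ext hcon)
  have h2 : ((c2E κ m).prod fun j k => c2c n j ^ k) = 0 := by
    rw [Finsupp.prod_fintype _ _ (fun _ => pow_zero _)]
    refine Finset.prod_eq_zero (Finset.mem_univ (Fin.castAdd 2 i)) ?_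
    rw [c2E_l, c2c_l, zero_pow hi]
  rw [h2, mul_zero]

/-- the main computation -/
theorem c2_main {n : ℕ} (F : MvPolynomial (Fin n) ℂ) (κ : Fin n → Fin 2)
    (hκ : ∀ m ∈ F.support, ∀ a : Fin 2, ∑ i with κ i = a, m i ≤ 1) :
    aeval (c2u κ) (aeval (fun i => X i + C (c2c n i)) (c2T κ F)) =
      c2U n * rename (Fin.castAdd 2) F := by
  classical
  have h1 : aeval (c2u κ) (aeval (fun i => X i + C (c2c n i)) (c2T κ F)) =
      aeval (fun i => c2u κ i + C (c2c n i)) (c2T κ F) := by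
    rw [← AlgHom.comp_apply, comp_aeval]
    simp only [map_add, aeval_X]
    congr 2
    funext i
    congr 1
    rw [aeval_C]
    rfl
  have h2 : rename (Fin.castAdd 2) F =
      ∑ m ∈ F.support, C (coeff m F) * ∏ i, (X (Fin.castAdd 2 i) : MvPolynomial (Fin (n + 2)) ℂ) ^ m i := by
    conv_lhs => rw [F.as_sum]
    rw [map_sum]
    refine Finset.sum_congr rfl fun m _ => ?_
    rw [rename_monomial, monomial_eq]
    congr 1
    rw [Finsupp.prod_mapDomain_index_inj (Fin.castAdd_injective n 2),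
      Finsupp.prod_fintype _ _ (fun _ => pow_zero _)]
  rw [h1, h2, Finset.mul_sum]
  unfold c2T
  rw [map_sum]
  refine Finset.sum_congr rfl fun m hm => ?_
  rw [aeval_monomial, Finsupp.prod_fintype _ _ (fun _ => pow_zero _), Fin.prod_univ_add]
  have e1 : ∏ i : Fin n, (c2u κ (Fin.castAdd 2 i) + C (c2c n (Fin.castAdd 2 i))) ^
      c2E κ m (Fin.castAdd 2 i) = (∏ i, (X (Fin.castAdd 2 i) : MvPolynomial (Fin (n + 2)) ℂ) ^ m i) *
        ∏ a : Fin 2, (1 + X (Fin.natAdd n a)) ^ (∑ i with κ i = a, m i) := by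
    have e2 : ∀ a : Fin 2, (1 + X (Fin.natAdd n a) : MvPolynomial (Fin (n + 2)) ℂ) ^
        (∑ i with κ i = a, m i) = ∏ i with κ i = a, (1 + X (Fin.natAdd n (κ i))) ^ m i := by
      intro a
      rw [← Finset.prod_pow_eq_pow_sum]
      refine Finset.prod_congr rfl fun i hi => ?_
      rw [(Finset.mem_filter.1 hi).2]
    rw [Finset.prod_congr rfl fun a _ => e2 a, Finset.prod_fiberwise, ← Finset.prod_mul_distrib]
    refine Finset.prod_congr rfl fun i _ => ?_
    rw [c2u_l, c2c_l, c2E_l, C_0, add_zero, mul_pow]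
  have e3 : ∏ a : Fin 2, (c2u κ (Fin.natAdd n a) + C (c2c n (Fin.natAdd n a))) ^
      c2E κ m (Fin.natAdd n a) = ∏ a : Fin 2, (1 + X (Fin.natAdd n a)) ^
        (1 - ∑ i with κ i = a, m i) := by
    refine Finset.prod_congr rfl fun a _ => ?_
    rw [c2u_r, c2c_r, c2E_r, C_1, add_comm (X (Fin.natAdd n a) : MvPolynomial (Fin (n + 2)) ℂ) 1]
  rw [e1, e3]
  have e4 : (∏ a : Fin 2, (1 + X (Fin.natAdd n a) : MvPolynomial (Fin (n + 2)) ℂ) ^
      (∑ i with κ i = a, m i)) * (∏ a : Fin 2, (1 + X (Fin.natAdd n a)) ^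
        (1 - ∑ i with κ i = a, m i)) = c2U n := by
    unfold c2U
    rw [← Finset.prod_mul_distrib]
    refine Finset.prod_congr rfl fun a _ => ?_
    rw [← pow_add]
    have := hκ m hm a
    have e5 : ∑ i with κ i = a, m i + (1 - ∑ i with κ i = a, m i) = 1 := by omega
    rw [e5, pow_one]
  rw [mul_assoc (∏ i, (X (Fin.castAdd 2 i) : MvPolynomial (Fin (n + 2)) ℂ) ^ m i), e4]
  have e6 : algebraMap ℂ (MvPolynomial (Fin (n + 2)) ℂ) (coeff m F) = C (coeff m F) := rfl
  rw [e6]
  ring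

theorem c2_jac {n : ℕ} (κ : Fin n → Fin 2) : eval 0 (jacDet (c2u κ)) = 1 := by
  classical
  unfold jacDet
  rw [RingHom.map_det]
  have h1 : (eval (0 : Fin (n + 2) → ℂ)).mapMatrix
      (Matrix.of fun i j => pderiv j (c2u κ i)) = 1 := by
    ext i j
    rw [RingHom.mapMatrix_apply, Matrix.map_apply, Matrix.of_apply, Matrix.one_apply]
    refine Fin.addCases (fun i => ?_) (fun a => ?_) i
    · rw [c2u_l, Derivation.leibniz, map_add, pderiv_X]
      simp only [smul_eq_mul, map_add, map_mul, eval_X, Pi.zero_apply, zero_mul, zero_add,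
        map_one, add_zero, one_mul]
      by_cases h : Fin.castAdd 2 i = j
      · rw [if_pos h, ← h, Pi.single_eq_same, map_one]
      · rw [if_neg h, Pi.single_eq_of_ne h, map_zero]
    · rw [c2u_r, pderiv_X]
      by_cases h : Fin.natAdd n a = j
      · rw [if_pos h, ← h, Pi.single_eq_same, map_one]
      · rw [if_neg h, Pi.single_eq_of_ne h, map_zero]
  rw [h1, Matrix.det_one]

theorem c2_push {N r : ℕ} (T F' : Fin r → MvPolynomial (Fin N) ℂ)
    (U : MvPolynomial (Fin N) ℂ) (c : Fin N → ℂ) (u : Fin N → MvPolynomial (Fin N) ℂ)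
    (hm : ∀ k, aeval u (aeval (fun i => X i + C (c i)) (T k)) = U * F' k)
    (g : MvPolynomial (Fin N) ℂ) (hg : g ∈ germ (Ideal.span (Set.range T)) c) :
    aeval u g ∈ Ideal.span (Set.range F') := by
  unfold germ at hg
  induction hg using Submodule.span_induction with
  | mem x hx =>
    obtain ⟨f, hf, rfl⟩ := hx
    induction hf using Submodule.span_induction with
    | mem x hx =>
      obtain ⟨k, rfl⟩ := hx
      rw [hm]
      exact Ideal.mul_mem_left _ _ (Ideal.subset_span ⟨k, rfl⟩)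
    | zero => rw [map_zero, map_zero]; exact Ideal.zero_mem _
    | add x y _ _ hx hy => rw [map_add, map_add]; exact Ideal.add_mem _ hx hy
    | smul a x _ hx => rw [smul_eq_mul, map_mul, map_mul]; exact Ideal.mul_mem_left _ _ hx
  | zero => rw [map_zero]; exact Ideal.zero_mem _
  | add x y _ _ hx hy => rw [map_add]; exact Ideal.add_mem _ hx hy
  | smul a x _ hx => rw [smul_eq_mul, map_mul]; exact Ideal.mul_mem_left _ _ hx

theorem c2_pull {N r : ℕ} (T F' : Fin r → MvPolynomial (Fin N) ℂ)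
    (U : MvPolynomial (Fin N) ℂ) (c : Fin N → ℂ) (u : Fin N → MvPolynomial (Fin N) ℂ)
    (hm : ∀ k, aeval u (aeval (fun i => X i + C (c i)) (T k)) = U * F' k)
    (f : MvPolynomial (Fin N) ℂ) (hf : f ∈ Ideal.span (Set.range F')) :
    U * f ∈ Ideal.span {f' | ∃ g ∈ germ (Ideal.span (Set.range T)) c, f' = aeval u g} := by
  induction hf using Submodule.span_induction with
  | mem x hx =>
    obtain ⟨k, rfl⟩ := hx
    rw [← hm]
    refine Ideal.subset_span ⟨_, ?_, rfl⟩
    exact Ideal.subset_span ⟨T k, Ideal.subset_span ⟨k, rfl⟩, rfl⟩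
  | zero => rw [mul_zero]; exact Ideal.zero_mem _
  | add x y _ _ hx hy => rw [mul_add]; exact Ideal.add_mem _ hx hy
  | smul a x _ hx =>
    rw [smul_eq_mul, mul_left_comm]
    exact Ideal.mul_mem_left _ _ hx

theorem c2_unit (n : ℕ) : eval 0 (c2U n) ≠ 0 := by
  unfold c2U
  rw [map_prod]
  simp

theorem c2_zero {n : ℕ} (κ : Fin n → Fin 2) (i : Fin (n + 2)) : eval 0 (c2u κ i) = 0 := by
  refine Fin.addCases (fun i => ?_) (fun a => ?_) i
  · rw [c2u_l]
    simp
  · rw [c2u_r]
    simp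

theorem homogenize {n r : ℕ} (f : Fin r → MvPolynomial (Fin n) ℂ) (h0 : ∀ k, eval 0 (f k) = 0)
    (κ : Fin n → Fin 2) (hκ : ∀ k, ∀ m ∈ (f k).support, ∀ a : Fin 2, ∑ i with κ i = a, m i ≤ 1) :
    ∃ (B : Fin r → MvPolynomial (Fin (n + 2)) ℂ) (c : Fin (n + 2) → ℂ), IsBilinear B ∧
      (∀ k, (B k).support.card ≤ (f k).support.card) ∧ (∀ k, eval c (B k) = 0) ∧
      LocPull (Ideal.span (Set.range fun k => rename (Fin.castAdd 2) (f k))) 0
        (germ (Ideal.span (Set.range B)) c) := by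
  have hm : ∀ k, aeval (c2u κ) (aeval (fun i => X i + C (c2c n i)) (c2T κ (f k))) =
      c2U n * rename (Fin.castAdd 2) (f k) := fun k => c2_main (f k) κ (hκ k)
  have hj : eval 0 (jacDet (c2u κ)) ≠ 0 := by
    rw [c2_jac]
    exact one_ne_zero
  exact ⟨fun k => c2T κ (f k), c2c n, c2_bil f κ hκ, fun k => c2_card (f k) κ,
    fun k => c2_eval (f k) (h0 k) κ, c2u κ, id,
    c2U n, Function.injective_id, c2_unit n, hj, c2_zero κ,
    fun g hg => Ideal.mul_mem_left _ _ (c2_push _ _ _ _ _ hm g hg),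
    fun f' hf => c2_pull _ _ _ _ _ hm f' hf⟩

theorem c2_rename {N L : ℕ} (e : Fin N → Fin L) (f : MvPolynomial (Fin N) ℂ) :
    aeval (fun i => (X (e i) : MvPolynomial (Fin L) ℂ)) f = rename e f := by
  have h : aeval (fun i => (X (e i) : MvPolynomial (Fin L) ℂ)) = rename e := by
    apply MvPolynomial.algHom_ext
    intro i
    simp
  rw [h]

theorem c2_jacX {N : ℕ} : jacDet (fun i => (X i : MvPolynomial (Fin N) ℂ)) = 1 := by
  unfold jacDet
  have : (Matrix.of fun i j => pderiv j (X i : MvPolynomial (Fin N) ℂ)) = 1 := by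
    ext1 i j
    rw [Matrix.of_apply, pderiv_X, Matrix.one_apply, Pi.single_apply]
  rw [this, Matrix.det_one]

theorem locPull_rename_tuple {n r k : ℕ} (f : Fin r → MvPolynomial (Fin n) ℂ) :
    LocPull (Ideal.span (Set.range fun j => rename (Fin.castAdd k) (f j))) 0
      (Ideal.span (Set.range f)) := by
  refine ⟨fun i => X i, Fin.castAdd k, 1, Fin.castAdd_injective n k, ?_, ?_, fun i => ?_,
    fun g hg => ?_, fun g hg => ?_⟩
  · rw [map_one]
    exact one_ne_zero
  · rw [c2_jacX, map_one]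
    exact one_ne_zero
  · rw [eval_X]
    rfl
  · rw [c2_rename, one_mul]
    induction hg using Submodule.span_induction with
    | mem x hx =>
      obtain ⟨j, rfl⟩ := hx
      exact Ideal.subset_span ⟨j, rfl⟩
    | zero => rw [map_zero]; exact Ideal.zero_mem _
    | add x y _ _ hx hy => rw [map_add]; exact Ideal.add_mem _ hx hy
    | smul a x _ hx => rw [smul_eq_mul, map_mul]; exact Ideal.mul_mem_left _ _ hx
  · rw [one_mul]
    induction hg using Submodule.span_induction with
    | mem x hx =>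
      obtain ⟨j, rfl⟩ := hx
      refine Ideal.subset_span ⟨f j, Ideal.subset_span ⟨j, rfl⟩, ?_⟩
      rw [c2_rename]
    | zero => exact Ideal.zero_mem _
    | add x y _ _ hx hy => exact Ideal.add_mem _ hx hy
    | smul a x _ hx => rw [smul_eq_mul]; exact Ideal.mul_mem_left _ _ hx

end CX
end MotMono
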