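import Pool.Agent.Lib.MP_4e5fcd_ag.CX.R2

/-!
# CX-R3: at most three terms
-/

open MvPolynomial

namespace MotMono
namespace CX

private theorem r3_mem {n : ℕ} (p : MvPolynomial (Fin n) ℂ) {m : Fin (n + 1) →₀ ℕ}
    (hm : m ∈ (rename Fin.castSucc p).support) :
    ∃ m' ∈ p.support, m = Finsupp.mapDomain Fin.castSucc m' := by
  classical
  rw [support_rename_of_injective (Fin.castSucc_injective n), Finset.mem_image] at hm
  obtain ⟨m', h1, h2⟩ := hm
  exact ⟨m', h1, h2.symm⟩

private theorem r3_deg {n : ℕ} (κ : Fin n → Fin 2) (m : Fin n →₀ ℕ) (a : Fin 2) :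
    ∑ i with (Fin.snoc (α := fun _ => Fin 2) κ 1 : Fin (n + 1) → Fin 2) i = a,
      (Finsupp.mapDomain Fin.castSucc m) i = ∑ i with κ i = a, m i := by
  classical
  rw [Finset.sum_filter, Fin.sum_univ_castSucc, Finset.sum_filter]
  have h1 : (Finsupp.mapDomain Fin.castSucc m) (Fin.last n) = 0 := by
    apply Finsupp.mapDomain_of_notMem_range
    rintro ⟨i, hi⟩
    exact (Fin.castSucc_lt_last i).ne hi
  rw [h1]
  simp only [Fin.snoc_castSucc, Finsupp.mapDomain_apply (Fin.castSucc_injective n), ite_self,
    add_zero]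

private theorem r3_deg_last {n : ℕ} (κ : Fin n → Fin 2) (a : Fin 2) :
    ∑ i with (Fin.snoc (α := fun _ => Fin 2) κ 1 : Fin (n + 1) → Fin 2) i = a,
      (Finsupp.single (Fin.last n) 1 : Fin (n + 1) →₀ ℕ) i ≤ 1 := by
  classical
  rw [Finset.sum_filter, Fin.sum_univ_castSucc]
  have h1 : ∀ i : Fin n, (Finsupp.single (Fin.last n) 1 : Fin (n + 1) →₀ ℕ) i.castSucc = 0 := by
    intro i
    rw [Finsupp.single_apply, if_neg]
    exact (Fin.castSucc_lt_last i).ne'
  simp only [h1, ite_self, Finset.sum_const_zero, zero_add, Finsupp.single_eq_same]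
  split_ifs <;> omega

private theorem r3_ne {n : ℕ} {p : MvPolynomial (Fin n) ℂ} (h0 : eval 0 p = 0) {m : Fin n →₀ ℕ}
    (hm : m ∈ p.support) : m ≠ 0 := by
  rintro rfl
  rw [mem_support_iff] at hm
  apply hm
  rw [eval_zero, constantCoeff_eq] at h0
  exact h0

theorem split (Pr : ∀ (n r : ℕ), (Fin r → MvPolynomial (Fin n) ℂ) → Prop)
    (hbase : ∀ (n r : ℕ) (f : Fin r → MvPolynomial (Fin n) ℂ), (∀ k, eval 0 (f k) = 0) →
      (∃ κ : Fin n → Fin 2, ∀ k, ∀ m ∈ (f k).support, ∀ a : Fin 2, ∑ i with κ i = a, m i ≤ 1) →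
      (∀ k, (f k).support.card ≤ 3) → Pr n r f)
    (hstep : ∀ (n r : ℕ) (f : Fin r → MvPolynomial (Fin n) ℂ)
      (g : Fin (r + 1) → MvPolynomial (Fin (n + 1)) ℂ) (Q : MvPolynomial (Fin n) ℂ),
      eval 0 Q = 0 → g (Fin.last r) = X (Fin.last n) + rename Fin.castSucc Q →
      (∀ j : Fin r, ∃ a, g j.castSucc = rename Fin.castSucc (f j) + a * g (Fin.last r)) →
      Pr (n + 1) (r + 1) g → Pr n r f)
    (s : ℕ) : ∀ (n r : ℕ) (f : Fin r → MvPolynomial (Fin n) ℂ), (∀ k, eval 0 (f k) = 0) →
      (∃ κ : Fin n → Fin 2, ∀ k, ∀ m ∈ (f k).support, ∀ a : Fin 2, ∑ i with κ i = a, m i ≤ 1) →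
      ∑ k, ((f k).support.card - 3) ≤ s → Pr n r f := by
  classical
  induction s with
  | zero =>
    intro n r f h0 hκ hs
    refine hbase n r f h0 hκ fun k => ?_
    have h1 : (f k).support.card - 3 ≤ ∑ k, ((f k).support.card - 3) :=
      Finset.single_le_sum (f := fun k => (f k).support.card - 3) (fun _ _ => Nat.zero_le _)
        (Finset.mem_univ k)
    omega
  | succ s ih =>
    intro n r f h0 hκ hs
    by_cases hall : ∀ k, (f k).support.card ≤ 3
    · exact hbase n r f h0 hκ hall
    push Not at hall
    obtain ⟨k, hk⟩ := hall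
    obtain ⟨κ, hκ⟩ := hκ
    obtain ⟨m₁, hm₁, m₂, hm₂, hne⟩ := Finset.one_lt_card.1 (show 1 < (f k).support.card by omega)
    obtain ⟨Q, hQ⟩ : ∃ Q, Q = monomial m₁ (coeff m₁ (f k)) + monomial m₂ (coeff m₂ (f k)) :=
      ⟨_, rfl⟩
    have hQ0 : eval 0 Q = 0 := by
      rw [hQ, eval_zero, map_add, constantCoeff_monomial, constantCoeff_monomial,
        if_neg (r3_ne (h0 k) hm₁), if_neg (r3_ne (h0 k) hm₂), add_zero]
    have hQs : Q.support ⊆ {m₁, m₂} := by
      rw [hQ]
      refine support_add.trans ?_
      refine Finset.union_subset (support_monomial_subset.trans ?_)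
        (support_monomial_subset.trans ?_)
      · intro x hx
        rw [Finset.mem_singleton] at hx
        rw [hx]
        exact Finset.mem_insert_self _ _
      · intro x hx
        rw [Finset.mem_singleton] at hx
        rw [hx]
        exact Finset.mem_insert_of_mem (Finset.mem_singleton_self _)
    have hfQ : (f k - Q).support ⊆ (f k).support \ {m₁, m₂} := by
      intro m hm
      rw [mem_support_iff, coeff_sub, hQ, coeff_add, coeff_monomial, coeff_monomial] at hm
      rw [Finset.mem_sdiff, Finset.mem_insert, Finset.mem_singleton, mem_support_iff]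
      by_cases e1 : m₁ = m
      · exfalso
        apply hm
        rw [if_pos e1, if_neg (fun e2 => hne (e1.trans e2.symm)), add_zero, e1, sub_self]
      · by_cases e2 : m₂ = m
        · exfalso
          apply hm
          rw [if_neg e1, if_pos e2, zero_add, e2, sub_self]
        · rw [if_neg e1, if_neg e2, add_zero, sub_zero] at hm
          exact ⟨hm, fun h => h.elim (fun h => e1 h.symm) (fun h => e2 h.symm)⟩
    obtain ⟨W, hW⟩ : ∃ W : MvPolynomial (Fin (n + 1)) ℂ,
      W = X (Fin.last n) + rename Fin.castSucc Q := ⟨_, rfl⟩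
    obtain ⟨g, hg⟩ : ∃ g : Fin (r + 1) → MvPolynomial (Fin (n + 1)) ℂ, g =
      Fin.snoc (α := fun _ => MvPolynomial (Fin (n + 1)) ℂ)
        (fun j => rename Fin.castSucc (f j) + (if j = k then -1 else 0) * W) W := ⟨_, rfl⟩
    have hgl : g (Fin.last r) = W := by rw [hg, Fin.snoc_last]
    have hgc : ∀ j : Fin r, g j.castSucc =
        rename Fin.castSucc (f j) + (if j = k then -1 else 0) * W := by
      intro j
      rw [hg, Fin.snoc_castSucc]
    have hgk : g k.castSucc = rename Fin.castSucc (f k - Q) - X (Fin.last n) := by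
      rw [hgc, if_pos rfl, hW, map_sub]
      ring
    have hgj : ∀ j, j ≠ k → g j.castSucc = rename Fin.castSucc (f j) := by
      intro j hj
      rw [hgc, if_neg hj, zero_mul, add_zero]
    have hev : ∀ p : MvPolynomial (Fin n) ℂ, eval 0 (rename Fin.castSucc p) = eval 0 p := by
      intro p
      rw [eval_rename]
      rfl
    have hX : (X (Fin.last n) : MvPolynomial (Fin (n + 1)) ℂ).support =
        {Finsupp.single (Fin.last n) 1} := support_X
    refine hstep n r f g Q hQ0 (hgl.trans hW) (fun j => ⟨_, by rw [hgc, hgl]⟩) ?_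
    refine ih (n + 1) (r + 1) g ?_ ⟨Fin.snoc (α := fun _ => Fin 2) κ 1, ?_⟩ ?_
    · intro j
      induction j using Fin.lastCases with
      | last => rw [hgl, hW, map_add, hev, hQ0, eval_X, Pi.zero_apply, add_zero]
      | cast j =>
        rw [hgc, map_add, map_mul, hev, h0, hW, map_add, hev, hQ0, eval_X, Pi.zero_apply, add_zero,
          mul_zero, add_zero]
    · intro j m hm a
      have hren : ∀ p : MvPolynomial (Fin n) ℂ, (∃ j, p.support ⊆ (f j).support) →
          m ∈ (rename Fin.castSucc p).support →
          ∑ i with (Fin.snoc (α := fun _ => Fin 2) κ 1 : Fin (n + 1) → Fin 2) i = a, m i ≤ 1 := by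
        rintro p ⟨j, hj⟩ hm
        obtain ⟨m', hm', rfl⟩ := r3_mem p hm
        rw [r3_deg]
        exact hκ j m' (hj hm') a
      have hQf : Q.support ⊆ (f k).support := by
        refine hQs.trans ?_
        intro x hx
        rw [Finset.mem_insert, Finset.mem_singleton] at hx
        rcases hx with rfl | rfl
        · exact hm₁
        · exact hm₂
      induction j using Fin.lastCases with
      | last =>
        rw [hgl, hW] at hm
        rcases Finset.mem_union.1 (support_add hm) with h | h
        · rw [hX, Finset.mem_singleton] at h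
          rw [h]
          exact r3_deg_last κ a
        · exact hren Q ⟨k, hQf⟩ h
      | cast j =>
        by_cases hj : j = k
        · subst hj
          rw [hgk] at hm
          rcases Finset.mem_union.1 (support_sub _ _ _ hm) with h | h
          · exact hren _ ⟨j, hfQ.trans Finset.sdiff_subset⟩ h
          · rw [hX, Finset.mem_singleton] at h
            rw [h]
            exact r3_deg_last κ a
        · rw [hgj j hj] at hm
          exact hren _ ⟨j, subset_rfl⟩ hm
    · have hcr : ∀ p : MvPolynomial (Fin n) ℂ,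
          (rename (Fin.castSucc (n := n)) p).support.card ≤ p.support.card := by
        intro p
        rw [support_rename_of_injective (Fin.castSucc_injective n)]
        exact Finset.card_image_le
      rw [Fin.sum_univ_castSucc]
      have h1 : (g (Fin.last r)).support.card - 3 = 0 := by
        have h2 : (g (Fin.last r)).support.card ≤ 3 := by
          rw [hgl, hW]
          refine (Finset.card_le_card support_add).trans ((Finset.card_union_le _ _).trans ?_)
          rw [hX, Finset.card_singleton]
          have h3 := (hcr Q).trans ((Finset.card_le_card hQs).trans Finset.card_le_two)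
          omega
        omega
      have h4 : (g k.castSucc).support.card ≤ (f k).support.card - 1 := by
        rw [hgk]
        refine (Finset.card_le_card (support_sub _ _ _)).trans ((Finset.card_union_le _ _).trans ?_)
        rw [hX, Finset.card_singleton]
        have h5 := (hcr (f k - Q)).trans (Finset.card_le_card hfQ)
        have h6 : ((f k).support \ {m₁, m₂}).card = (f k).support.card - 2 := by
          rw [Finset.card_sdiff_of_subset, Finset.card_pair hne]
          intro x hx
          rw [Finset.mem_insert, Finset.mem_singleton] at hx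
          rcases hx with rfl | rfl
          · exact hm₁
          · exact hm₂
        omega
      have h7 : ∑ j : Fin r, ((g j.castSucc).support.card - 3) <
          ∑ j, ((f j).support.card - 3) := by
        refine Finset.sum_lt_sum (fun j _ => ?_) ⟨k, Finset.mem_univ k, by omega⟩
        by_cases hj : j = k
        · subst hj
          omega
        · rw [hgj j hj]
          have := hcr (f j)
          omega
      omega

theorem reduce3 (Pr : ∀ (n r : ℕ), (Fin r → MvPolynomial (Fin n) ℂ) → Prop)
    (hbase : ∀ (n r : ℕ) (f : Fin r → MvPolynomial (Fin n) ℂ), (∀ k, eval 0 (f k) = 0) →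
      (∃ κ : Fin n → Fin 2, ∀ k, ∀ m ∈ (f k).support, ∀ a : Fin 2, ∑ i with κ i = a, m i ≤ 1) →
      (∀ k, (f k).support.card ≤ 3) → Pr n r f)
    (hstep : ∀ (n r : ℕ) (f : Fin r → MvPolynomial (Fin n) ℂ)
      (g : Fin (r + 1) → MvPolynomial (Fin (n + 1)) ℂ) (Q : MvPolynomial (Fin n) ℂ),
      eval 0 Q = 0 → g (Fin.last r) = X (Fin.last n) + rename Fin.castSucc Q →
      (∀ j : Fin r, ∃ a, g j.castSucc = rename Fin.castSucc (f j) + a * g (Fin.last r)) →
      Pr (n + 1) (r + 1) g → Pr n r f)
    (n r : ℕ) (f : Fin r → MvPolynomial (Fin n) ℂ) (h0 : ∀ k, eval 0 (f k) = 0) : Pr n r f :=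
  reduce Pr (fun n r f h0 hκ => split Pr hbase hstep _ n r f h0 hκ le_rfl) hstep n r f h0

end CX
end MotMono
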