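import Pool.Agent.Lib.MP_4e5fcd_ag.CX.Defs
import Pool.Agent.Lib.MP_4e5fcd_ag.CX.A1
import Pool.Agent.Lib.MP_4e5fcd_ag.CX.A2b
import Pool.Agent.Lib.MP_4e5fcd_ag.CX.A3
import Pool.Agent.Lib.MP_4e5fcd_ag.CX.A4
import Pool.Agent.Lib.MP_4e5fcd_ag.CX.C1
import Pool.Agent.Lib.MP_4e5fcd_ag.CX.C2
import Pool.Agent.Lib.MP_4e5fcd_ag.CX.R3
import Pool.Agent.Lib.MP_4e5fcd_ag.CB.D4

/-!
# CX-D1: every ideal has the poles and eigenvalues of an ideal of bilinear forms
-/

open MvPolynomial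

namespace MotMono
namespace CX

open CN HY CB

/-- the same poles up to the shift `m`, for all multiples of the zeta functions, and the same
visible values -/
def SimA {n k : ℕ} (I : Ideal (MvPolynomial (Fin n) ℂ)) (J : Ideal (MvPolynomial (Fin k) ℂ))
    (m : ℕ) : Prop :=
  ∀ s₀ : ℚ, (∀ z : ℤ, s₀ ≠ z) → (∀ a : MC, PowerSeries.C a * Zmot I ∈ polarRing s₀ ↔
      PowerSeries.C a * Zmot J ∈ polarRing (s₀ - m)) ∧
    ∀ χ : K0 →+* ℤ, IsEulerCharF χ → (NearK χ I 0 (expo s₀) ↔ NearK χ J 0 (expo s₀))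

theorem SimA.symm_trans {n k l : ℕ} {I : Ideal (MvPolynomial (Fin n) ℂ)}
    {J : Ideal (MvPolynomial (Fin k) ℂ)} {G : Ideal (MvPolynomial (Fin l) ℂ)} {m : ℕ}
    (h1 : SimA J I 0) (h2 : SimA J G m) : SimA I G m := by
  intro s₀ hs
  obtain ⟨a1, b1⟩ := h1 s₀ hs
  obtain ⟨a2, b2⟩ := h2 s₀ hs
  rw [Nat.cast_zero, sub_zero] at a1
  exact ⟨fun a => (a1 a).symm.trans (a2 a), fun χ hχ => (b1 χ hχ).symm.trans (b2 χ hχ)⟩

theorem SimA.trans {n k l : ℕ} {I : Ideal (MvPolynomial (Fin n) ℂ)}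
    {J : Ideal (MvPolynomial (Fin k) ℂ)} {G : Ideal (MvPolynomial (Fin l) ℂ)} {m m' : ℕ}
    (h1 : SimA I J m) (h2 : SimA J G m') : SimA I G (m + m') := by
  intro s₀ hs
  obtain ⟨a1, b1⟩ := h1 s₀ hs
  have hs' : ∀ z : ℤ, s₀ - m ≠ z := fun z hz => hs (z + m) (by
    rw [sub_eq_iff_eq_add] at hz
    rw [hz]
    push_cast
    ring)
  obtain ⟨a2, b2⟩ := h2 (s₀ - m) hs'
  have he : expo (s₀ - m) = expo s₀ := by
    have h : 2 * (Real.pi : ℂ) * Complex.I * ((s₀ : ℚ) : ℂ) =
        2 * Real.pi * Complex.I * ((s₀ - m : ℚ) : ℂ) + (m : ℤ) * (2 * Real.pi * Complex.I) := by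
      push_cast
      ring
    unfold expo
    rw [h, Complex.exp_add, Complex.exp_int_mul_two_pi_mul_I, mul_one]
  rw [he] at b2
  have h3 : s₀ - (m + m' : ℕ) = s₀ - m - m' := by
    push_cast
    ring
  rw [h3]
  exact ⟨fun a => (a1 a).trans (a2 a), fun χ hχ => (b1 χ hχ).trans (b2 χ hχ)⟩

theorem SimA.one {n k : ℕ} {I : Ideal (MvPolynomial (Fin n) ℂ)}
    {J : Ideal (MvPolynomial (Fin k) ℂ)} {m : ℕ} (h : SimA I J m) {s₀ : ℚ}
    (hs : ∀ z : ℤ, s₀ ≠ z) : Zmot I ∈ polarRing s₀ ↔ Zmot J ∈ polarRing (s₀ - m) := by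
  have h1 := (h s₀ hs).1 1
  rwa [map_one, one_mul, one_mul] at h1

theorem simA_locPull {n k : ℕ} {I : Ideal (MvPolynomial (Fin n) ℂ)}
    {G : Ideal (MvPolynomial (Fin k) ℂ)} (h : LocPull I 0 G) : SimA I G 0 := by
  intro s₀ _
  rw [Nat.cast_zero, sub_zero]
  exact ⟨fun a => polar_locPull_mul a I G h, fun χ hχ =>
    ⟨fun h1 => nearK_push hχ _ _ _ h _ h1, fun h1 => nearK_of_locPull hχ _ _ _ h _ h1⟩⟩

theorem simA_adj {n : ℕ} (I : Ideal (MvPolynomial (Fin n) ℂ)) : SimA I (adjVar I) 1 := by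
  intro s₀ hs
  rw [Nat.cast_one]
  exact ⟨fun a => polar_adj_mul I a hs, fun χ hχ => ⟨fun h => nearK_adj hχ I h, fun h =>
    nearK_of_adj hχ I (expo_ne_one hs) s₀.den_pos (expo_pow_den s₀) h⟩⟩

theorem germ_span_range {n r : ℕ} (B : Fin r → MvPolynomial (Fin n) ℂ) (c : Fin n → ℂ) :
    germ (Ideal.span (Set.range B)) c =
      Ideal.span (Set.range fun k => aeval (fun i => X i + C (c i)) (B k)) := by
  apply le_antisymm
  · rw [germ, Ideal.span_le]
    rintro _ ⟨f, hf, rfl⟩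
    have h1 : Ideal.span (Set.range B) ≤ Ideal.comap
        (aeval (fun i => (X i + C (c i) : MvPolynomial (Fin n) ℂ))).toRingHom
        (Ideal.span (Set.range fun k => aeval (fun i => X i + C (c i)) (B k))) := by
      rw [Ideal.span_le]
      rintro _ ⟨k, rfl⟩
      exact Ideal.subset_span ⟨k, rfl⟩
    exact h1 hf
  · rw [Ideal.span_le]
    rintro _ ⟨k, rfl⟩
    exact Ideal.subset_span ⟨B k, Ideal.subset_span ⟨k, rfl⟩, rfl⟩

/-- the point `(c, 0)` -/
def ptz {n : ℕ} (r : ℕ) (c : Fin n → ℂ) : Fin (n + 1 * r) → ℂ := Fin.addCases c fun _ => 0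

theorem eval_tri {n r : ℕ} (B : Fin r → MvPolynomial (Fin n) ℂ) (c : Fin n → ℂ) :
    eval (ptz r c) (triForm B) = 0 := by
  rw [triForm, map_sum]
  refine Finset.sum_eq_zero fun k _ => ?_
  rw [map_mul, eval_X, ptz, Fin.addCases_right, zero_mul]

theorem germ_tri {n r : ℕ} (B : Fin r → MvPolynomial (Fin n) ℂ) (c : Fin n → ℂ) :
    germ (Ideal.span {triForm B}) (ptz r c) =
      linGen (fun k => aeval (fun i => X i + C (c i)) (B k)) 1 := by
  rw [germ_span_singleton, linGen_one]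
  congr 2
  rw [triForm, gen, map_sum]
  refine Finset.sum_congr rfl fun k _ => ?_
  rw [map_mul, aeval_X, ptz, Fin.addCases_right, C_0, add_zero]
  congr 1
  rw [aeval_rename, ← AlgHom.comp_apply]
  congr 1
  apply MvPolynomial.algHom_ext
  intro i
  rw [aeval_X, AlgHom.comp_apply, aeval_X, map_add, rename_X, rename_C, Function.comp_apply]
  simp only [ptz, Fin.addCases_left]

theorem isTrilinear_tri {n r : ℕ} {B : Fin r → MvPolynomial (Fin n) ℂ} (h : IsBilinear B) :
    IsTrilinear (triForm B) := by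
  classical
  obtain ⟨κ, hκ⟩ := h
  refine ⟨Fin.addCases (fun i => (κ i).castSucc) (fun _ => 2), fun m hm a => ?_⟩
  have h1 := MvPolynomial.support_sum hm
  rw [Finset.mem_biUnion] at h1
  obtain ⟨k, -, h2⟩ := h1
  rw [support_X_mul, Finset.mem_map] at h2
  obtain ⟨m', hm', rfl⟩ := h2
  rw [support_rename_of_injective (Fin.castAdd_injective n (1 * r)), Finset.mem_image] at hm'
  obtain ⟨m'', hm'', rfl⟩ := hm'
  rw [Finset.sum_filter, Fin.sum_univ_add]
  have e1 : ∀ i : Fin n, (addLeftEmbedding (Finsupp.single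
      (Fin.natAdd n (finProdFinEquiv ((0 : Fin 1), k))) 1)
      (Finsupp.mapDomain (Fin.castAdd (1 * r)) m'')) (Fin.castAdd (1 * r) i) = m'' i := by
    intro i
    rw [addLeftEmbedding_apply, Finsupp.add_apply,
      Finsupp.mapDomain_apply (Fin.castAdd_injective n (1 * r)), Finsupp.single_apply, if_neg, zero_add]
    intro h
    have h3 := congrArg Fin.val h
    have h4 := i.2
    simp only [Fin.val_natAdd, Fin.val_castAdd] at h3
    omega
  have e2 : ∀ j : Fin (1 * r), (addLeftEmbedding (Finsupp.single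
      (Fin.natAdd n (finProdFinEquiv ((0 : Fin 1), k))) 1)
      (Finsupp.mapDomain (Fin.castAdd (1 * r)) m'')) (Fin.natAdd n j) =
      if finProdFinEquiv ((0 : Fin 1), k) = j then 1 else 0 := by
    intro j
    rw [addLeftEmbedding_apply, Finsupp.add_apply, Finsupp.mapDomain_of_notMem_range, add_zero,
      Finsupp.single_apply]
    · congr 1
      rw [Fin.natAdd_inj]
    · rintro ⟨i, hi⟩
      have h3 := congrArg Fin.val hi
      have h4 := i.2
      simp only [Fin.val_natAdd, Fin.val_castAdd] at h3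
      omega
  simp only [Fin.addCases_left, Fin.addCases_right, e1, e2]
  have h5 := hκ k m'' hm''
  match a with
  | 0 =>
    have h6 : ∀ i, ((κ i).castSucc = (0 : Fin 3)) = (κ i = 0) := by
      intro i
      simp
    simp only [h6]
    have h7 : ¬ ((2 : Fin 3) = 0) := by decide
    simp only [h7, if_false, Finset.sum_const_zero, add_zero]
    rw [← Finset.sum_filter]
    exact h5 0
  | 1 =>
    have h6 : ∀ i, ((κ i).castSucc = (1 : Fin 3)) = (κ i = 1) := by
      intro i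
      have := Fin.castSucc_inj (a := κ i) (b := 1)
      simpa using this
    simp only [h6]
    have h7 : ¬ ((2 : Fin 3) = 1) := by decide
    simp only [h7, if_false, Finset.sum_const_zero, add_zero]
    rw [← Finset.sum_filter]
    exact h5 1
  | 2 =>
    have h6 : ∀ i, ¬ ((κ i).castSucc = (2 : Fin 3)) := by
      intro i h
      have h8 : ((κ i).castSucc : ℕ) = 2 := by
        rw [h]
        rfl
      have h9 := (κ i).2
      rw [Fin.val_castSucc] at h8
      omega
    simp only [h6, if_false, Finset.sum_const_zero, if_true, zero_add, Finset.sum_ite_eq,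
      Finset.mem_univ]

/-- every ideal has the same poles, up to a shift by an integer, and the same eigenvalues as an ideal
generated by bilinear forms with at most three terms at a point -/
theorem sim_bilinear {N : ℕ} (I : Ideal (MvPolynomial (Fin N) ℂ)) (h0 : ∀ f ∈ I, eval 0 f = 0) :
    ∃ (n r : ℕ) (B : Fin r → MvPolynomial (Fin n) ℂ) (c : Fin n → ℂ) (m : ℕ), IsBilinear B ∧
      (∀ k, (B k).support.card ≤ 3) ∧ (∀ k, eval c (B k) = 0) ∧
      SimA I (germ (Ideal.span (Set.range B)) c) m := by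
  classical
  obtain ⟨S, hS⟩ := (isNoetherianRing_iff_ideal_fg (MvPolynomial (Fin N) ℂ)).1 inferInstance I
  let f : Fin S.card → MvPolynomial (Fin N) ℂ := fun j => (S.equivFin.symm j : MvPolynomial (Fin N) ℂ)
  have hf : Ideal.span (Set.range f) = I := by
    rw [← hS]
    congr 1
    ext g
    constructor
    · rintro ⟨j, rfl⟩
      exact (S.equivFin.symm j).2
    · intro hg
      exact ⟨S.equivFin ⟨g, hg⟩, by simp [f]⟩
  have hf0 : ∀ j, eval 0 (f j) = 0 := fun j => h0 _ (by rw [← hf]; exact Ideal.subset_span ⟨j, rfl⟩)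
  rw [← hf]
  refine reduce3 (fun n r f => ∃ (n' r' : ℕ) (B : Fin r' → MvPolynomial (Fin n') ℂ)
    (c : Fin n' → ℂ) (m : ℕ), IsBilinear B ∧ (∀ k, (B k).support.card ≤ 3) ∧
      (∀ k, eval c (B k) = 0) ∧
      SimA (Ideal.span (Set.range f)) (germ (Ideal.span (Set.range B)) c) m) ?_ ?_ N S.card f hf0
  · rintro n r f hf ⟨κ, hκ⟩ h3
    obtain ⟨B, c, hB, hcard, hc, hl⟩ := homogenize f hf κ hκ
    exact ⟨n + 2, r, B, c, 0, hB, fun k => (hcard k).trans (h3 k), hc,
      (simA_locPull (locPull_rename_tuple (k := 2) f)).symm_trans (simA_locPull hl)⟩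
  · rintro n r f g Q hQ hlast hg ⟨n', r', B, c, m, hB, h3, hc, h⟩
    refine ⟨n', r', B, c, 1 + m, hB, h3, hc, ?_⟩
    exact (simA_adj _).trans (by
      simpa only [zero_add] using (simA_locPull (locPull_tuple f g Q hQ hlast hg)).trans h)

end CX
end MotMono
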