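import Pool.Agent.Lib.MP_4e5fcd_ag.CX.D1
import Pool.Agent.Lib.MP_4e5fcd_ag.HY.A9

/-!
# CX-D2: the dictionary
-/

open MvPolynomial

namespace MotMono
namespace CX

open CN HY CB TV

/-- every ideal has the same poles, up to a shift by an integer, and the same eigenvalues as an ideal
generated by bilinear forms `B k` with at most three terms at a point `c`; the trilinear form
`∑ k, z_k B_k` at `(c, 0)` has the same eigenvalues and the poles of `(L - 1) Zmot I` -/
theorem dictionary {N : ℕ} (I : Ideal (MvPolynomial (Fin N) ℂ)) (h0 : ∀ f ∈ I, eval 0 f = 0) :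
    ∃ (n r : ℕ) (B : Fin r → MvPolynomial (Fin n) ℂ) (c : Fin n → ℂ) (m : ℕ), IsBilinear B ∧
      (∀ k, (B k).support.card ≤ 3) ∧ (∀ k, eval c (B k) = 0) ∧ IsTrilinear (triForm B) ∧
      ∀ s₀ : ℚ, (∀ z : ℤ, s₀ ≠ z) →
        (IsPole (Zmot I) s₀ ↔ IsPole (Zmot (germ (Ideal.span (Set.range B)) c)) (s₀ - m)) ∧
        (IsPole (PowerSeries.C (((Lu : MCˣ) : MC) - 1) * Zmot I) s₀ ↔
          IsPole (Zmot (germ (Ideal.span {triForm B}) (Fin.addCases c fun _ => 0))) (s₀ - m)) ∧
        ∀ χ : K0 →+* ℤ, IsEulerCharF χ →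
          (ZeroOrPoleNear χ I (Complex.exp (2 * Real.pi * Complex.I * s₀)) ↔
            ZeroOrPoleNear χ (germ (Ideal.span (Set.range B)) c)
              (Complex.exp (2 * Real.pi * Complex.I * s₀))) ∧
          (ZeroOrPoleNear χ I (Complex.exp (2 * Real.pi * Complex.I * s₀)) ↔
            ZeroOrPoleNear χ (germ (Ideal.span {triForm B}) (Fin.addCases c fun _ => 0))
              (Complex.exp (2 * Real.pi * Complex.I * s₀))) := by
  obtain ⟨n, r, B, c, m, hB, h3, hc, h⟩ := sim_bilinear I h0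
  have e1 : (Fin.addCases c fun _ => 0 : Fin (n + 1 * r) → ℂ) = ptz r c := rfl
  refine ⟨n, r, B, c, m, hB, h3, hc, isTrilinear_tri hB, fun s₀ hs => ?_⟩
  obtain ⟨h4, h5⟩ := h s₀ hs
  have hs' : ∀ z : ℤ, s₀ - m ≠ z := fun z hz => hs (z + m) (by
    rw [sub_eq_iff_eq_add] at hz
    rw [hz]
    push_cast
    ring)
  refine ⟨not_congr (h.one hs), ?_, fun χ hχ => ?_⟩
  · rw [e1, germ_tri]
    refine not_congr ((h4 _).trans ?_)
    rw [polar_lin_iff _ hs', germ_span_range]
  · have h6 := h5 χ hχ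
    rw [nearK_iff, nearK_iff, nearK_iff]
    refine ⟨h6, h6.trans ?_⟩
    rw [e1, germ_tri, germ_span_range]
    have e2 : pt (0 : Fin n → ℂ) (0 : Matrix (Fin 1) (Fin r) ℂ) = 0 := by
      funext a
      refine Fin.addCases (fun a => ?_) (fun b => ?_) a
      · simp [pt]
      · simp [pt]
    exact ⟨fun h7 => nearK_lin hχ _ h7, fun h7 => nearK_gen hχ _ 0 (expo_ne_one hs) s₀.den_pos
      (expo_pow_den s₀) (by rw [e2]; exact h7)⟩

/-- for every ideal there are finitely many trilinear forms `T_j` with zeros `c_j` such that the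
property of the monodromy conjecture of the germs of the `T_j` at the `c_j` implies the one of the
ideal: every pole `s₀ ∉ ℤ` of the ideal gives a pole `s₀/r - m_j` of some of these germs, and every
eigenvalue `exp (2πi s₀/r)` of one of them gives the eigenvalue `exp (2πi s₀)` of the ideal -/
theorem finite_family {N : ℕ} (I : Ideal (MvPolynomial (Fin N) ℂ)) (h0 : ∀ f ∈ I, eval 0 f = 0) :
    ∃ (r K : ℕ) (n : Fin K → ℕ) (T : ∀ j, MvPolynomial (Fin (n j)) ℂ) (c : ∀ j, Fin (n j) → ℂ)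
      (m : Fin K → ℕ), 0 < r ∧ (∀ j, IsTrilinear (T j) ∧ eval (c j) (T j) = 0) ∧
      ∀ s₀ : ℚ, (∀ z : ℤ, s₀ ≠ z) →
        (IsPole (Zmot I) s₀ →
          ∃ j, IsPole (Zmot (germ (Ideal.span {T j}) (c j))) (s₀ / r - m j)) ∧
        ∀ χ : K0 →+* ℤ, IsEulerCharF χ → ∀ j,
          ZeroOrPoleNear χ (germ (Ideal.span {T j}) (c j))
              (Complex.exp (2 * Real.pi * Complex.I * (s₀ / r : ℚ))) →
            ZeroOrPoleNear χ I (Complex.exp (2 * Real.pi * Complex.I * s₀)) := by
  classical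
  obtain ⟨S, hS⟩ := (isNoetherianRing_iff_ideal_fg (MvPolynomial (Fin N) ℂ)).1 inferInstance I
  obtain ⟨r, hr⟩ : ∃ r, r = S.card := ⟨_, rfl⟩
  obtain ⟨f, hf⟩ : ∃ f : Fin r → MvPolynomial (Fin N) ℂ, Ideal.span (Set.range f) = I := by
    subst hr
    refine ⟨fun j => (S.equivFin.symm j : MvPolynomial (Fin N) ℂ), ?_⟩
    rw [← hS]
    congr 1
    ext g
    constructor
    · rintro ⟨j, rfl⟩
      exact (S.equivFin.symm j).2
    · intro hg
      exact ⟨S.equivFin ⟨g, hg⟩, by simp⟩
  rcases Nat.eq_zero_or_pos r with hr0 | hr0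
  · subst hr0
    have hI : I = ⊥ := by
      rw [← hf, Set.range_eq_empty, Ideal.span_empty]
    refine ⟨1, 0, Fin.elim0, fun j => j.elim0, fun j => j.elim0, Fin.elim0, one_pos,
      fun j => j.elim0, fun s₀ _ => ⟨fun hpole => ?_, fun χ _ j => j.elim0⟩⟩
    exfalso
    apply hpole
    have hz : Zmot I = 0 := by
      ext k
      rw [Zmot, PowerSeries.coeff_mk]
      have he : ordLocus I k = ∅ := by
        rw [Set.eq_empty_iff_forall_notMem]
        rintro γ ⟨-, -, g, hg, hne⟩
        rw [hI, Ideal.mem_bot] at hg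
        subst hg
        apply hne
        simp [along]
      rw [he, cls_empty, map_zero, zero_mul, map_zero]
    rw [hz]
    exact Subring.zero_mem _
  have hf0 : ∀ j, eval 0 (f j) = 0 := fun j => h0 _ (by rw [← hf]; exact Ideal.subset_span ⟨j, rfl⟩)
  have hg0 : ∀ a, eval 0 (pw f a) = 0 := by
    intro a
    rw [pw, map_prod]
    exact Finset.prod_eq_zero (Finset.mem_univ ⟨0, hr0⟩) (hf0 _)
  have hrq : (r : ℚ) ≠ 0 := by exact_mod_cast hr0.ne'
  have key : ∀ S : {S : Finset (Fin r) // S.Nonempty},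
      ∃ (n : ℕ) (T : MvPolynomial (Fin n) ℂ) (c : Fin n → ℂ) (m : ℕ), IsTrilinear T ∧
        eval c T = 0 ∧
        Sim (germ (linGen (pw f) 1) (pt 0 (unitRow (aS S)))) (germ (Ideal.span {T}) c) m := by
    intro S
    rw [linGen_one, germ_span_singleton]
    exact sim_trilinear _ (by rw [eval_aeval_add, eval_gen_pt _ hg0])
  choose n T c m hT hc hsim using key
  obtain ⟨e⟩ : Nonempty (Fin (Fintype.card {S : Finset (Fin r) // S.Nonempty}) ≃
      {S : Finset (Fin r) // S.Nonempty}) := ⟨(Fintype.equivFin _).symm⟩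
  refine ⟨r, Fintype.card {S : Finset (Fin r) // S.Nonempty}, fun j => n (e j), fun j => T (e j),
    fun j => c (e j), fun j => m (e j), hr0, fun j => ⟨hT _, hc _⟩, fun s₀ hs => ?_⟩
  have hs' : ∀ z : ℤ, s₀ / r ≠ z := by
    intro z hz
    apply hs (z * r)
    rw [div_eq_iff hrq] at hz
    rw [hz]
    push_cast
    ring
  refine ⟨fun hpole => ?_, fun χ hχ j hn => ?_⟩
  · have h1 : Zmot (Ideal.span (Set.range (pw f))) ∉ polarRing (s₀ / r) := by
      intro h2
      rw [span_pw, hf, zmot_pow_eq I hr0.ne'] at h2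
      exact hpole (polar_of_expand hr0.ne' h2)
    obtain ⟨S, hS⟩ : ∃ S : {S : Finset (Fin r) // S.Nonempty},
        Zmot (germ (linGen (pw f) 1) (pt 0 (unitRow (aS S)))) ∉ polarRing (s₀ / r) := by
      by_contra hcon
      push Not at hcon
      refine h1 (polar_alt (pw f) (fun T => unitRow (aS T)) (fun T => (-1 : ℤ) ^ (T.1.card + 1))
        (alt_one hr0) ?_ hcon)
      intro k m γ _ hTE
      obtain ⟨u, hu, hv⟩ := vec_pw hr0 f γ hTE
      rw [hv]
      exact alt_sum u hu
    obtain ⟨j, rfl⟩ := e.surjective S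
    exact ⟨j, fun h3 => hS (((hsim (e j)) (s₀ / r) hs').1.2 h3)⟩
  · rw [nearK_iff] at hn ⊢
    have h3 : NearK χ (germ (linGen (pw f) 1) (pt 0 (unitRow (aS (e j))))) 0 (expo (s₀ / r)) :=
      ((hsim (e j) (s₀ / r) hs').2 χ hχ).2 hn
    have h4 := nearK_of_locPull hχ _ _ _
      (locPull_germ (linGen (pw f) 1) (pt 0 (unitRow (aS (e j))))) _ h3
    have h5 := nearK_gen hχ (pw f) _ (expo_ne_one hs') (s₀ / r).den_pos (expo_pow_den _) h4
    rw [span_pw, hf] at h5
    have h6 := nearK_pow hχ hr0 h5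
    rw [← expo_mul', mul_div_cancel₀ _ hrq] at h6
    exact h6

/-- the statement of the monodromy conjecture for all ideals is equivalent to its case of ideals
generated by bilinear forms with at most three terms, at points -/
theorem iff_bilinear {χ : K0 →+* ℤ} (hχ : IsEulerCharF χ) :
    (∀ (N : ℕ) (I : Ideal (MvPolynomial (Fin N) ℂ)), (∀ f ∈ I, eval 0 f = 0) →
      MonodromyProperty χ I) ↔
    (∀ (n r : ℕ) (B : Fin r → MvPolynomial (Fin n) ℂ), IsBilinear B →
      (∀ k, (B k).support.card ≤ 3) → ∀ c : Fin n → ℂ, (∀ k, eval c (B k) = 0) →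
        MonodromyProperty χ (germ (Ideal.span (Set.range B)) c)) := by
  constructor
  · intro h n r B _ _ c hc
    refine h n _ ?_
    rw [germ_span_range]
    intro f hf
    have h1 : Ideal.span (Set.range fun k => aeval (fun i => X i + C (c i)) (B k)) ≤
        RingHom.ker (eval (0 : Fin n → ℂ)) := by
      rw [Ideal.span_le]
      rintro _ ⟨k, rfl⟩
      show eval 0 (aeval (fun i => X i + C (c i)) (B k)) = 0
      rw [eval_aeval_add, hc]
    exact h1 hf
  · intro h N I h0 s₀ hs hpole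
    obtain ⟨n, r, B, c, m, hB, hcard, hc, hsim⟩ := sim_bilinear I h0
    have h1 := hsim.one hs
    have h2 := (hsim s₀ hs).2
    have h3 := h n r B hB hcard c hc (s₀ - m) (fun z hz => hs (z + m) (by
      rw [sub_eq_iff_eq_add] at hz
      rw [hz]
      push_cast
      ring)) (fun h4 => hpole (h1.2 h4))
    rw [nearK_iff]
    refine (h2 χ hχ).2 ?_
    rw [nearK_iff] at h3
    have he : Complex.exp (2 * Real.pi * Complex.I * ((s₀ - m : ℚ) : ℂ)) = expo s₀ := by
      have h : 2 * (Real.pi : ℂ) * Complex.I * ((s₀ : ℚ) : ℂ) =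
          2 * Real.pi * Complex.I * ((s₀ - m : ℚ) : ℂ) + (m : ℤ) * (2 * Real.pi * Complex.I) := by
        push_cast
        ring
      unfold expo
      rw [h, Complex.exp_add, Complex.exp_int_mul_two_pi_mul_I, mul_one]
    rw [he] at h3
    exact h3

end CX
end MotMono
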