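import Pool.Agent.Lib.MP_4e5fcd_ag.CB.Defs
import Pool.Agent.Lib.MP_4e5fcd_ag.HY.Defs

/-!
# An exact dictionary between ideals, ideals of bilinear forms and trilinear forms: definitions of
the statement

* `IsBilinear B`: the `B k` are bilinear forms in the same two groups of variables;
* `triForm B`: the trilinear form `∑ k, z_k B_k`;
* `pnt c C`: the point `(c, C)` of the space of `triForm B`;
* `Alike a I J m`: `J` has the poles of `a Zmot I`, shifted by `m`, and the same zeros and poles of the
  monodromy zeta function as `I` (only `s₀ ∉ ℤ`).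
-/

open MvPolynomial

namespace MotMono

/-- The `B k` are bilinear forms: the variables are divided into two groups, and every monomial of
each `B k` is a product of one variable of each group. -/
def IsBilinear {n r : ℕ} (B : Fin r → MvPolynomial (Fin n) ℂ) : Prop :=
  ∃ κ : Fin n → Fin 2, ∀ k, ∀ m ∈ (B k).support, ∀ a : Fin 2, ∑ i with κ i = a, m i = 1

/-- The form `∑ k, z_k B_k`, `z_k` new variables (the last `1 * r` variables). -/
noncomputable def triForm {n r : ℕ} (B : Fin r → MvPolynomial (Fin n) ℂ) :
    MvPolynomial (Fin (n + 1 * r)) ℂ :=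
  ∑ k : Fin r, X (Fin.natAdd n (finProdFinEquiv ((0 : Fin 1), k))) * rename (Fin.castAdd (1 * r)) (B k)

/-- The point `(c, C)`, `C` the values of the variables `z_k` of `triForm B`. -/
def pnt {n r : ℕ} (c : Fin n → ℂ) (C : Fin r → ℂ) : Fin (n + 1 * r) → ℂ :=
  Fin.addCases c fun b => C (finProdFinEquiv.symm b).2

/-- For all `s₀` which are not integers: `s₀` is a pole of `a Zmot(I)` if and only if `s₀ - m` is a pole
of `Zmot(J)`, and `exp (2πi s₀)` is a zero or pole of the monodromy zeta function at points of the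
normal cone arbitrarily near the origin for `I` if and only if this holds for `J`. -/
def Alike (a : MC) {n k : ℕ} (I : Ideal (MvPolynomial (Fin n) ℂ)) (J : Ideal (MvPolynomial (Fin k) ℂ))
    (m : ℕ) : Prop :=
  ∀ s₀ : ℚ, (∀ z : ℤ, s₀ ≠ z) →
    (IsPole (PowerSeries.C a * Zmot I) s₀ ↔ IsPole (Zmot J) (s₀ - m)) ∧
    ∀ χ : K0 →+* ℤ, IsEulerCharF χ →
      (ZeroOrPoleNear χ I (Complex.exp (2 * Real.pi * Complex.I * s₀)) ↔
        ZeroOrPoleNear χ J (Complex.exp (2 * Real.pi * Complex.I * s₀)))

end MotMono
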