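import Pool.Agent.Lib.MP_4e5fcd_ag.CX.Defs
import Pool.Agent.Lib.MP_4e5fcd_ag.CB.Base

/-!
# CX-E0: the forms `∑ k, z_k f_k` at points `(c, C)`
-/

open MvPolynomial

namespace MotMono
namespace CX

open CN HY CB

/-- the variable `z_k` -/
def zi (n : ℕ) {r : ℕ} (k : Fin r) : Fin (n + 1 * r) :=
  Fin.natAdd n (finProdFinEquiv ((0 : Fin 1), k))

/-- the polynomial with `p` moved to the origin -/
noncomputable def mv {N : ℕ} (F : MvPolynomial (Fin N) ℂ) (p : Fin N → ℂ) :
    MvPolynomial (Fin N) ℂ := aeval (fun i => X i + C (p i)) F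

theorem pnt_left {n r : ℕ} (c : Fin n → ℂ) (C : Fin r → ℂ) (i : Fin n) :
    pnt c C (Fin.castAdd (1 * r) i) = c i := by
  rw [pnt, Fin.addCases_left]

theorem pnt_zi {n r : ℕ} (c : Fin n → ℂ) (C : Fin r → ℂ) (k : Fin r) :
    pnt c C (zi n k) = C k := by
  rw [pnt, zi, Fin.addCases_right, Equiv.symm_apply_apply]

/-- induction over the variables -/
theorem zcases {n r : ℕ} {P : Fin (n + 1 * r) → Prop} (h1 : ∀ i : Fin n, P (Fin.castAdd (1 * r) i))
    (h2 : ∀ k : Fin r, P (zi n k)) (i : Fin (n + 1 * r)) : P i := by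
  refine Fin.addCases h1 (fun b => ?_) i
  obtain ⟨⟨a, k⟩, rfl⟩ := finProdFinEquiv.surjective b
  rw [Subsingleton.elim a 0]
  exact h2 k

theorem zi_injective {n r : ℕ} : Function.Injective (zi n : Fin r → Fin (n + 1 * r)) := by
  intro a b h
  have h1 := finProdFinEquiv.injective (Fin.natAdd_injective _ _ h)
  exact (Prod.mk.inj h1).2

theorem castAdd_ne_zi {n r : ℕ} (i : Fin n) (k : Fin r) :
    Fin.castAdd (1 * r) i ≠ zi n k := by
  intro h
  have h1 := congrArg Fin.val h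
  rw [zi, Fin.val_castAdd, Fin.val_natAdd] at h1
  have := i.2
  omega

theorem tri_eq {n r : ℕ} (f : Fin r → MvPolynomial (Fin n) ℂ) :
    triForm f = ∑ k, X (zi n k) * rename (Fin.castAdd (1 * r)) (f k) := rfl

theorem mv_tri {n r : ℕ} (f : Fin r → MvPolynomial (Fin n) ℂ) (C : Fin r → ℂ) :
    mv (triForm f) (pnt 0 C) =
      ∑ k, (X (zi n k) + MvPolynomial.C (C k)) * rename (Fin.castAdd (1 * r)) (f k) := by
  rw [mv, tri_eq, map_sum]
  refine Finset.sum_congr rfl fun k _ => ?_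
  rw [map_mul, aeval_X, pnt_zi, aeval_rename]
  congr 1
  have h : (fun i => (X i + MvPolynomial.C (pnt (0 : Fin n → ℂ) C i) : MvPolynomial (Fin (n + 1 * r)) ℂ)) ∘
      Fin.castAdd (1 * r) = X ∘ Fin.castAdd (1 * r) := by
    funext i
    simp only [Function.comp_apply, pnt_left, Pi.zero_apply, map_zero, add_zero]
  rw [h, ← aeval_rename, aeval_X_left_apply]

theorem germ_mv {N : ℕ} (F : MvPolynomial (Fin N) ℂ) (p : Fin N → ℂ) :
    germ (Ideal.span {F}) p = Ideal.span {mv F p} := by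
  apply le_antisymm
  · rw [germ, Ideal.span_le]
    rintro _ ⟨f, hf, rfl⟩
    obtain ⟨b, rfl⟩ := Ideal.mem_span_singleton.1 hf
    rw [map_mul]
    exact Ideal.mul_mem_right _ _ (Ideal.subset_span rfl)
  · rw [Ideal.span_le]
    rintro _ rfl
    exact Ideal.subset_span ⟨F, Ideal.subset_span rfl, rfl⟩

end CX
end MotMono
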