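import Pool.Agent.Lib.MP_4e5fcd_ag.CX.E0

/-!
# CX-E1: one step for the form `∑ k, z_k f_k` at the point `(0, C)`

Let `g (castSucc j) = rename castSucc (f j) + a_j * g (last r)` (choose the `a_j`),
`C' = Fin.snoc C (- ∑ j, eval 0 (a_j) * C j)`. Write the variables of `triForm g` (there are `(n+1) + 1 * (r+1)` of
them) as `x_i = X (castAdd _ (castSucc i))`, `v = X (castAdd _ (last n))`, `y_j = X (zi (n+1) (castSucc j))`,
`w = X (zi (n+1) (last r))`. With `ι = rename (castAdd _)` (from `Fin (n+1)`), by `mv_tri` and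
`Fin.sum_univ_castSucc`
`mv (triForm g) (pnt 0 C') = ∑ j, (y_j + C j) * ι (rename castSucc (f j)) + W * V`,
`V = ι (g (last r)) = v + ι (rename castSucc Q)`, `W = w + C' (last r) + ∑ j, (y_j + C j) * ι (a_j)`.
`V` and `W` vanish at `0`.
`LocPull I p G`: `I` is the ideal of the big space, `G = span {hyp (mv (triForm f) (pnt 0 C))}`, in the
variables `Fin ((n + 1 * r) + 2)`. `e : Fin (n + 1 * r + 2) → Fin (n + 1 + 1 * (r + 1))` is the injection (a
bijection) `castAdd 2 (castAdd _ i) ↦ castAdd _ (castSucc i)`, `castAdd 2 (zi n j) ↦ zi (n+1) (castSucc j)`,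
`natAdd _ 0 ↦ zi (n+1) (last r)` and `natAdd _ 1 ↦ castAdd _ (last n)`. `u = X` on the variables `x_i`, `y_j`, `u = W` on
the variable `w`, `u = V` on the variable `v`; `h = 1`. Then
`aeval (fun i => u (e i)) (hyp (mv (triForm f) (pnt 0 C))) = mv (triForm g) (pnt 0 C')`
(`hyp G = rename (castAdd 2) G + X (natAdd _ 0) * X (natAdd _ 1)`), and both ideals are principal with
corresponding generators, which gives `push` and `pull`.
Jacobian: at `0` (evaluate the matrix, `RingHom.map_det`) the matrix `∂ u_i / ∂ x_j` is the identity plus a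
strictly triangular matrix for a suitable order: row `v` has entries in the columns `x_i`, row `w` has
entries in the columns `x_i, y_j, v`. A possible proof that the determinant is `≠ 0`: the matrix is
injective as a linear map (`Matrix.exists_mulVec_eq_zero_iff` / `det_ne_zero`): if `M z = 0` then
`z` vanishes on `x_i, y_j`, then on `v`, then on `w`. Or `Matrix.det_of_isLowerTriangular` does not apply
directly (the order of the variables is x, v, y, w: row `v` is triangular, row `w` is the last row, rows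
`x_i`, `y_j` are unit vectors): in fact with the order of `Fin (n + 1 + 1 * (r + 1))` (x, v, y, w) the matrix IS
lower triangular with `1` on the diagonal (entries `(i, j)` with `i < j` are `0`), see `c1_jac` in CB/C1 and
CX/C1.
-/

open MvPolynomial

namespace MotMono
namespace CX

open CN HY CB

private theorem e1_zi_val {n r : ℕ} (k : Fin r) : ((zi n k : Fin (n + 1 * r)) : ℕ) = n + k := by
  simp [zi]

private def e1e (n r : ℕ) (i : Fin (n + 1 * r + 2)) : Fin (n + 1 + 1 * (r + 1)) :=
  if _h : (i : ℕ) < n then ⟨i, by omega⟩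
  else if _h2 : (i : ℕ) < n + r + 1 then ⟨i + 1, by omega⟩ else ⟨n, by omega⟩

private theorem e1e_val (n r : ℕ) (i : Fin (n + 1 * r + 2)) : ((e1e n r i : Fin _) : ℕ) =
    if (i : ℕ) < n then (i : ℕ) else if (i : ℕ) < n + r + 1 then (i : ℕ) + 1 else n := by
  unfold e1e
  split_ifs <;> rfl

private theorem e1e_inj (n r : ℕ) : Function.Injective (e1e n r) := by
  intro a b h
  have h1 := congrArg Fin.val h
  rw [e1e_val, e1e_val] at h1
  have ha := a.2
  have hb := b.2
  apply Fin.ext
  split_ifs at h1 <;> omega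

private theorem e1e_x {n r : ℕ} (i : Fin n) :
    e1e n r (Fin.castAdd 2 (Fin.castAdd (1 * r) i)) = Fin.castAdd (1 * (r + 1)) i.castSucc := by
  apply Fin.ext
  rw [e1e_val]
  have hi := i.2
  have e : ((Fin.castAdd 2 (Fin.castAdd (1 * r) i) : Fin _) : ℕ) = i := rfl
  rw [e, if_pos hi]
  rfl

private theorem e1e_y {n r : ℕ} (j : Fin r) :
    e1e n r (Fin.castAdd 2 (zi n j)) = zi (n + 1) j.castSucc := by
  apply Fin.ext
  rw [e1e_val, e1_zi_val]
  have hj := j.2
  have e : ((Fin.castAdd 2 (zi n j) : Fin _) : ℕ) = n + j := by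
    rw [Fin.val_castAdd, e1_zi_val]
  rw [e, if_neg (by omega), if_pos (by omega), Fin.val_castSucc]
  omega

private theorem e1e_w {n r : ℕ} :
    e1e n r (Fin.natAdd (n + 1 * r) 0) = zi (n + 1) (Fin.last r) := by
  apply Fin.ext
  rw [e1e_val, e1_zi_val]
  have e : ((Fin.natAdd (n + 1 * r) (0 : Fin 2) : Fin _) : ℕ) = n + r := by
    rw [Fin.val_natAdd]
    simp
  rw [e, if_neg (by omega), if_pos (by omega), Fin.val_last]
  omega

private theorem e1e_v {n r : ℕ} :
    e1e n r (Fin.natAdd (n + 1 * r) 1) = Fin.castAdd (1 * (r + 1)) (Fin.last n) := by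
  apply Fin.ext
  rw [e1e_val]
  have e : ((Fin.natAdd (n + 1 * r) (1 : Fin 2) : Fin _) : ℕ) = n + r + 1 := by
    rw [Fin.val_natAdd]
    simp
  rw [e, if_neg (by omega), if_neg (by omega)]
  rfl

/-- the coordinates -/
private noncomputable def e1u {n r : ℕ} (V W : MvPolynomial (Fin (n + 1 + 1 * (r + 1))) ℂ)
    (i : Fin (n + 1 + 1 * (r + 1))) : MvPolynomial (Fin (n + 1 + 1 * (r + 1))) ℂ :=
  if (i : ℕ) = n then V else if (i : ℕ) = n + 1 + r then W else X i

private theorem e1u_x {n r : ℕ} (V W : MvPolynomial (Fin (n + 1 + 1 * (r + 1))) ℂ) (i : Fin n) :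
    e1u V W (Fin.castAdd (1 * (r + 1)) i.castSucc) =
      X (Fin.castAdd (1 * (r + 1)) i.castSucc) := by
  have hi := i.2
  have e : ((Fin.castAdd (1 * (r + 1)) i.castSucc : Fin _) : ℕ) = i := rfl
  rw [e1u, e, if_neg (by omega), if_neg (by omega)]

private theorem e1u_y {n r : ℕ} (V W : MvPolynomial (Fin (n + 1 + 1 * (r + 1))) ℂ) (j : Fin r) :
    e1u V W (zi (n + 1) j.castSucc) = X (zi (n + 1) j.castSucc) := by
  have hj := j.2
  rw [e1u, e1_zi_val, Fin.val_castSucc, if_neg (by omega), if_neg (by omega)]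

private theorem e1u_w {n r : ℕ} (V W : MvPolynomial (Fin (n + 1 + 1 * (r + 1))) ℂ) :
    e1u V W (zi (n + 1) (Fin.last r)) = W := by
  rw [e1u, e1_zi_val, Fin.val_last, if_neg (by omega), if_pos rfl]

private theorem e1u_v {n r : ℕ} (V W : MvPolynomial (Fin (n + 1 + 1 * (r + 1))) ℂ) :
    e1u V W (Fin.castAdd (1 * (r + 1)) (Fin.last n)) = V := by
  have e : ((Fin.castAdd (1 * (r + 1)) (Fin.last n) : Fin _) : ℕ) = n := rfl
  rw [e1u, e, if_pos rfl]

private theorem e1_pderiv {A B : Type} [DecidableEq B] (g : A → B) (b : B) (P : MvPolynomial A ℂ)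
    (hb : ∀ a, g a ≠ b) : pderiv b (rename g P) = 0 := by
  classical
  apply pderiv_eq_zero_of_notMem_vars
  intro h
  have h1 := vars_rename g P h
  rw [Finset.mem_image] at h1
  obtain ⟨a, _, ha⟩ := h1
  exact hb a ha

private theorem e1_jac {n r : ℕ} (V W : MvPolynomial (Fin (n + 1 + 1 * (r + 1))) ℂ)
    (hV : ∀ j : Fin (n + 1 + 1 * (r + 1)), n < (j : ℕ) → pderiv j V = 0)
    (hV1 : pderiv (Fin.castAdd (1 * (r + 1)) (Fin.last n)) V = 1)
    (hW1 : pderiv (zi (n + 1) (Fin.last r)) W = 1) : jacDet (e1u V W) = 1 := by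
  unfold jacDet
  have hcase : ∀ i : Fin (n + 1 + 1 * (r + 1)),
      (i = Fin.castAdd (1 * (r + 1)) (Fin.last n) ∧ e1u V W i = V) ∨
      (i = zi (n + 1) (Fin.last r) ∧ e1u V W i = W) ∨ e1u V W i = X i := by
    intro i
    by_cases h1 : (i : ℕ) = n
    · left
      refine ⟨Fin.ext h1, ?_⟩
      rw [e1u, if_pos h1]
    · by_cases h2 : (i : ℕ) = n + 1 + r
      · right; left
        refine ⟨Fin.ext ?_, ?_⟩
        · rw [e1_zi_val, Fin.val_last, h2]
        · rw [e1u, if_neg h1, if_pos h2]
      · right; right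
        rw [e1u, if_neg h1, if_neg h2]
  rw [Matrix.det_of_isLowerTriangular]
  · apply Finset.prod_eq_one
    intro i _
    rw [Matrix.of_apply]
    rcases hcase i with ⟨h1, h2⟩ | ⟨h1, h2⟩ | h2
    · rw [h2, h1, hV1]
    · rw [h2, h1, hW1]
    · rw [h2, pderiv_X_self]
  · intro i j hij
    have hij' : i < j := hij
    have hij2 : (i : ℕ) < j := hij'
    rw [Matrix.of_apply]
    rcases hcase i with ⟨h1, h2⟩ | ⟨h1, h2⟩ | h2
    · rw [h2]
      apply hV
      have e : (i : ℕ) = n := by rw [h1]; rfl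
      omega
    · exfalso
      have e : (i : ℕ) = n + 1 + r := by rw [h1, e1_zi_val, Fin.val_last]
      have := j.2
      omega
    · rw [h2, pderiv_X_of_ne hij'.ne]

private theorem e1_eval {N r : ℕ} (P : MvPolynomial (Fin N) ℂ) :
    eval 0 (rename (Fin.castAdd (1 * r)) P) = eval 0 P := by
  rw [eval_rename]
  rfl

theorem locPull_tri_step {n r : ℕ} (f : Fin r → MvPolynomial (Fin n) ℂ)
    (g : Fin (r + 1) → MvPolynomial (Fin (n + 1)) ℂ) (Q : MvPolynomial (Fin n) ℂ)
    (hQ : eval 0 Q = 0) (hlast : g (Fin.last r) = X (Fin.last n) + rename Fin.castSucc Q)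
    (hg : ∀ j : Fin r, ∃ a, g j.castSucc = rename Fin.castSucc (f j) + a * g (Fin.last r))
    (C : Fin r → ℂ) :
    ∃ C' : Fin (r + 1) → ℂ, LocPull (Ideal.span {mv (triForm g) (pnt 0 C')}) 0
      (Ideal.span {hyp (mv (triForm f) (pnt 0 C))}) := by
  choose a ha using hg
  refine ⟨Fin.snoc (α := fun _ => ℂ) C (-∑ j, C j * eval 0 (a j)), ?_⟩
  obtain ⟨V, hV⟩ : ∃ V, V = rename (Fin.castAdd (1 * (r + 1))) (g (Fin.last r)) := ⟨_, rfl⟩
  obtain ⟨W, hW⟩ : ∃ W, W = X (zi (n + 1) (Fin.last r)) +
      MvPolynomial.C (-∑ j, C j * eval 0 (a j)) +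
      ∑ j : Fin r, (X (zi (n + 1) j.castSucc) + MvPolynomial.C (C j)) *
        rename (Fin.castAdd (1 * (r + 1))) (a j) := ⟨_, rfl⟩
  have hV0 : eval 0 V = 0 := by
    rw [hV, e1_eval, hlast, map_add, eval_X, eval_rename]
    have h0 : (0 : Fin (n + 1) → ℂ) ∘ Fin.castSucc = 0 := rfl
    rw [h0, hQ]
    simp
  have hW0 : eval 0 W = 0 := by
    rw [hW, map_add, map_add, eval_X, eval_C, map_sum]
    have h1 : ∀ j : Fin r, eval (0 : Fin (n + 1 + 1 * (r + 1)) → ℂ)
        ((X (zi (n + 1) j.castSucc) + MvPolynomial.C (C j)) *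
          rename (Fin.castAdd (1 * (r + 1))) (a j)) = C j * eval 0 (a j) := by
      intro j
      rw [map_mul, map_add, eval_X, eval_C, e1_eval]
      simp
    rw [Finset.sum_congr rfl fun j _ => h1 j]
    simp
  have hjac : jacDet (e1u V W) = 1 := by
    apply e1_jac
    · intro j hj
      rw [hV, hlast, map_add, rename_X, map_add, rename_rename, pderiv_X_of_ne, zero_add]
      · apply e1_pderiv
        intro i hi
        have h1 := congrArg Fin.val hi
        have e : (((Fin.castAdd (1 * (r + 1)) ∘ Fin.castSucc) i : Fin _) : ℕ) = i := rfl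
        rw [e] at h1
        have := i.2
        omega
      · intro h
        rw [← h] at hj
        exact absurd hj (lt_irrefl n)
    · rw [hV, hlast, map_add, rename_X, map_add, rename_rename, pderiv_X_self, e1_pderiv, add_zero]
      intro i hi
      have h1 := congrArg Fin.val hi
      have e : (((Fin.castAdd (1 * (r + 1)) ∘ Fin.castSucc) i : Fin _) : ℕ) = i := rfl
      rw [e] at h1
      have e2 : ((Fin.castAdd (1 * (r + 1)) (Fin.last n) : Fin _) : ℕ) = n := rfl
      rw [e2] at h1
      have := i.2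
      omega
    · rw [hW, map_add, map_add, pderiv_X_self, pderiv_C, map_sum, add_zero]
      rw [Finset.sum_eq_zero, add_zero]
      intro j _
      have h1 : pderiv (zi (n + 1) (Fin.last r))
          (rename (Fin.castAdd (1 * (r + 1))) (a j)) = 0 := by
        apply e1_pderiv
        intro i
        exact castAdd_ne_zi i _
      have h2 : pderiv (zi (n + 1) (Fin.last r))
          (X (zi (n + 1) j.castSucc) + MvPolynomial.C (C j) :
            MvPolynomial (Fin (n + 1 + 1 * (r + 1))) ℂ) = 0 := by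
        rw [map_add, pderiv_C, add_zero, pderiv_X_of_ne]
        intro h
        exact (Fin.castSucc_lt_last j).ne (zi_injective h)
      rw [Derivation.leibniz, h1, h2, smul_zero, smul_zero, add_zero]
  have hmain : aeval (fun i => e1u V W (e1e n r i)) (hyp (mv (triForm f) (pnt 0 C))) =
      mv (triForm g) (pnt 0 (Fin.snoc (α := fun _ => ℂ) C (-∑ j, C j * eval 0 (a j)))) := by
    rw [hyp, map_add, map_mul, aeval_X, aeval_X, e1e_w, e1e_v, e1u_w, e1u_v, aeval_rename, mv_tri,
      mv_tri, map_sum, Fin.sum_univ_castSucc, Fin.snoc_last, ← hV]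
    have h1 : ∀ j : Fin r, aeval ((fun i => e1u V W (e1e n r i)) ∘ Fin.castAdd 2)
        ((X (zi n j) + MvPolynomial.C (C j)) * rename (Fin.castAdd (1 * r)) (f j)) =
        (X (zi (n + 1) j.castSucc) + MvPolynomial.C (C j)) *
          rename (Fin.castAdd (1 * (r + 1))) (rename Fin.castSucc (f j)) := by
      intro j
      rw [map_mul, map_add, aeval_X, aeval_rename, rename_rename]
      have e1 : ((fun i => e1u V W (e1e n r i)) ∘ Fin.castAdd 2) (zi n j) =
          X (zi (n + 1) j.castSucc) := by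
        show e1u V W (e1e n r (Fin.castAdd 2 (zi n j))) = _
        rw [e1e_y, e1u_y]
      have e2 : ((fun i => e1u V W (e1e n r i)) ∘ Fin.castAdd 2) ∘ Fin.castAdd (1 * r) =
          X ∘ (Fin.castAdd (1 * (r + 1)) ∘ Fin.castSucc) := by
        funext i
        show e1u V W (e1e n r (Fin.castAdd 2 (Fin.castAdd (1 * r) i))) = _
        rw [e1e_x, e1u_x]
        rfl
      have e3 : aeval (X ∘ (Fin.castAdd (1 * (r + 1)) ∘ Fin.castSucc)) (f j) =
          rename (Fin.castAdd (1 * (r + 1)) ∘ Fin.castSucc) (f j) := by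
        rw [← aeval_rename, aeval_X_left_apply]
      rw [e1, e2, e3, aeval_C]
      rfl
    have h2 : ∀ j : Fin r, (X (zi (n + 1) j.castSucc) +
        MvPolynomial.C ((Fin.snoc (α := fun _ => ℂ) C (-∑ j, C j * eval 0 (a j)) :
          Fin (r + 1) → ℂ) j.castSucc)) *
          rename (Fin.castAdd (1 * (r + 1))) (g j.castSucc) =
        (X (zi (n + 1) j.castSucc) + MvPolynomial.C (C j)) *
          rename (Fin.castAdd (1 * (r + 1))) (rename Fin.castSucc (f j)) +
        ((X (zi (n + 1) j.castSucc) + MvPolynomial.C (C j)) *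
          rename (Fin.castAdd (1 * (r + 1))) (a j)) * V := by
      intro j
      rw [Fin.snoc_castSucc, ha j, map_add, map_mul, ← hV]
      ring
    rw [Finset.sum_congr rfl fun j _ => h1 j, Finset.sum_congr rfl fun j _ => h2 j,
      Finset.sum_add_distrib, ← Finset.sum_mul, hW]
    ring
  have key : ∀ x : MvPolynomial (Fin (n + 1 + 1 * (r + 1))) ℂ,
      (1 : MvPolynomial (Fin (n + 1 + 1 * (r + 1))) ℂ) * x = x := fun x => one_mul x
  refine ⟨e1u V W, e1e n r, 1, e1e_inj n r, ?_, ?_, ?_, ?_, ?_⟩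
  · rw [map_one]
    exact one_ne_zero
  · rw [hjac, map_one]
    exact one_ne_zero
  · intro i
    refine Fin.addCases (fun i => ?_) (fun t => ?_) i
    · refine zcases (P := fun i => eval 0 (e1u V W (e1e n r (Fin.castAdd 2 i))) = 0)
        (fun i => ?_) (fun k => ?_) i
      · rw [e1e_x, e1u_x, eval_X]
        rfl
      · rw [e1e_y, e1u_y, eval_X]
        rfl
    · fin_cases t
      · show eval 0 (e1u V W (e1e n r (Fin.natAdd (n + 1 * r) 0))) = 0
        rw [e1e_w, e1u_w]
        exact hW0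
      · show eval 0 (e1u V W (e1e n r (Fin.natAdd (n + 1 * r) 1))) = 0
        rw [e1e_v, e1u_v]
        exact hV0
  · intro G hG
    obtain ⟨b, rfl⟩ := Ideal.mem_span_singleton.1 hG
    rw [key, map_mul, hmain]
    exact Ideal.mul_mem_right _ _ (Ideal.subset_span rfl)
  · intro F hF
    obtain ⟨b, rfl⟩ := Ideal.mem_span_singleton.1 hF
    rw [key]
    exact Ideal.mul_mem_right _ _ (Ideal.subset_span ⟨_, Ideal.subset_span rfl, hmain.symm⟩)

end CX
end MotMono
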