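import Pool.Agent.Lib.MP_4e5fcd_ag.CX.E0
import Pool.Agent.Lib.MP_4e5fcd_ag.CX.C2

/-!
# CX-E2: bilinear and trilinear forms from a tuple of polynomials with coloured variables

The forms `B` and the point `c` are those of `homogenize` in CX/C2 (`B k = c2T κ (f k)`, `c = c2c n`; all lemmas
`c2_main`, `c2_bil`, `c2_card`, `c2_eval`, `c2_jac`, `c2_push`, `c2_pull`, `c2_unit`, `c2_zero` of CX/C2 are public
now; the first four parts of the statement are proved exactly as in `homogenize`). Last part, for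
`C : Fin r → ℂ`: put `f' k = rename (castAdd 2) (f k)`. By `c2_main`
`aeval (c2u κ) (mv (B k) c) = c2U n * f' k`. In the big space (`Fin (n + 2 + 1 * r)`) let
`U' = rename (castAdd _) (c2U n)`, `u (castAdd _ i) = rename (castAdd _) (c2u κ i)`, `u (zi (n+2) k) = X (zi (n+2) k)`
(`Fin.addCases`; `zcases` for proofs), `e = id`, `h = U'`. As in `mv_tri` (CX/E0)
`mv (triForm B) (pnt c C) = ∑ k, (X (zi _ k) + C (C k)) * rename (castAdd _) (mv (B k) c)`, so
`aeval u (mv (triForm B) (pnt c C)) = ∑ k, (X (zi _ k) + C (C k)) * rename (castAdd _) (c2U n * f' k) = U' * mv (triForm f') (pnt 0 C)`.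
Both ideals are principal (`germ_mv`): `push` and `pull` follow. Jacobian: at `0` the matrix is the
identity (as in `c2_jac`; `pderiv (castAdd _ j) (rename (castAdd _) P) = rename (castAdd _) (pderiv j P)`
is `MvPolynomial.pderiv_rename` (injective map) or `MvPolynomial.induction_on`).
-/

open MvPolynomial

namespace MotMono
namespace CX

open CN HY CB

/-- the coordinates of the big space -/
private noncomputable def e2u {n : ℕ} (r : ℕ) (κ : Fin n → Fin 2) :
    Fin (n + 2 + 1 * r) → MvPolynomial (Fin (n + 2 + 1 * r)) ℂ :=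
  Fin.addCases (fun i => rename (Fin.castAdd (1 * r)) (c2u κ i)) (fun b => X (Fin.natAdd (n + 2) b))

private theorem e2u_l {n : ℕ} (r : ℕ) (κ : Fin n → Fin 2) (i : Fin (n + 2)) :
    e2u r κ (Fin.castAdd (1 * r) i) = rename (Fin.castAdd (1 * r)) (c2u κ i) := by
  rw [e2u, Fin.addCases_left]

private theorem e2u_z {n r : ℕ} (κ : Fin n → Fin 2) (k : Fin r) :
    e2u r κ (zi (n + 2) k) = X (zi (n + 2) k) := by
  rw [e2u, zi, Fin.addCases_right]

private theorem e2_eval {N r : ℕ} (P : MvPolynomial (Fin N) ℂ) :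
    eval 0 (rename (Fin.castAdd (1 * r)) P) = eval 0 P := by
  rw [eval_rename]
  rfl

private theorem e2_zero {n r : ℕ} (κ : Fin n → Fin 2) (i : Fin (n + 2 + 1 * r)) :
    eval 0 (e2u r κ i) = 0 := by
  refine zcases (P := fun i => eval 0 (e2u r κ i) = 0) (fun i => ?_) (fun k => ?_) i
  · rw [e2u_l, e2_eval]
    exact c2_zero κ i
  · rw [e2u_z, eval_X]
    rfl

private theorem e2_jac {n : ℕ} (r : ℕ) (κ : Fin n → Fin 2) : eval 0 (jacDet (e2u r κ)) = 1 := by
  classical
  unfold jacDet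
  rw [RingHom.map_det]
  have h1 : (eval (0 : Fin (n + 2 + 1 * r) → ℂ)).mapMatrix
      (Matrix.of fun i j => pderiv j (e2u r κ i)) = 1 := by
    ext i j
    rw [RingHom.mapMatrix_apply, Matrix.map_apply, Matrix.of_apply, Matrix.one_apply]
    refine zcases (P := fun i => eval (0 : Fin (n + 2 + 1 * r) → ℂ) (pderiv j (e2u r κ i)) =
      if i = j then 1 else 0) (fun i => ?_) (fun k => ?_) i
    · refine Fin.addCases (fun i => ?_) (fun a => ?_) i
      · rw [e2u_l, c2u_l, map_mul, map_add, rename_X, rename_X, map_one, Derivation.leibniz,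
          map_add, pderiv_X]
        simp only [smul_eq_mul, map_add, map_mul, eval_X, Pi.zero_apply, zero_mul, zero_add,
          map_one, add_zero, one_mul]
        by_cases h : Fin.castAdd (1 * r) (Fin.castAdd 2 i) = j
        · rw [if_pos h, ← h, Pi.single_eq_same, map_one]
        · rw [if_neg h, Pi.single_eq_of_ne h, map_zero]
      · rw [e2u_l, c2u_r, rename_X, pderiv_X]
        by_cases h : Fin.castAdd (1 * r) (Fin.natAdd n a) = j
        · rw [if_pos h, ← h, Pi.single_eq_same, map_one]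
        · rw [if_neg h, Pi.single_eq_of_ne h, map_zero]
    · rw [e2u_z, pderiv_X]
      by_cases h : zi (n + 2) k = j
      · rw [if_pos h, ← h, Pi.single_eq_same, map_one]
      · rw [if_neg h, Pi.single_eq_of_ne h, map_zero]
  rw [h1, Matrix.det_one]

private theorem e2_aeval {n r : ℕ} (κ : Fin n → Fin 2) (P : MvPolynomial (Fin (n + 2)) ℂ) :
    aeval (e2u r κ) (rename (Fin.castAdd (1 * r)) P) =
      rename (Fin.castAdd (1 * r)) (aeval (c2u κ) P) := by
  rw [aeval_rename]
  have h1 : e2u r κ ∘ Fin.castAdd (1 * r) = fun i => rename (Fin.castAdd (1 * r)) (c2u κ i) := by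
    funext i
    exact e2u_l r κ i
  rw [h1, ← AlgHom.comp_apply, comp_aeval]

private theorem e2_mv {N r : ℕ} (B : Fin r → MvPolynomial (Fin N) ℂ) (c : Fin N → ℂ)
    (C : Fin r → ℂ) :
    mv (triForm B) (pnt c C) =
      ∑ k, (X (zi N k) + MvPolynomial.C (C k)) * rename (Fin.castAdd (1 * r)) (mv (B k) c) := by
  rw [mv, tri_eq, map_sum]
  refine Finset.sum_congr rfl fun k _ => ?_
  rw [map_mul, aeval_X, pnt_zi, aeval_rename]
  congr 1
  have h1 : (fun i => (X i + MvPolynomial.C (pnt c C i) : MvPolynomial (Fin (N + 1 * r)) ℂ)) ∘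
      Fin.castAdd (1 * r) =
      fun i => rename (Fin.castAdd (1 * r)) (X i + MvPolynomial.C (c i)) := by
    funext i
    rw [Function.comp_apply, pnt_left, map_add, rename_X, rename_C]
  rw [h1, mv, ← AlgHom.comp_apply, comp_aeval]

private theorem e2_main {n r : ℕ} (f : Fin r → MvPolynomial (Fin n) ℂ)
    (κ : Fin n → Fin 2) (hκ : ∀ k, ∀ m ∈ (f k).support, ∀ a : Fin 2, ∑ i with κ i = a, m i ≤ 1)
    (C : Fin r → ℂ) :
    aeval (e2u r κ) (mv (triForm fun k => c2T κ (f k)) (pnt (c2c n) C)) =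
      rename (Fin.castAdd (1 * r)) (c2U n) *
        mv (triForm fun k => rename (Fin.castAdd 2) (f k)) (pnt 0 C) := by
  rw [e2_mv, mv_tri, map_sum, Finset.mul_sum]
  refine Finset.sum_congr rfl fun k _ => ?_
  have h1 : aeval (c2u κ) (mv (c2T κ (f k)) (c2c n)) = c2U n * rename (Fin.castAdd 2) (f k) :=
    c2_main (f k) κ (hκ k)
  rw [map_mul, map_add, aeval_X, e2u_z, e2_aeval, h1, map_mul, aeval_C]
  have h2 : algebraMap ℂ (MvPolynomial (Fin (n + 2 + 1 * r)) ℂ) (C k) = MvPolynomial.C (C k) := rfl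
  rw [h2]
  ring

private theorem e2_locPull {N : ℕ} (F T h : MvPolynomial (Fin N) ℂ) (p : Fin N → ℂ)
    (u : Fin N → MvPolynomial (Fin N) ℂ) (hh : eval 0 h ≠ 0) (hj : eval 0 (jacDet u) ≠ 0)
    (h0 : ∀ i, eval 0 (u i) = 0) (hm : aeval u (mv T p) = h * F) :
    LocPull (Ideal.span {F}) 0 (germ (Ideal.span {T}) p) := by
  refine ⟨u, id, h, Function.injective_id, hh, hj, h0, fun g hg => ?_, fun f' hf => ?_⟩
  · rw [germ_mv] at hg
    obtain ⟨b, rfl⟩ := Ideal.mem_span_singleton.1 hg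
    have e : aeval (fun i => u (id i)) (mv T p * b) = F * (h * aeval u b) := by
      show aeval u (mv T p * b) = _
      rw [map_mul, hm]
      ring
    rw [e]
    exact Ideal.mul_mem_left _ _ (Ideal.mul_mem_right _ _ (Ideal.subset_span rfl))
  · obtain ⟨b, rfl⟩ := Ideal.mem_span_singleton.1 hf
    rw [← mul_assoc, ← hm]
    refine Ideal.mul_mem_right _ _ (Ideal.subset_span ⟨mv T p, ?_, rfl⟩)
    rw [germ_mv]
    exact Ideal.subset_span rfl

theorem homogenize_full {n r : ℕ} (f : Fin r → MvPolynomial (Fin n) ℂ) (h0 : ∀ k, eval 0 (f k) = 0)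
    (κ : Fin n → Fin 2) (hκ : ∀ k, ∀ m ∈ (f k).support, ∀ a : Fin 2, ∑ i with κ i = a, m i ≤ 1) :
    ∃ (B : Fin r → MvPolynomial (Fin (n + 2)) ℂ) (c : Fin (n + 2) → ℂ), IsBilinear B ∧
      (∀ k, (B k).support.card ≤ (f k).support.card) ∧ (∀ k, eval c (B k) = 0) ∧
      LocPull (Ideal.span (Set.range fun k => rename (Fin.castAdd 2) (f k))) 0
        (germ (Ideal.span (Set.range B)) c) ∧
      ∀ C : Fin r → ℂ,
        LocPull (Ideal.span {mv (triForm fun k => rename (Fin.castAdd 2) (f k)) (pnt 0 C)}) 0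
          (germ (Ideal.span {triForm B}) (pnt c C)) := by
  have hm : ∀ k, aeval (c2u κ) (aeval (fun i => X i + C (c2c n i)) (c2T κ (f k))) =
      c2U n * rename (Fin.castAdd 2) (f k) := fun k => c2_main (f k) κ (hκ k)
  have hj : eval 0 (jacDet (c2u κ)) ≠ 0 := by
    rw [c2_jac]
    exact one_ne_zero
  refine ⟨fun k => c2T κ (f k), c2c n, c2_bil f κ hκ, fun k => c2_card (f k) κ,
    fun k => c2_eval (f k) (h0 k) κ, ⟨c2u κ, id, c2U n, Function.injective_id, c2_unit n, hj,
      c2_zero κ, fun g hg => Ideal.mul_mem_left _ _ (c2_push _ _ _ _ _ hm g hg),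
      fun f' hf => c2_pull _ _ _ _ _ hm f' hf⟩, fun C => ?_⟩
  refine e2_locPull _ _ (rename (Fin.castAdd (1 * r)) (c2U n)) _ (e2u r κ) ?_ ?_ (e2_zero κ)
    (e2_main f κ hκ C)
  · rw [e2_eval]
    exact c2_unit n
  · rw [e2_jac]
    exact one_ne_zero

end CX
end MotMono
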