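import Pool.Agent.Lib.MP_4e5fcd_ag.CX.E0

/-!
# CX-E2b: two simple pull-backs

`locPull_tri_rename`: `u = X`, `e : Fin (n + 1 * r) → Fin (n + 2 + 1 * r)`, `castAdd _ i ↦ castAdd _ (castAdd 2 i)`,
`zi n k ↦ zi (n+2) k` (`Fin.addCases`; injective by `zcases`), `h = 1`, compare `locPull_rename_tuple` in CX/C2;
the generators correspond by `mv_tri` (CX/E0).
`locPull_one`: `f = ![F]`, `C = 1`: by `mv_tri` the generator is `(X (zi n 0) + 1) * rename (castAdd _) F`;
`u = X`, `e = castAdd _`, `h = 1 + X (zi n 0)`: `push`: `h * rename (castAdd _) g` for `g ∈ span {F}` is a multiple of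
the generator; `pull`: `h *` (a multiple of the generator) is a multiple of `rename (castAdd _) F`.
-/

open MvPolynomial

namespace MotMono
namespace CX

open CN HY CB

private theorem e2b_ren {N L : ℕ} (e : Fin N → Fin L) (f : MvPolynomial (Fin N) ℂ) :
    aeval (fun i => (X (e i) : MvPolynomial (Fin L) ℂ)) f = rename e f := by
  have h : aeval (fun i => (X (e i) : MvPolynomial (Fin L) ℂ)) = rename e := by
    apply MvPolynomial.algHom_ext
    intro i
    simp
  rw [h]

private theorem e2b_jac {N : ℕ} : jacDet (fun i => (X i : MvPolynomial (Fin N) ℂ)) = 1 := by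
  unfold jacDet
  have : (Matrix.of fun i j => pderiv j (X i : MvPolynomial (Fin N) ℂ)) = 1 := by
    ext1 i j
    rw [Matrix.of_apply, pderiv_X, Matrix.one_apply, Pi.single_apply]
  rw [this, Matrix.det_one]

private theorem e2b_pull {N k : ℕ} (e : Fin k → Fin N) (he : Function.Injective e)
    (h H : MvPolynomial (Fin N) ℂ) (G : MvPolynomial (Fin k) ℂ) (h0 : eval 0 h ≠ 0)
    (h1 : h * rename e G ∈ Ideal.span {H}) (h2 : h * H ∈ Ideal.span {rename e G}) :
    LocPull (Ideal.span {H}) 0 (Ideal.span {G}) := by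
  refine ⟨fun i => X i, e, h, he, h0, ?_, fun i => ?_, fun g hg => ?_, fun f hf => ?_⟩
  · rw [e2b_jac, map_one]
    exact one_ne_zero
  · rw [eval_X]
    rfl
  · obtain ⟨b, rfl⟩ := Ideal.mem_span_singleton.1 hg
    rw [e2b_ren, map_mul, ← mul_assoc]
    exact Ideal.mul_mem_right _ _ h1
  · obtain ⟨b, rfl⟩ := Ideal.mem_span_singleton.1 hf
    rw [← mul_assoc]
    refine Ideal.mul_mem_right _ _ ?_
    refine (Ideal.span_mono ?_) h2
    rintro _ rfl
    exact ⟨G, Ideal.subset_span rfl, (e2b_ren e G).symm⟩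

private theorem e2b_same {N k : ℕ} (e : Fin k → Fin N) (he : Function.Injective e)
    (H : MvPolynomial (Fin N) ℂ) (G : MvPolynomial (Fin k) ℂ) (h : rename e G = H) :
    LocPull (Ideal.span {H}) 0 (Ideal.span {G}) := by
  subst h
  refine e2b_pull e he 1 _ _ ?_ (Ideal.mul_mem_left _ _ (Ideal.subset_span rfl))
    (Ideal.mul_mem_left _ _ (Ideal.subset_span rfl))
  rw [map_one]
  exact one_ne_zero

/-- the embedding of the variables -/
private noncomputable def e2bE (n r : ℕ) : Fin (n + 1 * r) → Fin (n + 2 + 1 * r) :=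
  Fin.addCases (fun i => Fin.castAdd (1 * r) (Fin.castAdd 2 i)) (fun b => Fin.natAdd (n + 2) b)

private theorem e2bE_l (n r : ℕ) (i : Fin n) :
    e2bE n r (Fin.castAdd (1 * r) i) = Fin.castAdd (1 * r) (Fin.castAdd 2 i) := by
  rw [e2bE, Fin.addCases_left]

private theorem e2bE_z (n r : ℕ) (k : Fin r) :
    e2bE n r (zi n k) = zi (n + 2) k := by
  rw [e2bE, zi, Fin.addCases_right, zi]

private theorem e2bE_inj (n r : ℕ) : Function.Injective (e2bE n r) := by
  intro a b
  refine zcases (P := fun a => e2bE n r a = e2bE n r b → a = b) (fun i => ?_) (fun k => ?_) a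
  · refine zcases (P := fun b => e2bE n r (Fin.castAdd (1 * r) i) = e2bE n r b →
      Fin.castAdd (1 * r) i = b) (fun j h => ?_) (fun l h => ?_) b
    · rw [e2bE_l, e2bE_l] at h
      rw [Fin.castAdd_injective _ _ (Fin.castAdd_injective _ _ h)]
    · rw [e2bE_l, e2bE_z] at h
      exact absurd h (castAdd_ne_zi _ _)
  · refine zcases (P := fun b => e2bE n r (zi n k) = e2bE n r b →
      zi n k = b) (fun j h => ?_) (fun l h => ?_) b
    · rw [e2bE_l, e2bE_z] at h
      exact absurd h.symm (castAdd_ne_zi _ _)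
    · rw [e2bE_z, e2bE_z] at h
      rw [zi_injective h]

theorem locPull_tri_rename {n r : ℕ} (f : Fin r → MvPolynomial (Fin n) ℂ) (C : Fin r → ℂ) :
    LocPull (Ideal.span {mv (triForm fun k => rename (Fin.castAdd 2) (f k)) (pnt 0 C)}) 0
      (Ideal.span {mv (triForm f) (pnt 0 C)}) := by
  have key : rename (e2bE n r) (mv (triForm f) (pnt 0 C)) =
      mv (triForm fun k => rename (Fin.castAdd 2) (f k)) (pnt 0 C) := by
    rw [mv_tri, mv_tri, map_sum]
    refine Finset.sum_congr rfl fun k _ => ?_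
    rw [map_mul, map_add, rename_X, rename_C, e2bE_z, rename_rename, rename_rename]
    congr 2
    have : (e2bE n r ∘ Fin.castAdd (1 * r)) = Fin.castAdd (1 * r) ∘ Fin.castAdd 2 := by
      funext i
      simp only [Function.comp_apply, e2bE_l]
    rw [this]
  exact e2b_same (e2bE n r) (e2bE_inj n r) _ _ key

theorem locPull_one {n : ℕ} (F : MvPolynomial (Fin n) ℂ) :
    LocPull (Ideal.span {mv (triForm ![F]) (pnt 0 fun _ => 1)}) 0 (Ideal.span {F}) := by
  have key : mv (triForm ![F]) (pnt 0 fun _ => 1) =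
      (X (zi n 0) + MvPolynomial.C 1) * rename (Fin.castAdd (1 * 1)) F := by
    rw [mv_tri, Fin.sum_univ_one]
    rfl
  rw [key]
  refine e2b_pull (Fin.castAdd (1 * 1)) (Fin.castAdd_injective _ _)
    (X (zi n 0) + MvPolynomial.C 1) _ _ ?_ (Ideal.subset_span rfl) ?_
  · rw [map_add, eval_X, eval_C, Pi.zero_apply, zero_add]
    exact one_ne_zero
  · rw [← mul_assoc]
    exact Ideal.mul_mem_left _ _ (Ideal.subset_span rfl)

end CX
end MotMono
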