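import Pool.Agent.Lib.MP_4e5fcd_ag.CX.D2
import Pool.Agent.Lib.MP_4e5fcd_ag.CX.E1
import Pool.Agent.Lib.MP_4e5fcd_ag.CX.E2
import Pool.Agent.Lib.MP_4e5fcd_ag.CX.E2b

/-!
# CX-E3: a tuple of polynomials, the ideal of the tuple and the forms `∑ k, z_k f_k` at `(0, C)`
-/

open MvPolynomial

namespace MotMono
namespace CX

open CN HY CB TV

theorem eval_mv {N : ℕ} (F : MvPolynomial (Fin N) ℂ) (p : Fin N → ℂ) :
    eval 0 (mv F p) = eval p F := eval_aeval_add F p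

theorem eval_mv_tri {n r : ℕ} (f : Fin r → MvPolynomial (Fin n) ℂ) (h0 : ∀ k, eval 0 (f k) = 0)
    (C : Fin r → ℂ) : eval 0 (mv (triForm f) (pnt 0 C)) = 0 := by
  rw [mv_tri, map_sum]
  refine Finset.sum_eq_zero fun k _ => ?_
  rw [map_mul, eval_rename]
  have h : ((0 : Fin (n + 1 * r) → ℂ) ∘ Fin.castAdd (1 * r)) = 0 := rfl
  rw [h, h0, mul_zero]

theorem eval_pnt {n r : ℕ} (B : Fin r → MvPolynomial (Fin n) ℂ) (c : Fin n → ℂ)
    (hc : ∀ k, eval c (B k) = 0) (C : Fin r → ℂ) : eval (pnt c C) (triForm B) = 0 := by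
  rw [tri_eq, map_sum]
  refine Finset.sum_eq_zero fun k _ => ?_
  rw [map_mul, eval_rename]
  have h : (pnt c C ∘ Fin.castAdd (1 * r)) = c := by
    funext i
    exact pnt_left c C i
  rw [h, hc, mul_zero]

/-- the ideal of a tuple and all the forms `∑ k, z_k f_k` at `(0, C)` at once -/
theorem sim_full {N R : ℕ} (f : Fin R → MvPolynomial (Fin N) ℂ) (h0 : ∀ k, eval 0 (f k) = 0) :
    ∃ (n r : ℕ) (B : Fin r → MvPolynomial (Fin n) ℂ) (c : Fin n → ℂ) (m : ℕ), IsBilinear B ∧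
      (∀ k, (B k).support.card ≤ 3) ∧ (∀ k, eval c (B k) = 0) ∧
      SimA (Ideal.span (Set.range f)) (germ (Ideal.span (Set.range B)) c) m ∧
      ∀ C : Fin R → ℂ, ∃ C' : Fin r → ℂ,
        Sim (Ideal.span {mv (triForm f) (pnt 0 C)}) (germ (Ideal.span {triForm B}) (pnt c C')) m := by
  refine reduce3 (fun N R f => (∀ k, eval 0 (f k) = 0) →
    ∃ (n r : ℕ) (B : Fin r → MvPolynomial (Fin n) ℂ) (c : Fin n → ℂ) (m : ℕ), IsBilinear B ∧
      (∀ k, (B k).support.card ≤ 3) ∧ (∀ k, eval c (B k) = 0) ∧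
      SimA (Ideal.span (Set.range f)) (germ (Ideal.span (Set.range B)) c) m ∧
      ∀ C : Fin R → ℂ, ∃ C' : Fin r → ℂ,
        Sim (Ideal.span {mv (triForm f) (pnt 0 C)}) (germ (Ideal.span {triForm B}) (pnt c C')) m)
    ?_ ?_ N R f h0 h0
  · rintro n r f hf ⟨κ, hκ⟩ h3 -
    obtain ⟨B, c, hB, hcard, hc, hl, hl2⟩ := homogenize_full f hf κ hκ
    exact ⟨n + 2, r, B, c, 0, hB, fun k => (hcard k).trans (h3 k), hc,
      (simA_locPull (locPull_rename_tuple (k := 2) f)).symm_trans (simA_locPull hl),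
      fun C => ⟨C, (sim_locPull (locPull_tri_rename f C)).symm_trans (sim_locPull (hl2 C))⟩⟩
  · intro n r f g Q hQ hlast hg hPr hf
    have hg0 : ∀ k, eval 0 (g k) = 0 := by
      have h1 : eval 0 (g (Fin.last r)) = 0 := by
        rw [hlast, map_add, eval_X, eval_rename]
        have h : ((0 : Fin (n + 1) → ℂ) ∘ Fin.castSucc) = 0 := rfl
        rw [h, hQ]
        simp
      intro k
      refine Fin.lastCases h1 (fun j => ?_) k
      obtain ⟨a, ha⟩ := hg j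
      rw [ha, map_add, map_mul, h1, mul_zero, add_zero, eval_rename]
      exact hf j
    obtain ⟨n', r', B, c, m, hB, h3, hc, h, h2⟩ := hPr hg0
    refine ⟨n', r', B, c, 1 + m, hB, h3, hc, ?_, fun C => ?_⟩
    · exact (simA_adj _).trans (by
        simpa only [zero_add] using (simA_locPull (locPull_tuple f g Q hQ hlast hg)).trans h)
    · obtain ⟨C1, hC1⟩ := locPull_tri_step f g Q hQ hlast hg C
      obtain ⟨C', hC'⟩ := h2 C1
      exact ⟨C', (sim_hyp _ (eval_mv_tri f hf C)).trans ((sim_locPull hC1).symm_trans hC')⟩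

/-- hypersurfaces -/
theorem sim_hypersurface {n : ℕ} (F : MvPolynomial (Fin n) ℂ) (h0 : eval 0 F = 0) :
    ∃ (N r : ℕ) (B : Fin r → MvPolynomial (Fin N) ℂ) (c : Fin N → ℂ) (C : Fin r → ℂ) (m : ℕ),
      IsBilinear B ∧ (∀ k, (B k).support.card ≤ 3) ∧ (∀ k, eval c (B k) = 0) ∧
      Sim (Ideal.span {F}) (germ (Ideal.span {triForm B}) (pnt c C)) m := by
  obtain ⟨N, r, B, c, m, hB, h3, hc, -, h⟩ := sim_full ![F] (by
    intro k
    rw [Subsingleton.elim k 0]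
    exact h0)
  obtain ⟨C, hC⟩ := h fun _ => 1
  exact ⟨N, r, B, c, C, m, hB, h3, hc, (sim_locPull (locPull_one F)).symm_trans hC⟩

end CX
end MotMono
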