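import Pool.Agent.Lib.MP_4e5fcd_ag.CX.E3

/-!
# CX-E4: one trilinear form for every ideal
-/

open MvPolynomial

namespace MotMono
namespace CX

open CN HY CB TV

/-- for every ideal there is one trilinear form `T = ∑ k, z_k B_k`, the `B_k` bilinear with at most
three terms, with zeros `(c, C_j)` such that every pole `s₀ ∉ ℤ` of the ideal gives a pole
`s₀/d - m` of `T` at one of these points, and every eigenvalue `exp (2πi s₀/d)` of `T` near one of them
gives the eigenvalue `exp (2πi s₀)` of the ideal -/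
theorem one_form {N : ℕ} (I : Ideal (MvPolynomial (Fin N) ℂ)) (h0 : ∀ f ∈ I, eval 0 f = 0) :
    ∃ (d n r : ℕ) (B : Fin r → MvPolynomial (Fin n) ℂ) (c : Fin n → ℂ) (m K : ℕ)
      (C : Fin K → Fin r → ℂ), 0 < d ∧ IsBilinear B ∧ (∀ k, (B k).support.card ≤ 3) ∧
      (∀ k, eval c (B k) = 0) ∧
      ∀ s₀ : ℚ, (∀ z : ℤ, s₀ ≠ z) →
        (IsPole (Zmot I) s₀ →
          ∃ j, IsPole (Zmot (germ (Ideal.span {triForm B}) (pnt c (C j)))) (s₀ / d - m)) ∧
        ∀ χ : K0 →+* ℤ, IsEulerCharF χ → ∀ j,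
          ZeroOrPoleNear χ (germ (Ideal.span {triForm B}) (pnt c (C j)))
              (Complex.exp (2 * Real.pi * Complex.I * (s₀ / d : ℚ))) →
            ZeroOrPoleNear χ I (Complex.exp (2 * Real.pi * Complex.I * s₀)) := by
  classical
  obtain ⟨S, hS⟩ := (isNoetherianRing_iff_ideal_fg (MvPolynomial (Fin N) ℂ)).1 inferInstance I
  obtain ⟨r, hr⟩ : ∃ r, r = S.card := ⟨_, rfl⟩
  obtain ⟨f, hf⟩ : ∃ f : Fin r → MvPolynomial (Fin N) ℂ, Ideal.span (Set.range f) = I := by
    subst hr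
    refine ⟨fun j => (S.equivFin.symm j : MvPolynomial (Fin N) ℂ), ?_⟩
    rw [← hS]
    congr 1
    ext g
    constructor
    · rintro ⟨j, rfl⟩
      exact (S.equivFin.symm j).2
    · intro hg
      exact ⟨S.equivFin ⟨g, hg⟩, by simp⟩
  rcases Nat.eq_zero_or_pos r with hr0 | hr0
  · subst hr0
    have hI : I = ⊥ := by
      rw [← hf, Set.range_eq_empty, Ideal.span_empty]
    refine ⟨1, 0, 0, Fin.elim0, Fin.elim0, 0, 0, Fin.elim0, one_pos, ⟨Fin.elim0, fun k => k.elim0⟩,
      fun k => k.elim0, fun k => k.elim0, fun s₀ _ => ⟨fun hpole => ?_, fun χ _ j => j.elim0⟩⟩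
    exfalso
    apply hpole
    have hz : Zmot I = 0 := by
      ext k
      rw [Zmot, PowerSeries.coeff_mk]
      have he : ordLocus I k = ∅ := by
        rw [Set.eq_empty_iff_forall_notMem]
        rintro γ ⟨-, -, g, hg, hne⟩
        rw [hI, Ideal.mem_bot] at hg
        subst hg
        apply hne
        simp [along]
      rw [he, cls_empty, map_zero, zero_mul, map_zero]
    rw [hz]
    exact Subring.zero_mem _
  have hf0 : ∀ j, eval 0 (f j) = 0 := fun j => h0 _ (by rw [← hf]; exact Ideal.subset_span ⟨j, rfl⟩)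
  have hg0 : ∀ a, eval 0 (pw f a) = 0 := by
    intro a
    rw [pw, map_prod]
    exact Finset.prod_eq_zero (Finset.mem_univ ⟨0, hr0⟩) (hf0 _)
  have hrq : (r : ℚ) ≠ 0 := by exact_mod_cast hr0.ne'
  obtain ⟨n, R, B, c, m, hB, h3, hc, -, hfull⟩ := sim_full (pw f) hg0
  choose C' hC' using hfull
  obtain ⟨e⟩ : Nonempty (Fin (Fintype.card {S : Finset (Fin r) // S.Nonempty}) ≃
      {S : Finset (Fin r) // S.Nonempty}) := ⟨(Fintype.equivFin _).symm⟩
  have key : ∀ S : {S : Finset (Fin r) // S.Nonempty},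
      Sim (germ (linGen (pw f) 1) (pt 0 (unitRow (aS S))))
        (germ (Ideal.span {triForm B}) (pnt c (C' (unitRow (aS S) 0)))) m := by
    intro S
    have h := hC' (unitRow (aS S) 0)
    rw [← germ_mv] at h
    rw [linGen_one]
    have e1 : pt (0 : Fin N → ℂ) (unitRow (aS S)) = pnt 0 (unitRow (aS S) 0) := by
      funext i
      refine Fin.addCases (fun i => ?_) (fun b => ?_) i
      · rw [pnt_left]
        simp [pt]
      · obtain ⟨⟨a, k⟩, rfl⟩ := finProdFinEquiv.surjective b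
        rw [Subsingleton.elim a 0, pnt, pt, Fin.addCases_right, Fin.addCases_right,
          Equiv.symm_apply_apply]
    rw [e1]
    exact h
  refine ⟨r, n, R, B, c, m, Fintype.card {S : Finset (Fin r) // S.Nonempty},
    fun j => C' (unitRow (aS (e j)) 0), hr0, hB, h3, hc, fun s₀ hs => ?_⟩
  have hs' : ∀ z : ℤ, s₀ / r ≠ z := by
    intro z hz
    apply hs (z * r)
    rw [div_eq_iff hrq] at hz
    rw [hz]
    push_cast
    ring
  refine ⟨fun hpole => ?_, fun χ hχ j hn => ?_⟩
  · have h1 : Zmot (Ideal.span (Set.range (pw f))) ∉ polarRing (s₀ / r) := by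
      intro h2
      rw [span_pw, hf, zmot_pow_eq I hr0.ne'] at h2
      exact hpole (polar_of_expand hr0.ne' h2)
    obtain ⟨S, hS⟩ : ∃ S : {S : Finset (Fin r) // S.Nonempty},
        Zmot (germ (linGen (pw f) 1) (pt 0 (unitRow (aS S)))) ∉ polarRing (s₀ / r) := by
      by_contra hcon
      push Not at hcon
      refine h1 (polar_alt (pw f) (fun T => unitRow (aS T)) (fun T => (-1 : ℤ) ^ (T.1.card + 1))
        (alt_one hr0) ?_ hcon)
      intro k m γ _ hTE
      obtain ⟨u, hu, hv⟩ := vec_pw hr0 f γ hTE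
      rw [hv]
      exact alt_sum u hu
    obtain ⟨j, rfl⟩ := e.surjective S
    exact ⟨j, fun h3 => hS (((key (e j)) (s₀ / r) hs').1.2 h3)⟩
  · rw [nearK_iff] at hn ⊢
    have h3 : NearK χ (germ (linGen (pw f) 1) (pt 0 (unitRow (aS (e j))))) 0 (expo (s₀ / r)) :=
      ((key (e j) (s₀ / r) hs').2 χ hχ).2 hn
    have h4 := nearK_of_locPull hχ _ _ _
      (locPull_germ (linGen (pw f) 1) (pt 0 (unitRow (aS (e j))))) _ h3
    have h5 := nearK_gen hχ (pw f) _ (expo_ne_one hs') (s₀ / r).den_pos (expo_pow_den _) h4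
    rw [span_pw, hf] at h5
    have h6 := nearK_pow hχ hr0 h5
    rw [← expo_mul', mul_div_cancel₀ _ hrq] at h6
    exact h6

/-- the property of the monodromy conjecture for all ideals is equivalent to the one of the germs of
the trilinear forms `∑ k, z_k B_k`, the `B_k` bilinear with at most three terms -/
theorem iff_tri {χ : K0 →+* ℤ} (hχ : IsEulerCharF χ) :
    (∀ (N : ℕ) (I : Ideal (MvPolynomial (Fin N) ℂ)), (∀ f ∈ I, eval 0 f = 0) →
      MonodromyProperty χ I) ↔
    (∀ (n r : ℕ) (B : Fin r → MvPolynomial (Fin n) ℂ), IsBilinear B →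
      (∀ k, (B k).support.card ≤ 3) → ∀ p : Fin (n + 1 * r) → ℂ, eval p (triForm B) = 0 →
        MonodromyProperty χ (germ (Ideal.span {triForm B}) p)) := by
  constructor
  · intro h n r B _ _ p hp
    refine h _ _ ?_
    rw [germ_mv]
    intro f hf
    obtain ⟨b, rfl⟩ := Ideal.mem_span_singleton.1 hf
    rw [map_mul, eval_mv, hp, zero_mul]
  · intro h N I h0 s₀ hs hpole
    obtain ⟨d, n, r, B, c, m, K, C, hd, hB, h3, hc, hall⟩ := one_form I h0
    obtain ⟨hA, hE⟩ := hall s₀ hs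
    obtain ⟨j, hj⟩ := hA hpole
    have hdq : (d : ℚ) ≠ 0 := by exact_mod_cast hd.ne'
    refine hE χ hχ j ?_
    have h4 := h n r B hB h3 (pnt c (C j)) (eval_pnt B c hc (C j)) (s₀ / d - m) (fun z hz => hs ((z + m) * d) (by
      rw [sub_eq_iff_eq_add, div_eq_iff hdq] at hz
      rw [hz]
      push_cast
      ring)) hj
    have he : Complex.exp (2 * Real.pi * Complex.I * ((s₀ / d - m : ℚ) : ℂ)) =
        Complex.exp (2 * Real.pi * Complex.I * (s₀ / d : ℚ)) := by
      have h : 2 * (Real.pi : ℂ) * Complex.I * ((s₀ / d : ℚ) : ℂ) =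
          2 * Real.pi * Complex.I * ((s₀ / d - m : ℚ) : ℂ) + (m : ℤ) * (2 * Real.pi * Complex.I) := by
        push_cast
        ring
      rw [h, Complex.exp_add, Complex.exp_int_mul_two_pi_mul_I, mul_one]
    rw [he] at h4
    exact h4

end CX
end MotMono
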