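import Pool.Agent.Lib.MP_4e5fcd_ag.CX.E4

/-!
# CX-E5: the final statements
-/

open MvPolynomial

namespace MotMono
namespace CX

open CN HY CB TV

theorem exp_sub_nat (s₀ : ℚ) (m : ℕ) : Complex.exp (2 * Real.pi * Complex.I * ((s₀ - m : ℚ) : ℂ)) =
    Complex.exp (2 * Real.pi * Complex.I * s₀) := by
  have h : 2 * (Real.pi : ℂ) * Complex.I * ((s₀ : ℚ) : ℂ) =
      2 * Real.pi * Complex.I * ((s₀ - m : ℚ) : ℂ) + (m : ℤ) * (2 * Real.pi * Complex.I) := by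
    push_cast
    ring
  rw [h, Complex.exp_add, Complex.exp_int_mul_two_pi_mul_I, mul_one]

theorem not_int_sub {s₀ : ℚ} (hs : ∀ z : ℤ, s₀ ≠ z) (m : ℕ) : ∀ z : ℤ, s₀ - m ≠ z :=
  fun z hz => hs (z + m) (by
    rw [sub_eq_iff_eq_add] at hz
    rw [hz]
    push_cast
    ring)

theorem not_int_add {s₀ : ℚ} (hs : ∀ z : ℤ, s₀ ≠ z) (m : ℕ) : ∀ z : ℤ, s₀ + m ≠ z :=
  fun z hz => hs (z - m) (by
    rw [← eq_sub_iff_add_eq] at hz
    rw [hz]
    push_cast
    ring)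

theorem alike_of_sim {n k : ℕ} {I : Ideal (MvPolynomial (Fin n) ℂ)}
    {J : Ideal (MvPolynomial (Fin k) ℂ)} {m : ℕ} (h : Sim I J m) : Alike 1 I J m := by
  intro s₀ hs
  obtain ⟨h1, h2⟩ := h s₀ hs
  refine ⟨?_, fun χ hχ => ?_⟩
  · rw [map_one, one_mul]
    exact not_congr h1
  · rw [nearK_iff, nearK_iff]
    exact h2 χ hχ

theorem alike_of_simA {n k : ℕ} {I : Ideal (MvPolynomial (Fin n) ℂ)}
    {J : Ideal (MvPolynomial (Fin k) ℂ)} {m : ℕ} (h : SimA I J m) : Alike 1 I J m := by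
  intro s₀ hs
  obtain ⟨h1, h2⟩ := h s₀ hs
  refine ⟨not_congr (by simpa only [map_one, one_mul] using h1 1), fun χ hχ => ?_⟩
  rw [nearK_iff, nearK_iff]
  exact h2 χ hχ

/-- the trilinear form of an ideal at `(c, 0)` -/
theorem alike_tri {N n r : ℕ} {I : Ideal (MvPolynomial (Fin N) ℂ)}
    {B : Fin r → MvPolynomial (Fin n) ℂ} {c : Fin n → ℂ} {m : ℕ}
    (h : SimA I (germ (Ideal.span (Set.range B)) c) m) :
    Alike (((Lu : MCˣ) : MC) - 1) I (germ (Ideal.span {triForm B}) (pnt c 0)) m := by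
  have e1 : (pnt c 0 : Fin (n + 1 * r) → ℂ) = ptz r c := rfl
  intro s₀ hs
  obtain ⟨h4, h5⟩ := h s₀ hs
  have hs' := not_int_sub hs m
  refine ⟨?_, fun χ hχ => ?_⟩
  · rw [e1, germ_tri]
    refine not_congr ((h4 _).trans ?_)
    rw [polar_lin_iff _ hs', germ_span_range]
  · have h6 := h5 χ hχ
    rw [nearK_iff, nearK_iff]
    refine h6.trans ?_
    rw [e1, germ_tri, germ_span_range]
    have e2 : pt (0 : Fin n → ℂ) (0 : Matrix (Fin 1) (Fin r) ℂ) = 0 := by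
      funext a
      refine Fin.addCases (fun a => ?_) (fun b => ?_) a
      · simp [pt]
      · simp [pt]
    exact ⟨fun h7 => nearK_lin hχ _ h7, fun h7 => nearK_gen hχ _ 0 (expo_ne_one hs) s₀.den_pos
      (expo_pow_den s₀) (by rw [e2]; exact h7)⟩

/-- if `I` and `J` are alike, the property of the monodromy conjecture of one is the one of the other -/
theorem mp_iff_of_alike {χ : K0 →+* ℤ} (hχ : IsEulerCharF χ) {n k : ℕ}
    {I : Ideal (MvPolynomial (Fin n) ℂ)} {J : Ideal (MvPolynomial (Fin k) ℂ)} {m : ℕ}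
    (h : Alike 1 I J m) : MonodromyProperty χ I ↔ MonodromyProperty χ J := by
  have h' : ∀ s₀ : ℚ, (∀ z : ℤ, s₀ ≠ z) → (IsPole (Zmot I) s₀ ↔ IsPole (Zmot J) (s₀ - m)) := by
    intro s₀ hs
    have h1 := (h s₀ hs).1
    rwa [map_one, one_mul] at h1
  constructor
  · intro hI s₀ hs hpole
    have hs' := not_int_add hs m
    have e : s₀ + m - m = s₀ := by ring
    have h1 := hI (s₀ + m) hs' ((h' _ hs').2 (by rwa [e]))
    have h2 := ((h _ hs').2 χ hχ).1 h1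
    rwa [← exp_sub_nat (s₀ + m) m, e] at h2
  · intro hJ s₀ hs hpole
    have h1 := hJ (s₀ - m) (not_int_sub hs m) ((h' _ hs).1 hpole)
    rw [exp_sub_nat] at h1
    exact ((h _ hs).2 χ hχ).2 h1

theorem isPole_of_C_mul {Z : PowerSeries MC} {a : MC} {s₀ : ℚ} (h : IsPole (PowerSeries.C a * Z) s₀) :
    IsPole Z s₀ := by
  intro h1
  refine h ((polarRing s₀).mul_mem ?_ h1)
  refine Subring.subset_closure (Or.inl ⟨Polynomial.C a, ?_⟩)
  rw [Polynomial.coe_C]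

/-- a multiple: the property of `I` implies the one of `J` -/
theorem mp_of_alike {χ : K0 →+* ℤ} (hχ : IsEulerCharF χ) {n k : ℕ} {a : MC}
    {I : Ideal (MvPolynomial (Fin n) ℂ)} {J : Ideal (MvPolynomial (Fin k) ℂ)} {m : ℕ}
    (h : Alike a I J m) (hI : MonodromyProperty χ I) : MonodromyProperty χ J := by
  intro s₀ hs hpole
  have hs' := not_int_add hs m
  have e : s₀ + m - m = s₀ := by ring
  have h1 := hI (s₀ + m) hs' (isPole_of_C_mul (((h _ hs').1).2 (by rwa [e])))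
  have h2 := ((h _ hs').2 χ hχ).1 h1
  rwa [← exp_sub_nat (s₀ + m) m, e] at h2

theorem tuple_model (N R : ℕ) (f : Fin R → MvPolynomial (Fin N) ℂ) (h0 : ∀ j, eval 0 (f j) = 0) :
    ∃ (n r : ℕ) (B : Fin r → MvPolynomial (Fin n) ℂ) (c : Fin n → ℂ) (m : ℕ),
      IsBilinear B ∧ (∀ k, (B k).support.card ≤ 3) ∧ (∀ k, eval c (B k) = 0) ∧
      Alike 1 (Ideal.span (Set.range f)) (germ (Ideal.span (Set.range B)) c) m ∧
      Alike (((Lu : MCˣ) : MC) - 1) (Ideal.span (Set.range f))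
        (germ (Ideal.span {triForm B}) (pnt c 0)) m ∧
      ∀ C : Fin R → ℂ, ∃ C' : Fin r → ℂ,
        Alike 1 (germ (Ideal.span {triForm f}) (pnt 0 C))
          (germ (Ideal.span {triForm B}) (pnt c C')) m := by
  obtain ⟨n, r, B, c, m, hB, h3, hc, hA, hC⟩ := sim_full f h0
  refine ⟨n, r, B, c, m, hB, h3, hc, alike_of_simA hA, alike_tri hA, fun C => ?_⟩
  obtain ⟨C', hC'⟩ := hC C
  refine ⟨C', alike_of_sim ?_⟩
  rw [germ_mv]
  exact hC'

theorem hypersurface_model (N : ℕ) (F : MvPolynomial (Fin N) ℂ) (h0 : eval 0 F = 0) :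
    ∃ (n r : ℕ) (B : Fin r → MvPolynomial (Fin n) ℂ) (c : Fin n → ℂ) (C : Fin r → ℂ) (m : ℕ),
      IsBilinear B ∧ (∀ k, (B k).support.card ≤ 3) ∧ (∀ k, eval c (B k) = 0) ∧
      Alike 1 (Ideal.span {F}) (germ (Ideal.span {triForm B}) (pnt c C)) m := by
  obtain ⟨n, r, B, c, C, m, hB, h3, hc, h⟩ := sim_hypersurface F h0
  exact ⟨n, r, B, c, C, m, hB, h3, hc, alike_of_sim h⟩

end CX
end MotMono
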