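import Pool.Agent.Lib.MP_4e5fcd_ag.CB.R1

/-!
# CX-R1: one step of the reduction of a tuple to degree at most one in two groups of variables

Colours `0`, `1`. `dg κ a m = ∑_{κ i = a} m i` (copy the private lemmas `r1_*` of CB/R1, with `Fin 2` and one
new variable). A good monomial `m` (`Inv κ m`): `m ≠ 0`, `dg κ 1 m ≤ 1`, and `dg κ 1 m = 0` if
`2 ≤ dg κ 0 m`. The measure `mu κ F` is the sum over all terms of all components of `dg κ 0 m - 1`.

`step`: `F k = (c, m) ::ₘ L₀` with `2 ≤ dg κ 0 m`. Choose a variable `i` of colour `0` with `m i ≠ 0`,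
`P = single i 1`, `Q = m - P`; `dg κ 0 Q = dg κ 0 m - 1 ≥ 1`, `dg κ 1 Q = 0`, `Q ≠ 0`. New variable `v = X (last n)`
of colour `1` (`κ' = Fin.snoc κ 1`). New tuple: `F' (castSucc j) = lift (F j)` for `j ≠ k` (all exponents moved
by `Finsupp.mapDomain castSucc`), `F' (castSucc k) = lift L₀ + {(-c, lift P + e_v)}`,
`F' (last r) = {(1, e_v), (1, lift Q)}`. So `pol (F' (last r)) = X (last n) + rename castSucc (x^Q)` and
`pol (F' (castSucc k)) = rename castSucc (pol L₀) - c x^P v = rename castSucc (pol (F k)) + a * pol (F' (last r))`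
with `a = - c x^P` (`pol (F k) = c x^m + pol L₀`, `x^m = x^P x^Q`). The exponents `e_v`, `lift Q`,
`lift P + e_v` satisfy `Inv`: `(0, 1)`, `(dg κ 0 m - 1, 0)`, `(1, 1)` are the pairs of degrees. The measure
goes from `mu` to `mu - (dg κ 0 m - 1) + (dg κ 0 m - 2)`.
-/

open MvPolynomial

namespace MotMono
namespace CX

/-- the degree of `x^m` in the variables of colour `a` -/
def dg {n : ℕ} (κ : Fin n → Fin 2) (a : Fin 2) (m : Fin n →₀ ℕ) : ℕ := ∑ i with κ i = a, m i

/-- the polynomial with the given terms -/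
noncomputable def pol {n : ℕ} (L : Multiset (ℂ × (Fin n →₀ ℕ))) : MvPolynomial (Fin n) ℂ :=
  (L.map fun t => monomial t.2 t.1).sum

/-- the admissible monomials -/
def Inv {n : ℕ} (κ : Fin n → Fin 2) (m : Fin n →₀ ℕ) : Prop :=
  m ≠ 0 ∧ dg κ 1 m ≤ 1 ∧ (2 ≤ dg κ 0 m → dg κ 1 m = 0)

/-- the measure -/
def mu {n r : ℕ} (κ : Fin n → Fin 2) (F : Fin r → Multiset (ℂ × (Fin n →₀ ℕ))) : ℕ :=
  ∑ k, ((F k).map fun t => dg κ 0 t.2 - 1).sum

private theorem x1_dg_add {n : ℕ} (κ : Fin n → Fin 2) (a : Fin 2) (m m' : Fin n →₀ ℕ) :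
    dg κ a (m + m') = dg κ a m + dg κ a m' := by
  unfold dg
  rw [← Finset.sum_add_distrib]
  rfl

private theorem x1_dg_single {n : ℕ} (κ : Fin n → Fin 2) (a : Fin 2) (i : Fin n) (k : ℕ) :
    dg κ a (Finsupp.single i k) = if κ i = a then k else 0 := by
  classical
  unfold dg
  rw [Finset.sum_filter, Finset.sum_eq_single i]
  · rw [Finsupp.single_eq_same]
  · intro j _ hj
    rw [Finsupp.single_eq_of_ne hj]
    simp
  · intro h
    exact absurd (Finset.mem_univ i) h

/-- the exponents in the new variables -/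
private noncomputable def x1_i {n : ℕ} (m : Fin n →₀ ℕ) : Fin (n + 1) →₀ ℕ :=
  Finsupp.mapDomain Fin.castSucc m

private theorem x1_i_add {n : ℕ} (m m' : Fin n →₀ ℕ) : x1_i (m + m') = x1_i m + x1_i m' :=
  Finsupp.mapDomain_add

private theorem x1_i_ne {n : ℕ} {m : Fin n →₀ ℕ} (h : m ≠ 0) : x1_i m ≠ 0 := by
  intro h0
  apply h
  have := Finsupp.mapDomain_injective (M := ℕ) (Fin.castSucc_injective n)
  apply this
  rw [Finsupp.mapDomain_zero]
  exact h0

/-- the new colours -/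
private def x1_k {n : ℕ} (κ : Fin n → Fin 2) : Fin (n + 1) → Fin 2 :=
  Fin.snoc (α := fun _ => Fin 2) κ 1

private theorem x1_k0 {n : ℕ} (κ : Fin n → Fin 2) (i : Fin n) :
    x1_k κ (Fin.castSucc i) = κ i := by
  unfold x1_k
  rw [Fin.snoc_castSucc]

private theorem x1_k1 {n : ℕ} (κ : Fin n → Fin 2) : x1_k κ (Fin.last n) = 1 := by
  unfold x1_k
  rw [Fin.snoc_last]

private theorem x1_dg_i {n : ℕ} (κ : Fin n → Fin 2) (a : Fin 2) (m : Fin n →₀ ℕ) :
    dg (x1_k κ) a (x1_i m) = dg κ a m := by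
  classical
  unfold dg
  rw [Finset.sum_filter, Finset.sum_filter, Fin.sum_univ_castSucc]
  have h1 : x1_i m (Fin.last n) = 0 := by
    unfold x1_i
    apply Finsupp.mapDomain_of_notMem_range
    rintro ⟨i, hi⟩
    exact absurd hi (Fin.castSucc_lt_last i).ne
  have h2 : ∀ i : Fin n, x1_i m (Fin.castSucc i) = m i := fun i =>
    Finsupp.mapDomain_apply (Fin.castSucc_injective n) m i
  simp only [h1, h2, x1_k0, ite_self, add_zero]

private theorem x1_eval {n : ℕ} {m : Fin n →₀ ℕ} (h : m ≠ 0) (c : ℂ) :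
    eval 0 (monomial m c) = 0 := by
  classical
  rw [MvPolynomial.eval_zero, constantCoeff_monomial, if_neg h]

private theorem x1_ren {n : ℕ} (m : Fin n →₀ ℕ) (c : ℂ) :
    rename Fin.castSucc (monomial m c) = monomial (x1_i m) c :=
  rename_monomial _ _ _

private theorem x1_dg_zero {n : ℕ} (κ : Fin n → Fin 2) (a : Fin 2) :
    dg κ a (0 : Fin n →₀ ℕ) = 0 := by
  unfold dg
  exact Finset.sum_eq_zero fun i _ => rfl

/-- the list with the exponents in the new variables -/
private noncomputable def x1_l {n : ℕ} (L : Multiset (ℂ × (Fin n →₀ ℕ))) :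
    Multiset (ℂ × (Fin (n + 1) →₀ ℕ)) := L.map fun t => (t.1, x1_i t.2)

private theorem x1_pol_l {n : ℕ} (L : Multiset (ℂ × (Fin n →₀ ℕ))) :
    pol (x1_l L) = rename Fin.castSucc (pol L) := by
  unfold pol x1_l
  rw [map_multiset_sum, Multiset.map_map, Multiset.map_map]
  refine congrArg Multiset.sum (Multiset.map_congr rfl fun t _ => ?_)
  exact (x1_ren t.2 t.1).symm

private theorem x1_mu_l {n : ℕ} (κ : Fin n → Fin 2) (L : Multiset (ℂ × (Fin n →₀ ℕ))) :
    ((x1_l L).map fun t => dg (x1_k κ) 0 t.2 - 1).sum = (L.map fun t => dg κ 0 t.2 - 1).sum := by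
  unfold x1_l
  rw [Multiset.map_map]
  simp only [Function.comp_def, x1_dg_i]

private theorem x1_inv_l {n : ℕ} (κ : Fin n → Fin 2) (L : Multiset (ℂ × (Fin n →₀ ℕ)))
    (hL : ∀ t ∈ L, Inv κ t.2) : ∀ t ∈ x1_l L, Inv (x1_k κ) t.2 := by
  intro t ht
  unfold x1_l at ht
  rw [Multiset.mem_map] at ht
  obtain ⟨t', ht', rfl⟩ := ht
  obtain ⟨i1, i2, i3⟩ := hL t' ht'
  refine ⟨x1_i_ne i1, ?_, ?_⟩
  · rw [x1_dg_i]; exact i2
  · rw [x1_dg_i, x1_dg_i]; exact i3

theorem step {n r : ℕ} (κ : Fin n → Fin 2) (F : Fin r → Multiset (ℂ × (Fin n →₀ ℕ))) (k : Fin r)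
    (t : ℂ × (Fin n →₀ ℕ)) (ht : t ∈ F k) (hm : 2 ≤ dg κ 0 t.2) (hF : ∀ k, ∀ t ∈ F k, Inv κ t.2) :
    ∃ (κ' : Fin (n + 1) → Fin 2) (F' : Fin (r + 1) → Multiset (ℂ × (Fin (n + 1) →₀ ℕ)))
      (Q : MvPolynomial (Fin n) ℂ), eval 0 Q = 0 ∧
      pol (F' (Fin.last r)) = X (Fin.last n) + rename Fin.castSucc Q ∧
      (∀ j : Fin r, ∃ a, pol (F' j.castSucc) =
        rename Fin.castSucc (pol (F j)) + a * pol (F' (Fin.last r))) ∧
      (∀ k, ∀ t ∈ F' k, Inv κ' t.2) ∧ mu κ' F' < mu κ F := by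
  classical
  obtain ⟨c, m⟩ := t
  replace hm : 2 ≤ dg κ 0 m := hm
  have hi : Inv κ m := hF k (c, m) ht
  obtain ⟨L₀, hL₀⟩ : ∃ L₀, F k = (c, m) ::ₘ L₀ := Multiset.exists_cons_of_mem ht
  have hL0 : ∀ t ∈ L₀, Inv κ t.2 := fun t ht' =>
    hF k t (by rw [hL₀]; exact Multiset.mem_cons_of_mem ht')
  obtain ⟨i, hi1, hi2⟩ : ∃ i, κ i = 0 ∧ m i ≠ 0 := by
    by_contra hcon
    push Not at hcon
    have : dg κ 0 m = 0 := by
      unfold dg
      exact Finset.sum_eq_zero fun i hi => hcon i (Finset.mem_filter.1 hi).2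
    omega
  set P : Fin n →₀ ℕ := Finsupp.single i 1 with hP
  have hPm : P ≤ m := by
    intro j
    rw [hP, Finsupp.single_apply]
    split_ifs with h2
    · rw [← h2]
      omega
    · exact Nat.zero_le _
  set Q : Fin n →₀ ℕ := m - P with hQ
  have hPQ : P + Q = m := add_tsub_cancel_of_le hPm
  have hdP : ∀ a, dg κ a P = if (0 : Fin 2) = a then 1 else 0 := by
    intro a
    rw [hP, x1_dg_single, hi1]
  have hP0 : dg κ 0 P = 1 := by rw [hdP]; rfl
  have hP1 : dg κ 1 P = 0 := by rw [hdP]; rfl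
  have hdm : ∀ a, dg κ a P + dg κ a Q = dg κ a m := fun a => by rw [← x1_dg_add, hPQ]
  have hm1 : dg κ 1 m = 0 := hi.2.2 hm
  have hQ0 : dg κ 0 Q = dg κ 0 m - 1 := by have := hdm 0; omega
  have hQ1 : dg κ 1 Q = 0 := by have := hdm 1; omega
  have hQne : Q ≠ 0 := by
    intro h0
    rw [h0, x1_dg_zero] at hQ0
    omega
  set ev : Fin (n + 1) →₀ ℕ := Finsupp.single (Fin.last n) 1 with hev
  have hdv : ∀ a, dg (x1_k κ) a ev = if (1 : Fin 2) = a then 1 else 0 := by
    intro a
    rw [hev, x1_dg_single, x1_k1]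
  have hdv0 : dg (x1_k κ) 0 ev = 0 := by rw [hdv]; rfl
  have hdv1 : dg (x1_k κ) 1 ev = 1 := by rw [hdv]; rfl
  have hev0 : ev ≠ 0 := Finsupp.single_ne_zero.2 one_ne_zero
  set F' : Fin (r + 1) → Multiset (ℂ × (Fin (n + 1) →₀ ℕ)) :=
    Fin.snoc (α := fun _ => Multiset (ℂ × (Fin (n + 1) →₀ ℕ)))
      (fun j : Fin r => if j = k then x1_l L₀ + {(-c, x1_i P + ev)} else x1_l (F j))
      {((1 : ℂ), ev), ((1 : ℂ), x1_i Q)} with hF'
  have hlast : F' (Fin.last r) = {((1 : ℂ), ev), ((1 : ℂ), x1_i Q)} := by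
    rw [hF', Fin.snoc_last]
  have hk : F' k.castSucc = x1_l L₀ + {(-c, x1_i P + ev)} := by
    rw [hF', Fin.snoc_castSucc, if_pos rfl]
  have hj : ∀ j : Fin r, j ≠ k → F' j.castSucc = x1_l (F j) := by
    intro j hj
    rw [hF', Fin.snoc_castSucc, if_neg hj]
  have hpl : pol (F' (Fin.last r)) = X (Fin.last n) + rename Fin.castSucc (monomial Q 1) := by
    rw [hlast, x1_ren]
    unfold pol
    simp only [Multiset.insert_eq_cons, Multiset.map_cons, Multiset.map_singleton,
      Multiset.sum_cons, Multiset.sum_singleton]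
    rfl
  refine ⟨x1_k κ, F', monomial Q 1, x1_eval hQne _, hpl, ?_, ?_, ?_⟩
  · intro j
    by_cases hjk : j = k
    · subst hjk
      refine ⟨monomial (x1_i P) (-c), ?_⟩
      rw [hpl, hk, hL₀]
      have e1 : pol (x1_l L₀ + {(-c, x1_i P + ev)}) =
          rename Fin.castSucc (pol L₀) + monomial (x1_i P + ev) (-c) := by
        rw [← x1_pol_l]
        unfold pol
        rw [Multiset.map_add, Multiset.sum_add, Multiset.map_singleton, Multiset.sum_singleton]
      have e3 : pol ((c, m) ::ₘ L₀) = monomial m c + pol L₀ := by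
        unfold pol
        rw [Multiset.map_cons, Multiset.sum_cons]
      have e5 : (X (Fin.last n) : MvPolynomial (Fin (n + 1)) ℂ) = monomial ev 1 := rfl
      have e6 : (monomial (x1_i m) c : MvPolynomial (Fin (n + 1)) ℂ) =
          -(monomial (x1_i P) (-c) * monomial (x1_i Q) 1) := by
        rw [monomial_mul, ← x1_i_add, hPQ, mul_one, ← map_neg, neg_neg]
      have e9 : (monomial (x1_i P + ev) (-c) : MvPolynomial (Fin (n + 1)) ℂ) =
          monomial (x1_i P) (-c) * monomial ev 1 := by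
        rw [monomial_mul, mul_one]
      rw [e1, e3, map_add, x1_ren, x1_ren, e5, e6, e9]
      ring
    · refine ⟨0, ?_⟩
      rw [hj j hjk, x1_pol_l, zero_mul, add_zero]
  · intro j t ht
    induction j using Fin.lastCases with
    | last =>
      rw [hlast] at ht
      simp only [Multiset.insert_eq_cons, Multiset.mem_cons, Multiset.mem_singleton] at ht
      rcases ht with rfl | rfl
      · refine ⟨hev0, ?_, ?_⟩
        · rw [hdv1]
        · intro h
          replace h : 2 ≤ dg (x1_k κ) 0 ev := h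
          rw [hdv0] at h
          omega
      · refine ⟨x1_i_ne hQne, ?_, ?_⟩
        · rw [x1_dg_i, hQ1]
          exact Nat.zero_le _
        · intro _
          rw [x1_dg_i, hQ1]
    | cast j =>
      by_cases hjk : j = k
      · subst hjk
        rw [hk, Multiset.mem_add] at ht
        rcases ht with ht | ht
        · exact x1_inv_l κ L₀ hL0 t ht
        · rw [Multiset.mem_singleton] at ht
          subst ht
          have g0 : dg (x1_k κ) 0 (x1_i P + ev) = 1 := by rw [x1_dg_add, x1_dg_i, hP0, hdv0]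
          have g1 : dg (x1_k κ) 1 (x1_i P + ev) = 1 := by rw [x1_dg_add, x1_dg_i, hP1, hdv1]
          refine ⟨?_, ?_, ?_⟩
          · intro h0
            exact hev0 (add_eq_zero.1 h0).2
          · exact g1.le
          · intro h
            replace h : 2 ≤ dg (x1_k κ) 0 (x1_i P + ev) := h
            rw [g0] at h
            omega
      · rw [hj j hjk] at ht
        exact x1_inv_l κ (F j) (hF j) t ht
  · have g0 : dg (x1_k κ) 0 (x1_i P + ev) = 1 := by rw [x1_dg_add, x1_dg_i, hP0, hdv0]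
    have f1 : ∀ j : Fin r, ((F' j.castSucc).map fun t => dg (x1_k κ) 0 t.2 - 1).sum +
        (if j = k then dg κ 0 m - 1 else 0) = ((F j).map fun t => dg κ 0 t.2 - 1).sum := by
      intro j
      by_cases hjk : j = k
      · subst hjk
        rw [hk, hL₀, if_pos rfl, Multiset.map_add, Multiset.sum_add, x1_mu_l,
          Multiset.map_singleton, Multiset.sum_singleton, Multiset.map_cons, Multiset.sum_cons]
        have : dg (x1_k κ) 0 (x1_i P + ev) - 1 = 0 := by rw [g0]
        simp only [this]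
        omega
      · rw [hj j hjk, if_neg hjk, x1_mu_l, add_zero]
    have f2 : ((F' (Fin.last r)).map fun t => dg (x1_k κ) 0 t.2 - 1).sum = dg κ 0 m - 2 := by
      rw [hlast]
      simp only [Multiset.insert_eq_cons, Multiset.map_cons, Multiset.map_singleton,
        Multiset.sum_cons, Multiset.sum_singleton, hdv0, x1_dg_i, hQ0]
      omega
    have f3 : (∑ j : Fin r, ((F' j.castSucc).map fun t => dg (x1_k κ) 0 t.2 - 1).sum) +
        (dg κ 0 m - 1) = mu κ F := by
      unfold mu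
      rw [← Finset.sum_congr rfl fun j _ => f1 j, Finset.sum_add_distrib]
      congr 1
      rw [Finset.sum_ite_eq' Finset.univ k, if_pos (Finset.mem_univ k)]
    have f4 : mu (x1_k κ) F' = (∑ j : Fin r, ((F' j.castSucc).map fun t =>
        dg (x1_k κ) 0 t.2 - 1).sum) + (dg κ 0 m - 2) := by
      unfold mu
      rw [Fin.sum_univ_castSucc, f2]
    rw [f4, ← f3]
    omega

end CX
end MotMono
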