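import Pool.Agent.Lib.MP_4e5fcd_ag.CX.R1

/-!
# CX-R2: the induction

As CB/R2 (copy its private lemmas). `reduce_pol`: strong induction on `mu κ F`, over all `n`, `r`, `κ`, `F` with
`∀ k, ∀ t ∈ F k, Inv κ t.2`. If all terms have `dg κ 0 ≤ 1`, then every exponent in the support of
`pol (F k)` is `t.2` for some `t ∈ F k`, so `hbase` applies (degrees `≤ 1` in both colours by `Inv`);
`eval 0 (pol (F k)) = 0` as all exponents are non-zero. Otherwise `step` (CX/R1), `hstep` and the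
induction hypothesis.

`reduce`: `f k` with `f k (0) = 0` is `pol (F k)` for `F k = (supp (f k)).val.map (m ↦ ((f k)_m, m))`,
`κ = fun _ => 0`: `Inv` holds: `m ≠ 0` because `(f k)_0 = eval 0 (f k) = 0`, `dg κ 1 m = 0` (empty sum).
-/

open MvPolynomial

namespace MotMono
namespace CX

private theorem R2_supp {n : ℕ} (L : Multiset (ℂ × (Fin n →₀ ℕ))) (m : Fin n →₀ ℕ) (hm : m ∈ (pol L).support) :
    ∃ t ∈ L, t.2 = m := by
  classical
  induction L using Multiset.induction_on with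
  | empty =>
    rw [pol, Multiset.map_zero, Multiset.sum_zero, support_zero] at hm
    exact absurd hm (Finset.notMem_empty m)
  | cons a L ih =>
    have h1 : pol (a ::ₘ L) = monomial a.2 a.1 + pol L := by
      rw [pol, Multiset.map_cons, Multiset.sum_cons]
      rfl
    rw [h1] at hm
    rcases Finset.mem_union.1 (support_add hm) with h2 | h2
    · refine ⟨a, Multiset.mem_cons_self a L, ?_⟩
      have h3 := support_monomial_subset h2
      rw [Finset.mem_singleton] at h3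
      exact h3.symm
    · obtain ⟨t, ht, ht2⟩ := ih h2
      exact ⟨t, Multiset.mem_cons_of_mem ht, ht2⟩

private theorem R2_eval {n : ℕ} (L : Multiset (ℂ × (Fin n →₀ ℕ))) (hL : ∀ t ∈ L, t.2 ≠ 0) : eval 0 (pol L) = 0 := by
  classical
  induction L using Multiset.induction_on with
  | empty =>
    rw [pol, Multiset.map_zero, Multiset.sum_zero, map_zero]
  | cons a L ih =>
    have h1 : pol (a ::ₘ L) = monomial a.2 a.1 + pol L := by
      rw [pol, Multiset.map_cons, Multiset.sum_cons]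
      rfl
    rw [h1, map_add, ih (fun t ht => hL t (Multiset.mem_cons_of_mem ht)), add_zero, eval_zero, constantCoeff_monomial,
      if_neg (hL a (Multiset.mem_cons_self a L))]

private theorem R2_base (Pr : ∀ (n r : ℕ), (Fin r → MvPolynomial (Fin n) ℂ) → Prop)
    (hbase : ∀ (n r : ℕ) (f : Fin r → MvPolynomial (Fin n) ℂ), (∀ k, eval 0 (f k) = 0) →
      (∃ κ : Fin n → Fin 2, ∀ k, ∀ m ∈ (f k).support, ∀ a : Fin 2, ∑ i with κ i = a, m i ≤ 1) →
      Pr n r f)
    (n r : ℕ) (κ : Fin n → Fin 2) (F : Fin r → Multiset (ℂ × (Fin n →₀ ℕ)))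
    (hF : ∀ k, ∀ t ∈ F k, Inv κ t.2) (hall : ∀ k, ∀ t ∈ F k, dg κ 0 t.2 ≤ 1) :
    Pr n r (fun k => pol (F k)) := by
  refine hbase n r _ (fun k => R2_eval (F k) fun t ht => (hF k t ht).1) ⟨κ, ?_⟩
  intro k m hm a
  obtain ⟨t, ht, rfl⟩ := R2_supp (F k) m hm
  have h1 := hall k t ht
  obtain ⟨_, h3, _⟩ := hF k t ht
  fin_cases a
  · exact h1
  · exact h3

private theorem R2_aux (Pr : ∀ (n r : ℕ), (Fin r → MvPolynomial (Fin n) ℂ) → Prop)
    (hbase : ∀ (n r : ℕ) (f : Fin r → MvPolynomial (Fin n) ℂ), (∀ k, eval 0 (f k) = 0) →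
      (∃ κ : Fin n → Fin 2, ∀ k, ∀ m ∈ (f k).support, ∀ a : Fin 2, ∑ i with κ i = a, m i ≤ 1) →
      Pr n r f)
    (hstep : ∀ (n r : ℕ) (f : Fin r → MvPolynomial (Fin n) ℂ)
      (g : Fin (r + 1) → MvPolynomial (Fin (n + 1)) ℂ) (Q : MvPolynomial (Fin n) ℂ),
      eval 0 Q = 0 → g (Fin.last r) = X (Fin.last n) + rename Fin.castSucc Q →
      (∀ j : Fin r, ∃ a, g j.castSucc = rename Fin.castSucc (f j) + a * g (Fin.last r)) →
      Pr (n + 1) (r + 1) g → Pr n r f) (s : ℕ) :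
    ∀ (n r : ℕ) (κ : Fin n → Fin 2) (F : Fin r → Multiset (ℂ × (Fin n →₀ ℕ))), mu κ F ≤ s →
      (∀ k, ∀ t ∈ F k, Inv κ t.2) → Pr n r (fun k => pol (F k)) := by
  induction s with
  | zero =>
    intro n r κ F hmu hF
    refine R2_base Pr hbase n r κ F hF ?_
    intro k t ht
    have h2 : dg κ 0 t.2 - 1 ≤ ((F k).map fun t => dg κ 0 t.2 - 1).sum :=
      Multiset.le_sum_of_mem (Multiset.mem_map_of_mem (fun t : ℂ × (Fin n →₀ ℕ) => dg κ 0 t.2 - 1) ht)
    have h3 : ((F k).map fun t => dg κ 0 t.2 - 1).sum ≤ mu κ F :=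
      Finset.single_le_sum (f := fun k => ((F k).map fun t => dg κ 0 t.2 - 1).sum)
        (fun _ _ => Nat.zero_le _) (Finset.mem_univ k)
    omega
  | succ s ih =>
    intro n r κ F hmu hF
    by_cases hall : ∀ k, ∀ t ∈ F k, dg κ 0 t.2 ≤ 1
    · exact R2_base Pr hbase n r κ F hF hall
    · push Not at hall
      obtain ⟨k, t, ht, h2⟩ := hall
      obtain ⟨κ', F', Q, hQ, hl, hj, hI, hlt⟩ := step κ F k t ht h2 hF
      exact hstep n r _ (fun k => pol (F' k)) Q hQ hl hj (ih (n + 1) (r + 1) κ' F' (by omega) hI)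

theorem reduce (Pr : ∀ (n r : ℕ), (Fin r → MvPolynomial (Fin n) ℂ) → Prop)
    (hbase : ∀ (n r : ℕ) (f : Fin r → MvPolynomial (Fin n) ℂ), (∀ k, eval 0 (f k) = 0) →
      (∃ κ : Fin n → Fin 2, ∀ k, ∀ m ∈ (f k).support, ∀ a : Fin 2, ∑ i with κ i = a, m i ≤ 1) →
      Pr n r f)
    (hstep : ∀ (n r : ℕ) (f : Fin r → MvPolynomial (Fin n) ℂ)
      (g : Fin (r + 1) → MvPolynomial (Fin (n + 1)) ℂ) (Q : MvPolynomial (Fin n) ℂ),
      eval 0 Q = 0 → g (Fin.last r) = X (Fin.last n) + rename Fin.castSucc Q →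
      (∀ j : Fin r, ∃ a, g j.castSucc = rename Fin.castSucc (f j) + a * g (Fin.last r)) →
      Pr (n + 1) (r + 1) g → Pr n r f)
    (n r : ℕ) (f : Fin r → MvPolynomial (Fin n) ℂ) (h0 : ∀ k, eval 0 (f k) = 0) : Pr n r f := by
  classical
  obtain ⟨F, hFd⟩ : ∃ F : Fin r → Multiset (ℂ × (Fin n →₀ ℕ)),
      F = fun k => (f k).support.val.map fun m => (coeff m (f k), m) := ⟨_, rfl⟩
  have hp : (fun k => pol (F k)) = f := by
    funext k
    rw [pol, hFd, Multiset.map_map]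
    exact support_sum_monomial_coeff (f k)
  rw [← hp]
  refine R2_aux Pr hbase hstep _ n r (fun _ => 0) F le_rfl ?_
  intro k t ht
  rw [hFd, Multiset.mem_map] at ht
  obtain ⟨m, hm, rfl⟩ := ht
  have hz : dg (fun _ : Fin n => (0 : Fin 2)) 1 m = 0 := by
    rw [dg]
    refine Finset.sum_eq_zero ?_
    intro i hi
    rw [Finset.mem_filter] at hi
    exact absurd hi.2 (by decide)
  refine ⟨?_, ?_, ?_⟩
  · intro h
    have h1 : m ∈ (f k).support := hm
    have h2 : m = 0 := h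
    rw [h2, mem_support_iff] at h1
    apply h1
    have h3 := h0 k
    rw [eval_zero, constantCoeff_eq] at h3
    exact h3
  · rw [hz]
    exact Nat.zero_le 1
  · intro _
    exact hz

end CX
end MotMono
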